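import Pool.Agent.Helper23K9.Q5.Rk0

/-!
The criterion in terms of the bad points.
-/

set_option autoImplicit false
set_option linter.all false

open Polynomial IsDedekindDomain WeierstrassCurve WeierstrassCurve.Affine
open scoped Classical IntermediateField

namespace Pool.Agent.Helper23K9.Q5

open Pool.Agent.TH115.GD (vInf pl Pt act incl rs ak IsCoc LocTriv Sep Comp IsTower Preserves
  LocallyTrivial act_act vInf_poly)
open Pool.Agent.Helper7K9.T3 (TateAt IsTateClass IsTC IsInv tate_of_part)
open Pool.Agent.Helper23K9.T5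

/-- The polynomial whose roots are the finite points at which `E_b`, `b = β / γ`, has bad
reduction. -/
noncomputable def bad {k : Type*} [Field k] (β γ : k[X]) : k[X] :=
  β * γ * (β ^ 2 - 11 * β * γ - γ ^ 2)

theorem bad_map {k k1 : Type*} [Field k] [Field k1] (f : k →+* k1) (β γ : k[X]) :
    (bad β γ).map f = bad (β.map f) (γ.map f) := by
  simp only [bad, Polynomial.map_mul, Polynomial.map_sub, Polynomial.map_pow,
    Polynomial.map_ofNat]

theorem bad_split {k : Type*} [Field k] {z : k} (hz : IsZ z) (β γ : k[X]) :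
    β ^ 2 - 11 * β * γ - γ ^ 2 = (β - C (ep z) * γ) * (β - C (ep' z) * γ) := by
  have h1 : C (ep z) + C (ep' z) = (11 : k[X]) := by
    rw [← C_add, show ep z + ep' z = 11 by unfold ep ep'; linear_combination 5 * hz.eta_add]
    exact map_ofNat C 11
  have h2 : C (ep z) * C (ep' z) = (-1 : k[X]) := by
    rw [← C_mul, show ep z * ep' z = -1 by
      unfold ep ep'
      linear_combination 25 * hz.eta_mul + 40 * hz.eta_add]
    simp
  linear_combination β * γ * h1 - γ ^ 2 * h2

theorem dvd_map_irr {k k1 : Type*} [Field k] [Field k1] (f : k →+* k1) {q : k1[X]}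
    (hq : Irreducible q) (p : k[X]) : p ≠ 0 → q ∣ p.map f →
      ∃ π : k[X], Irreducible π ∧ π ∣ p ∧ q ∣ π.map f := by
  refine WfDvdMonoid.induction_on_irreducible p (fun h => absurd rfl h) ?_ ?_
  · intro u hu _ hd
    exact absurd (isUnit_of_dvd_unit hd (hu.map (mapRingHom f))) hq.not_isUnit
  · intro a π ha hπ ih _ hd
    rw [Polynomial.map_mul] at hd
    rcases hq.prime.dvd_or_dvd hd with h | h
    · exact ⟨π, hπ, dvd_mul_right _ _, h⟩
    · obtain ⟨π', h1, h2, h3⟩ := ih ha h
      exact ⟨π', h1, h2.mul_left _, h3⟩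

theorem sep_map {k k1 : Type*} [Field k] [Field k1] (f : k →+* k1) {p : k[X]} (hp : p ≠ 0)
    (hs : ∀ π : k[X], Irreducible π → π ∣ p → π.Separable) {q : k1[X]}
    (hq : Irreducible q) (hd : q ∣ p.map f) : q.Separable := by
  obtain ⟨π, h1, h2, h3⟩ := dvd_map_irr f hq p hp hd
  exact (hs π h1 h2).map.of_dvd h3

section nz

variable {k : Type*} [Field k] {β γ : k[X]}

theorem sub_ne (hcop : IsCoprime β γ) (hnc : β.natDegree ≠ 0 ∨ γ.natDegree ≠ 0) (e : k) :
    β - C e * γ ≠ 0 := by
  intro h0
  rw [sub_eq_zero] at h0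
  have h1 : IsUnit γ := by
    refine (isCoprime_self).1 ?_
    rw [h0] at hcop
    exact hcop.of_mul_left_right
  have h2 := natDegree_eq_zero_of_isUnit h1
  rcases hnc with h | h
  · apply h
    rw [h0]
    exact Nat.eq_zero_of_le_zero ((natDegree_C_mul_le _ _).trans h2.le)
  · exact h h2

theorem beta_ne (hcop : IsCoprime β γ) (hnc : β.natDegree ≠ 0 ∨ γ.natDegree ≠ 0) : β ≠ 0 := by
  rintro rfl
  have h1 : IsUnit γ := isCoprime_zero_left.1 hcop
  have h2 := natDegree_eq_zero_of_isUnit h1
  rcases hnc with h | h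
  · exact h natDegree_zero
  · exact h h2

theorem gamma_ne (hcop : IsCoprime β γ) (hnc : β.natDegree ≠ 0 ∨ γ.natDegree ≠ 0) : γ ≠ 0 :=
  beta_ne hcop.symm hnc.symm

end nz

theorem bad_ne {k : Type} [Field k] {β γ : k[X]} (hcop : IsCoprime β γ)
    (hnc : β.natDegree ≠ 0 ∨ γ.natDegree ≠ 0) : bad β γ ≠ 0 := by
  refine mul_ne_zero (mul_ne_zero (beta_ne hcop hnc) (gamma_ne hcop hnc)) ?_
  intro h0
  have hdvd : β ∣ γ ^ 2 := ⟨β - 11 * γ, by linear_combination -h0⟩
  have hu : IsUnit β := by
    refine (isCoprime_self).1 ?_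
    exact (hcop.pow_right (n := 2)).of_isCoprime_of_dvd_right hdvd
  have hdvd' : γ ∣ β ^ 2 := ⟨γ + 11 * β, by linear_combination h0⟩
  have hu' : IsUnit γ := by
    refine (isCoprime_self).1 ?_
    exact (hcop.symm.pow_right (n := 2)).of_isCoprime_of_dvd_right hdvd'
  rcases hnc with h | h
  · exact h (natDegree_eq_zero_of_isUnit hu)
  · exact h (natDegree_eq_zero_of_isUnit hu')

theorem bpol_ok {k K : Type} [Field k] [Field K] [Algebra k[X] K] [IsFractionRing k[X] K]
    {β γ : k[X]} (hcop : IsCoprime β γ) (hnc : β.natDegree ≠ 0 ∨ γ.natDegree ≠ 0) :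
    bpol (algebraMap k[X] K β / algebraMap k[X] K γ) ≠ 0 := by
  have hβ := beta_ne hcop hnc
  have hγ := gamma_ne hcop hnc
  have inj := IsFractionRing.injective k[X] K
  by_cases hg : γ.natDegree = 0
  · refine bpol_ne (vInf k K) ?_
    rw [map_div₀, vInf_poly hβ, vInf_poly hγ, hg, ← WithZero.exp_sub, ← WithZero.exp_zero,
      WithZero.exp_lt_exp]
    have : β.natDegree ≠ 0 := by
      rcases hnc with h | h
      · exact h
      · exact absurd hg h
    omega
  · have hu : ¬ IsUnit γ := fun hu => hg (natDegree_eq_zero_of_isUnit hu)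
    obtain ⟨π, hi, hπ⟩ := WfDvdMonoid.exists_irreducible_factor hu hγ
    let v : HeightOneSpectrum k[X] := ⟨Ideal.span {π}, (Ideal.span_singleton_prime hi.ne_zero).2
      hi.prime, by rw [Ne, Ideal.span_singleton_eq_bot]; exact hi.ne_zero⟩
    refine bpol_ne (v.valuation K) ?_
    have h1 : v.valuation K (algebraMap k[X] K β) = 1 := by
      rw [v.valuation_of_algebraMap, HeightOneSpectrum.intValuation_eq_one_iff]
      intro hm
      have hm' : π ∣ β := Ideal.mem_span_singleton.1 hm
      exact hi.not_isUnit (hcop.isUnit_of_dvd' hm' hπ)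
    have h2 : v.valuation K (algebraMap k[X] K γ) < 1 := by
      rw [v.valuation_lt_one_iff_mem]
      exact Ideal.mem_span_singleton.2 hπ
    have h3 : v.valuation K (algebraMap k[X] K γ) ≠ 0 := by
      rw [Ne, map_eq_zero, map_eq_zero_iff _ inj]
      exact hγ
    rw [map_div₀, h1, one_div]
    exact (one_lt_inv₀ (zero_lt_iff.2 h3)).2 h2

/-- The square root of an element of `k(z, θ)`. -/
theorem exists_sign {k k' : Type} [Field k] [Field k'] [Algebra k k'] [IsGalois k k'] {z θ ρ : k'}
    (hθ : ρ ^ 2 ∈ IntermediateField.adjoin k {z, θ}) (hρ : ρ ∉ IntermediateField.adjoin k {z, θ}) :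
    ∃ s0 : k' ≃ₐ[IntermediateField.adjoin k {z}] k', s0 ρ = -ρ := by
  have h1 : ∃ σ : k' ≃ₐ[IntermediateField.adjoin k {z, θ}] k', σ ρ ≠ ρ := by
    by_contra hcon
    push Not at hcon
    have h2 := (InfiniteGalois.mem_bot_iff_fixed ρ).2 hcon
    rw [IntermediateField.mem_bot] at h2
    obtain ⟨y, rfl⟩ := h2
    exact hρ y.2
  obtain ⟨σ, hσ⟩ := h1
  have h3 : (σ ρ) ^ 2 = ρ ^ 2 := by
    rw [← map_pow]
    exact σ.commutes ⟨ρ ^ 2, hθ⟩
  have h4 : σ ρ = -ρ := by
    rcases sq_eq_sq_iff_eq_or_eq_neg.1 h3 with h | h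
    · exact absurd h hσ
    · exact h
  have hle : IntermediateField.adjoin k {z} ≤ IntermediateField.adjoin k {z, θ} :=
    IntermediateField.adjoin.mono k _ _ (by simp)
  exact ⟨AlgEquiv.ofRingEquiv (f := σ.toRingEquiv) (fun x => σ.commutes ⟨x.1, hle x.2⟩), h4⟩

section crit

variable {k k' K F : Type} [Field k] [Field k'] [Algebra k k'] [Field K] [Algebra k[X] K]
    [Field F] [Algebra k'[X] F] [IsFractionRing k'[X] F] [Algebra K F]

/-- The quadratic twist of `E_b`, `b = β / γ`, by `c (t - t0)`. -/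
noncomputable def twl (K : Type) [Field K] [Algebra k[X] K] (β γ : k[X]) (c t0 : k) :
    WeierstrassCurve K :=
  qtw (algebraMap k[X] K (C c * (X - C t0)))
    (crv5 (algebraMap k[X] K β / algebraMap k[X] K γ))

/-- The Tate conjecture at 5, and multiplication by five is bijective on the rational points. -/
def Tate0 (k' K F : Type) [Field k'] [Field K] [Algebra k[X] K] [Field F] [Algebra k'[X] F]
    [IsFractionRing k'[X] F] [Algebra K F] (β γ : k[X]) (c t0 : k) : Prop :=
  TateAt (F := F) 5 k' (twl K β γ c t0) ∧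
    Function.Bijective fun Q : Pt (twl K β γ c t0) K => 5 • Q

/-- **The criterion for linear quadratic twists.** -/
theorem crit (hT : IsTower k k' K F) (h2 : (2 : k) ≠ 0) (h5 : (5 : k) ≠ 0) {β γ : k[X]}
    (hcop : IsCoprime β γ) (hnc : β.natDegree ≠ 0 ∨ γ.natDegree ≠ 0)
    (hsep : ∀ π : k[X], Irreducible π → π ∣ bad β γ → π.Separable) {c t0 : k} (hc : c ≠ 0)
    {z : k'} (hz : IsZ z) (hb : ∀ θ : k', θ ≠ algebraMap k k' t0 → aeval θ (bad β γ) = 0 →
      ∀ x ∈ IntermediateField.adjoin k {z, θ},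
        x ^ 2 ≠ algebraMap k k' c * (θ - algebraMap k k' t0)) :
    Tate0 k' K F β γ c t0 := by
  haveI := hT.sep
  haveI := hT.fracK
  haveI : IsSepClosed k' := IsSepClosure.sep_closed k
  haveI : IsGalois k k' := inferInstance
  obtain ⟨z0, hz0'⟩ : ∃ z0 : IntermediateField.adjoin k {z}, z0 =
    ⟨z, IntermediateField.mem_adjoin_simple_self k z⟩ := ⟨_, rfl⟩
  have hz0 : IsZ z0 := by
    have h1 : algebraMap (IntermediateField.adjoin k {z}) k' z0 = z := by rw [hz0']; rfl
    unfold IsZ at hz ⊢
    apply (algebraMap (IntermediateField.adjoin k {z}) k').injective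
    simp only [map_add, map_pow, map_one, map_zero, h1]
    exact hz
  have hcop1 : IsCoprime (β.map (algebraMap k (IntermediateField.adjoin k {z})))
      (γ.map (algebraMap k (IntermediateField.adjoin k {z}))) :=
    hcop.map (mapRingHom (algebraMap k (IntermediateField.adjoin k {z})))
  have hnc1 : (β.map (algebraMap k (IntermediateField.adjoin k {z}))).natDegree ≠ 0 ∨
      (γ.map (algebraMap k (IntermediateField.adjoin k {z}))).natDegree ≠ 0 := by
    rw [natDegree_map, natDegree_map]
    exact hnc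
  have hbad := bad_ne hcop hnc
  have key : ∀ q : (IntermediateField.adjoin k {z})[X], Irreducible q →
      q ∣ (bad β γ).map (algebraMap k (IntermediateField.adjoin k {z})) → q.Separable :=
    fun q hq hd => sep_map _ hbad hsep hq hd
  have e1 : (bad β γ).map (algebraMap k (IntermediateField.adjoin k {z})) =
      β.map (algebraMap k (IntermediateField.adjoin k {z})) *
        γ.map (algebraMap k (IntermediateField.adjoin k {z})) *
        ((β.map (algebraMap k (IntermediateField.adjoin k {z})) -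
          C (ep z0) * γ.map (algebraMap k (IntermediateField.adjoin k {z}))) *
        (β.map (algebraMap k (IntermediateField.adjoin k {z})) -
          C (ep' z0) * γ.map (algebraMap k (IntermediateField.adjoin k {z})))) := by
    rw [bad_map, bad, bad_split hz0]
  -- automorphisms
  have haut : ∀ ρ : k', ρ ≠ 0 → aeval ((algebraMap k k' c)⁻¹ * ρ ^ 2 + algebraMap k k' t0)
      (bad β γ) = 0 → ∃ s0 : k' ≃ₐ[IntermediateField.adjoin k {z}] k', s0 ρ = -ρ := by
    intro ρ hρ hev
    set θ := (algebraMap k k' c)⁻¹ * ρ ^ 2 + algebraMap k k' t0 with hθ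
    have hc' : algebraMap k k' c ≠ 0 := (_root_.map_ne_zero _).2 hc
    have e2 : ρ ^ 2 = algebraMap k k' c * (θ - algebraMap k k' t0) := by
      rw [hθ]; field_simp; ring
    have hθt : θ ≠ algebraMap k k' t0 := by
      intro h
      rw [h, sub_self, mul_zero] at e2
      exact hρ (pow_eq_zero_iff (by norm_num) |>.1 e2)
    have h3 := hb θ hθt hev
    refine exists_sign (θ := θ) ?_ fun hm => h3 ρ hm e2
    rw [e2]
    exact mul_mem (algebraMap_mem _ _) (sub_mem (IntermediateField.subset_adjoin k _ (by simp))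
      (algebraMap_mem _ _))
  have hev : ∀ (q : (IntermediateField.adjoin k {z})[X]) (θ : k'),
      q ∣ (bad β γ).map (algebraMap k (IntermediateField.adjoin k {z})) →
      (q.map (algebraMap (IntermediateField.adjoin k {z}) k')).eval θ = 0 →
      aeval θ (bad β γ) = 0 := by
    intro q θ hd h0
    obtain ⟨r, hr⟩ := hd
    have h4 : aeval θ (bad β γ) = ((bad β γ).map (algebraMap k k')).eval θ := by
      rw [aeval_def, eval_map]
    rw [h4, IsScalarTower.algebraMap_eq k (IntermediateField.adjoin k {z}) k', ← Polynomial.map_map,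
      hr, Polynomial.map_mul, eval_mul, h0, zero_mul]
  have hp1 : β.map (algebraMap k (IntermediateField.adjoin k {z})) *
      γ.map (algebraMap k (IntermediateField.adjoin k {z})) ∣
      (bad β γ).map (algebraMap k (IntermediateField.adjoin k {z})) := by
    rw [e1]; exact dvd_mul_right _ _
  have hp2 : (β.map (algebraMap k (IntermediateField.adjoin k {z})) -
      C (ep z0) * γ.map (algebraMap k (IntermediateField.adjoin k {z}))) *
      (β.map (algebraMap k (IntermediateField.adjoin k {z})) -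
      C (ep' z0) * γ.map (algebraMap k (IntermediateField.adjoin k {z}))) ∣
      (bad β γ).map (algebraMap k (IntermediateField.adjoin k {z})) := by
    rw [e1]; exact dvd_mul_left _ _
  have hnz := And.intro (beta_ne hcop1 hnc1) (And.intro (gamma_ne hcop1 hnc1)
    (And.intro (sub_ne hcop1 hnc1 (ep z0)) (sub_ne hcop1 hnc1 (ep' z0))))
  refine ⟨tate_tw (k1 := IntermediateField.adjoin k {z}) hT h2 h5 hz0 (β := β) (γ := γ) rfl rfl
    hnz (fun q hq hd => key q hq (hd.trans hp1)) (fun q hq hd => key q hq (hd.trans hp2))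
    rfl (bpol_ok hcop hnc) hc rfl (fun ρ hρ h0 => haut ρ hρ (hev _ _ hp1 h0))
    (fun ρ hρ h0 => haut ρ hρ (hev _ _ hp2 h0)), ?_⟩
  rw [Function.bijective_iff_existsUnique]
  intro P
  exact div_tw (k1 := IntermediateField.adjoin k {z}) hT h2 h5 hz0 (β := β) (γ := γ) rfl rfl
    hnz (fun q hq hd => key q hq (hd.trans hp1)) (fun q hq hd => key q hq (hd.trans hp2))
    rfl (bpol_ok hcop hnc) hc rfl (fun ρ hρ h0 => haut ρ hρ (hev _ _ hp1 h0))
    (fun ρ hρ h0 => haut ρ hρ (hev _ _ hp2 h0)) P

end crit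

end Pool.Agent.Helper23K9.Q5
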