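import Pool.Agent.R939.EI.Den1
import Pool.Agent.R939.EI.Den2
import Pool.Agent.H637R2.Leo.Split

/-!
Sets of density zero by the sieve; values of polynomials which are squares in a number field.
-/

set_option autoImplicit false
set_option linter.all false

open Polynomial NumberField
open scoped Classical

namespace Pool.Agent.Helper23K9.Q5

open Pool.Agent.R939.EI

section zr

variable {ι : Type} [Fintype ι]

/-- Density zero (in boxes). -/
def Zr (S : Set (ι → ℤ)) : Prop := ∀ ε : ℝ, 0 < ε → ∃ H0 : ℕ, ∀ H : ℕ, H0 ≤ H →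
  (({x : ι → ℤ | (∀ i, |x i| ≤ (H : ℤ)) ∧ x ∈ S}.ncard : ℕ) : ℝ) ≤
    ε * (2 * H + 1) ^ Fintype.card ι

theorem boxfin (S : Set (ι → ℤ)) (H : ℕ) : {x : ι → ℤ | (∀ i, |x i| ≤ (H : ℤ)) ∧ x ∈ S}.Finite := by
  have : (Set.pi Set.univ fun _ : ι => Set.Icc (-(H : ℤ)) H).Finite :=
    Set.Finite.pi fun _ => Set.finite_Icc _ _
  refine this.subset ?_
  intro x hx i _
  exact abs_le.1 (hx.1 i)

theorem Zr.mono {S T : Set (ι → ℤ)} (h : Zr T) (hST : S ⊆ T) : Zr S := by
  intro ε hε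
  obtain ⟨H0, hH⟩ := h ε hε
  refine ⟨H0, fun H hHH => le_trans ?_ (hH H hHH)⟩
  have hsub : {x : ι → ℤ | (∀ i, |x i| ≤ (H : ℤ)) ∧ x ∈ S} ⊆
      {x : ι → ℤ | (∀ i, |x i| ≤ (H : ℤ)) ∧ x ∈ T} := fun x hx => ⟨hx.1, hST hx.2⟩
  exact_mod_cast Set.ncard_le_ncard hsub (boxfin T H)

theorem Zr.union {S T : Set (ι → ℤ)} (h : Zr S) (h' : Zr T) : Zr (S ∪ T) := by
  intro ε hε
  obtain ⟨H0, hH⟩ := h (ε / 2) (by positivity)
  obtain ⟨H1, hH1⟩ := h' (ε / 2) (by positivity)
  refine ⟨max H0 H1, fun H hHH => ?_⟩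
  have h1 := hH H ((le_max_left _ _).trans hHH)
  have h2 := hH1 H ((le_max_right _ _).trans hHH)
  have h3 : {x : ι → ℤ | (∀ i, |x i| ≤ (H : ℤ)) ∧ x ∈ S ∪ T} =
      {x : ι → ℤ | (∀ i, |x i| ≤ (H : ℤ)) ∧ x ∈ S} ∪ {x : ι → ℤ | (∀ i, |x i| ≤ (H : ℤ)) ∧ x ∈ T} := by
    ext x
    simp only [Set.mem_union, Set.mem_setOf_eq]
    tauto
  rw [h3]
  have h4 := Set.ncard_union_le {x : ι → ℤ | (∀ i, |x i| ≤ (H : ℤ)) ∧ x ∈ S}
    {x : ι → ℤ | (∀ i, |x i| ≤ (H : ℤ)) ∧ x ∈ T}
  have h5 : ((({x : ι → ℤ | (∀ i, |x i| ≤ (H : ℤ)) ∧ x ∈ S} ∪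
      {x : ι → ℤ | (∀ i, |x i| ≤ (H : ℤ)) ∧ x ∈ T}).ncard : ℕ) : ℝ) ≤
      (({x : ι → ℤ | (∀ i, |x i| ≤ (H : ℤ)) ∧ x ∈ S}.ncard : ℕ) : ℝ) +
      (({x : ι → ℤ | (∀ i, |x i| ≤ (H : ℤ)) ∧ x ∈ T}.ncard : ℕ) : ℝ) := by
    exact_mod_cast h4
  linarith

theorem Zr.empty : Zr (∅ : Set (ι → ℤ)) := by
  intro ε hε
  refine ⟨0, fun H _ => ?_⟩
  have : {x : ι → ℤ | (∀ i, |x i| ≤ (H : ℤ)) ∧ x ∈ (∅ : Set (ι → ℤ))} = ∅ := by
    ext v; simp
  rw [this, Set.ncard_empty]
  push_cast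
  positivity

theorem Zr.biUnion {J : Type} (s : Finset J) (f : J → Set (ι → ℤ)) (h : ∀ j ∈ s, Zr (f j)) :
    Zr (⋃ j ∈ s, f j) := by
  induction s using Finset.induction_on with
  | empty => simpa using Zr.empty
  | insert a s ha ih =>
    rw [Finset.set_biUnion_insert]
    exact (h a (Finset.mem_insert_self _ _)).union
      (ih fun j hj => h j (Finset.mem_insert_of_mem hj))

/-- **The sieve for infinitely many primes.** -/
theorem zr_sieve {δ : ℝ} (hδ0 : 0 < δ) (hδ : δ ≤ 1) (Ω : (p : ℕ) → Set (ι → ZMod p))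
    (hΩ : ∀ N : ℕ, ∃ p : ℕ, N ≤ p ∧ p.Prime ∧ δ * (p : ℝ) ^ Fintype.card ι ≤ (Ω p).ncard) :
    Zr {x : ι → ℤ | ∀ p : ℕ, p.Prime → (fun i => (x i : ZMod p)) ∉ Ω p} := by
  intro η hη
  obtain ⟨m, hm⟩ := exists_pow_lt_of_lt_one
    (show 0 < η / 2 ^ Fintype.card ι by positivity) (show 1 - δ < 1 by linarith)
  have hinf : {p : ℕ | p.Prime ∧ δ * (p : ℝ) ^ Fintype.card ι ≤ (Ω p).ncard}.Infinite := by
    rw [Set.infinite_iff_exists_gt]
    intro N
    obtain ⟨p, h1, h2, h3⟩ := hΩ (N + 1)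
    exact ⟨p, ⟨h2, h3⟩, h1⟩
  obtain ⟨P, hPs, hPc⟩ := hinf.exists_subset_card_eq m
  have hP : ∀ p ∈ P, p.Prime ∧ δ * (p : ℝ) ^ Fintype.card ι ≤ (Ω p).ncard := fun p hp => hPs hp
  refine ⟨∏ p ∈ P, p, fun H hH => ?_⟩
  have h1 : {x : ι → ℤ | (∀ i, |x i| ≤ (H : ℤ)) ∧
      x ∈ {x : ι → ℤ | ∀ p : ℕ, p.Prime → (fun i => (x i : ZMod p)) ∉ Ω p}} ⊆ avoid P Ω H := by
    intro x hx
    exact ⟨hx.1, fun p hp => hx.2 p (hP p hp).1⟩
  have hfin : (avoid P Ω H).Finite := by
    have : (Set.pi Set.univ fun _ : ι => Set.Icc (-(H : ℤ)) H).Finite :=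
      Set.Finite.pi fun _ => Set.finite_Icc _ _
    refine this.subset ?_
    intro x hx i _
    exact abs_le.1 (hx.1 i)
  have h3 : (({x : ι → ℤ | (∀ i, |x i| ≤ (H : ℤ)) ∧
      x ∈ {x : ι → ℤ | ∀ p : ℕ, p.Prime → (fun i => (x i : ZMod p)) ∉ Ω p}}.ncard : ℕ) : ℝ) ≤
      ((avoid P Ω H).ncard : ℝ) := by
    exact_mod_cast Set.ncard_le_ncard h1 hfin
  refine h3.trans ((sieve P (fun p hp => (hP p hp).1) Ω hδ
    (fun p hp => (hP p hp).2) H).trans ?_)
  have h4 : (2 * (H : ℝ) + (∏ p ∈ P, p : ℕ)) ≤ 2 * (2 * H + 1) := by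
    have : ((∏ p ∈ P, p : ℕ) : ℝ) ≤ (H : ℝ) := by exact_mod_cast hH
    have h0 : (0 : ℝ) ≤ (H : ℝ) := Nat.cast_nonneg _
    linarith
  calc (1 - δ) ^ P.card * (2 * (H : ℝ) + (∏ p ∈ P, p : ℕ)) ^ Fintype.card ι
      ≤ (1 - δ) ^ P.card * (2 * (2 * (H : ℝ) + 1)) ^ Fintype.card ι :=
        mul_le_mul_of_nonneg_left (pow_le_pow_left₀ (by positivity) h4 _)
          (pow_nonneg (by linarith) _)
    _ = ((1 - δ) ^ m * 2 ^ Fintype.card ι) * (2 * (H : ℝ) + 1) ^ Fintype.card ι := by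
        rw [hPc, mul_pow]; ring
    _ ≤ η * (2 * (H : ℝ) + 1) ^ Fintype.card ι := by
        refine mul_le_mul_of_nonneg_right ?_ (by positivity)
        have := hm.le
        rw [le_div_iff₀ (by positivity)] at this
        exact this

end zr

section nf

variable {k M : Type} [Field k] [NumberField k] [Field M] [NumberField M] [Algebra k M]
  {J : Type} [Fintype J] (B : Module.Basis J ℤ (𝓞 k))

/-- The integer with given coordinates. -/
noncomputable def el (x : J → ℤ) : 𝓞 k := ∑ j, x j • B j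

/-- **Polynomial values are rarely squares**: if a polynomial has sufficiently many values which
are not squares for almost all homomorphisms to prime fields. -/
theorem zr_sq {G : (𝓞 M)[X]} {N : ℕ} (hN : N ≠ 0)
    (hG : ∀ (p : ℕ) [Fact p.Prime], ¬ p ∣ N → ∀ φ : 𝓞 M →+* ZMod p,
      p ≤ 2 * (Finset.univ.filter fun s : ZMod p => ¬ IsSquare ((G.map φ).eval s)).card + 3) :
    Zr {x : J → ℤ | IsSquare (algebraMap (𝓞 M) M
      (G.eval (algebraMap (𝓞 k) (𝓞 M) (el B x))))} := by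
  let Ω : (p : ℕ) → Set (J → ZMod p) := fun p => {y | ∃ φ : 𝓞 M →+* ZMod p,
    ¬ IsSquare ((G.map φ).eval (∑ j, y j * φ (algebraMap (𝓞 k) (𝓞 M) (B j))))}
  have h1 : Zr {x : J → ℤ | ∀ p : ℕ, p.Prime → (fun i => (x i : ZMod p)) ∉ Ω p} := by
    refine zr_sieve (δ := 1 / 4) (by norm_num) (by norm_num) Ω fun N' => ?_
    obtain ⟨q, hq, hqN, ⟨φ⟩⟩ := Pool.Agent.H637R2.Leo.exists_hom M (N * (N' + 7).factorial)
      (mul_ne_zero hN (Nat.factorial_ne_zero _))
    haveI : Fact q.Prime := ⟨hq⟩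
    have hq1 : ¬ q ∣ N := fun h => hqN (h.mul_right _)
    have hq2 : N' + 7 < q := by
      by_contra hcon
      exact hqN (((Nat.Prime.dvd_factorial hq).2 (not_lt.1 hcon)).mul_left _)
    refine ⟨q, by omega, hq, ?_⟩
    let f : (J → ZMod q) →+ ZMod q :=
      { toFun := fun y => ∑ j, y j * φ (algebraMap (𝓞 k) (𝓞 M) (B j))
        map_zero' := by simp
        map_add' := fun y y' => by
          rw [← Finset.sum_add_distrib]
          exact Finset.sum_congr rfl fun j _ => by rw [Pi.add_apply, add_mul] }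
    have hfe : ∀ y, f y = ∑ j, y j * φ (algebraMap (𝓞 k) (𝓞 M) (B j)) := fun y => rfl
    have hsurj : Function.Surjective f := by
      intro a
      obtain ⟨a', ha'⟩ : ∃ a' : 𝓞 k, φ (algebraMap (𝓞 k) (𝓞 M) a') = a := by
        obtain ⟨n, rfl⟩ := ZMod.intCast_surjective a
        exact ⟨(n : 𝓞 k), by rw [map_intCast, map_intCast]⟩
      refine ⟨fun j => ((B.repr a' j : ℤ) : ZMod q), ?_⟩
      rw [hfe, ← ha']
      conv_rhs => rw [← B.sum_repr a', map_sum, map_sum]
      exact Finset.sum_congr rfl fun j _ => by rw [zsmul_eq_mul, map_mul, map_mul, map_intCast,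
        map_intCast]
    set S := Finset.univ.filter fun s : ZMod q => ¬ IsSquare ((G.map φ).eval s) with hS
    have hSc := hG q hq1 φ
    rw [← hS] at hSc
    have hcard : (Finset.univ.filter fun y : J → ZMod q => f y ∈ S).card * q =
        S.card * q ^ Fintype.card J := by
      have e1 := Finset.card_eq_sum_card_fiberwise (f := f)
        (s := Finset.univ.filter fun y : J → ZMod q => f y ∈ S) (t := S) (fun y hy => by
          simpa using hy)
      rw [e1, Finset.sum_mul, ← smul_eq_mul (S.card), ← Finset.sum_const]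
      refine Finset.sum_congr rfl fun s hs => ?_
      have e2 := fiber_card f hsurj s
      rw [Fintype.card_fun, ZMod.card] at e2
      rw [← e2]
      congr 2
      ext y
      simp only [Finset.mem_filter, Finset.mem_univ, true_and]
      constructor
      · exact fun h => h.2
      · intro h
        exact ⟨by rw [h]; exact hs, h⟩
    have hsub : ((Finset.univ.filter fun y : J → ZMod q => f y ∈ S : Finset (J → ZMod q)) :
        Set (J → ZMod q)) ⊆ Ω q := by
      intro y hy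
      have h3 : f y ∈ S := by simpa using hy
      rw [hS, Finset.mem_filter] at h3
      exact ⟨φ, h3.2⟩
    have h4 := Set.ncard_le_ncard hsub (Set.toFinite _)
    rw [Set.ncard_coe_finset] at h4
    have hq0 : (0 : ℝ) < q := by exact_mod_cast hq.pos
    have h5 : (q : ℝ) ≤ 4 * (S.card : ℝ) := by
      have : q ≤ 4 * S.card := by omega
      exact_mod_cast this
    have h6 : (((Finset.univ.filter fun y : J → ZMod q => f y ∈ S).card : ℕ) : ℝ) * q =
        S.card * (q : ℝ) ^ Fintype.card J := by exact_mod_cast hcard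
    have h7 : (((Finset.univ.filter fun y : J → ZMod q => f y ∈ S).card : ℕ) : ℝ) ≤
        ((Ω q).ncard : ℝ) := by exact_mod_cast h4
    refine le_trans ?_ h7
    refine le_of_mul_le_mul_right ?_ hq0
    rw [h6]
    have h8 : (0 : ℝ) ≤ (q : ℝ) ^ Fintype.card J := by positivity
    nlinarith
  refine h1.mono ?_
  intro x hx p hp hmem
  haveI : Fact p.Prime := ⟨hp⟩
  obtain ⟨φ, hφ⟩ := hmem
  apply hφ
  obtain ⟨w, hw⟩ := hx
  obtain ⟨w0, hw0⟩ : ∃ w0 : 𝓞 M, algebraMap (𝓞 M) M w0 = w := by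
    apply IsIntegrallyClosed.exists_algebraMap_eq_of_isIntegral_pow (n := 2) (by norm_num)
    rw [pow_two, ← hw]
    exact isIntegral_algebraMap
  have h2 : G.eval (algebraMap (𝓞 k) (𝓞 M) (el B x)) = w0 * w0 := by
    apply IsFractionRing.injective (𝓞 M) M
    rw [hw, map_mul, hw0]
  refine ⟨φ w0, ?_⟩
  rw [← map_mul, ← h2]
  have e3 : ∑ j, (x j : ZMod p) * φ (algebraMap (𝓞 k) (𝓞 M) (B j)) =
      φ (algebraMap (𝓞 k) (𝓞 M) (el B x)) := by
    rw [el, map_sum, map_sum]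
    exact Finset.sum_congr rfl fun j _ => by rw [zsmul_eq_mul, map_mul, map_mul, map_intCast,
      map_intCast]
  show (G.map φ).eval (∑ j, (x j : ZMod p) * φ (algebraMap (𝓞 k) (𝓞 M) (B j))) = _
  rw [e3, eval_map, eval₂_at_apply]

omit [NumberField k] [Algebra k M] in
/-- Nonzero integers are units modulo almost all primes. -/
theorem exists_bad {u : 𝓞 M} (hu : u ≠ 0) : ∃ n : ℕ, n ≠ 0 ∧
    ∀ (p : ℕ) (φ : 𝓞 M →+* ZMod p), ¬ p ∣ n → φ u ≠ 0 := by
  have h1 : (Ideal.span {u}).comap (algebraMap ℤ (𝓞 M)) ≠ ⊥ :=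
    Ideal.comap_ne_bot_of_integral_mem hu (Ideal.mem_span_singleton_self u)
      (Algebra.IsIntegral.isIntegral u)
  obtain ⟨n, hn, hn0⟩ := Submodule.exists_mem_ne_zero_of_ne_bot h1
  refine ⟨n.natAbs, Int.natAbs_ne_zero.2 hn0, fun p φ hp h0 => ?_⟩
  rw [Ideal.mem_comap, Ideal.mem_span_singleton] at hn
  obtain ⟨y, hy⟩ := hn
  have h2 : φ (algebraMap ℤ (𝓞 M) n) = 0 := by
    rw [hy, map_mul, h0, zero_mul]
  rw [eq_intCast, map_intCast, ZMod.intCast_zmod_eq_zero_iff_dvd] at h2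
  exact hp (Int.natCast_dvd.1 h2)

omit [NumberField k] [Algebra k M] in
/-- A common denominator. -/
theorem exists_den (a b : M) : ∃ (n : ℤ) (a' b' : 𝓞 M), n ≠ 0 ∧
    algebraMap (𝓞 M) M a' = n * a ∧ algebraMap (𝓞 M) M b' = n * b := by
  have h1 : ∀ x : M, ∃ (n : ℤ), n ≠ 0 ∧ IsIntegral ℤ (n • x) := by
    intro x
    have h2 : IsAlgebraic ℤ x := (IsFractionRing.isAlgebraic_iff ℤ ℚ M).2
      (Algebra.IsAlgebraic.isAlgebraic (R := ℚ) x)
    exact h2.exists_integral_multiple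
  obtain ⟨n, hn, hn'⟩ := h1 a
  obtain ⟨m, hm, hm'⟩ := h1 b
  refine ⟨n * m, ⟨(n * m) • a, ?_⟩, ⟨(n * m) • b, ?_⟩, mul_ne_zero hn hm, ?_, ?_⟩
  · show IsIntegral ℤ _
    rw [mul_comm, mul_smul]
    exact hn'.smul m
  · show IsIntegral ℤ _
    rw [mul_smul]
    exact hm'.smul n
  · show (n * m) • a = _
    rw [zsmul_eq_mul]
  · show (n * m) • b = _
    rw [zsmul_eq_mul]

theorem not_sq {p : ℕ} [Fact p.Prime] {x : ZMod p} (h : quadraticChar (ZMod p) x = -1) :
    ¬ IsSquare x := quadraticChar_neg_one_iff_not_isSquare.1 h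

/-- Products of two different linear polynomials are rarely squares. -/
theorem zr_pair {θ θ' : M} (h : θ ≠ θ') : Zr {x : J → ℤ |
    IsSquare ((θ - algebraMap k M (algebraMap (𝓞 k) k (el B x))) *
      (θ' - algebraMap k M (algebraMap (𝓞 k) k (el B x))))} := by
  obtain ⟨n, a, a', hn, e, e'⟩ := exists_den θ θ'
  have hu : a - a' ≠ 0 := by
    intro h0
    apply h
    have h1 := congrArg (algebraMap (𝓞 M) M) h0
    rw [map_sub, e, e', map_zero, ← mul_sub] at h1
    rcases mul_eq_zero.1 h1 with h2 | h2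
    · exact absurd h2 (by exact_mod_cast hn)
    · exact sub_eq_zero.1 h2
  obtain ⟨m, hm, hm'⟩ := exists_bad hu
  have h1 := zr_sq B (G := (C a - C (n : 𝓞 M) * X) * (C a' - C (n : 𝓞 M) * X))
    (N := 2 * n.natAbs * m) (mul_ne_zero (mul_ne_zero (by norm_num) (Int.natAbs_ne_zero.2 hn)) hm)
    (by
      intro p _ hp φ
      have hp2 : p ≠ 2 := by
        rintro rfl
        exact hp ((dvd_mul_right _ _).mul_right _)
      have hpn : (n : ZMod p) ≠ 0 := by
        intro h0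
        rw [ZMod.intCast_zmod_eq_zero_iff_dvd] at h0
        exact hp (((Int.natCast_dvd.1 h0).mul_left _).mul_right _)
      have hpm := hm' p φ (fun h0 => hp (h0.mul_left _))
      rw [map_sub, sub_ne_zero] at hpm
      have hF : ringChar (ZMod p) ≠ 2 := by
        rw [ZMod.ringChar_zmod_n]
        exact hp2
      have he : φ a / (n : ZMod p) ≠ φ a' / (n : ZMod p) := by
        intro h0
        apply hpm
        field_simp at h0
        exact h0
      have h2 := card_ratio hF he (κ := -1) (Or.inr rfl)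
      rw [ZMod.card] at h2
      refine h2.trans (Nat.add_le_add_right (Nat.mul_le_mul_left 2 (Finset.card_le_card ?_)) 3)
      intro s hs
      rw [Finset.mem_filter] at hs ⊢
      refine ⟨Finset.mem_univ _, ?_⟩
      have h3 := not_sq hs.2
      intro h4
      apply h3
      have e1 : ((((C a - C (n : 𝓞 M) * X) * (C a' - C (n : 𝓞 M) * X) : (𝓞 M)[X]).map φ).eval s) =
          (n : ZMod p) ^ 2 * ((φ a / (n : ZMod p) - s) * (φ a' / (n : ZMod p) - s)) := by
        simp only [Polynomial.map_mul, Polynomial.map_sub, map_C, map_X, eval_mul, eval_sub, eval_C,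
          eval_X, map_intCast, Polynomial.map_intCast, eval_intCast]
        field_simp
        try ring
      rw [e1] at h4
      obtain ⟨w, hw⟩ := h4
      refine ⟨w / n, ?_⟩
      field_simp
      rw [← sub_eq_zero] at hw ⊢
      rw [← hw]
      field_simp)
  refine h1.mono ?_
  rintro x ⟨w, hw⟩
  refine ⟨n * w, ?_⟩
  have e2 : algebraMap (𝓞 M) M (algebraMap (𝓞 k) (𝓞 M) (el B x)) =
      algebraMap k M (algebraMap (𝓞 k) k (el B x)) := rfl
  rw [eval_mul, eval_sub, eval_sub, eval_C, eval_C, eval_mul, eval_C, eval_X, map_mul, map_sub,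
    map_sub, map_mul, e2, e, e', map_intCast]
  linear_combination (n : M) ^ 2 * hw

/-- A linear polynomial is rarely a square. -/
theorem zr_lin {a θ : M} (ha : a ≠ 0) : Zr {x : J → ℤ |
    IsSquare (a * (θ - algebraMap k M (algebraMap (𝓞 k) k (el B x))))} := by
  obtain ⟨n, a1, θ1, hn, e, e'⟩ := exists_den a θ
  have hu : a1 ≠ 0 := by
    rintro rfl
    rw [map_zero] at e
    rcases mul_eq_zero.1 e.symm with h2 | h2
    · exact absurd h2 (by exact_mod_cast hn)
    · exact ha h2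
  obtain ⟨m, hm, hm'⟩ := exists_bad hu
  have h1 := zr_sq B (G := C a1 * (C θ1 - C (n : 𝓞 M) * X))
    (N := 2 * n.natAbs * m) (mul_ne_zero (mul_ne_zero (by norm_num) (Int.natAbs_ne_zero.2 hn)) hm)
    (by
      intro p _ hp φ
      have hp2 : p ≠ 2 := by
        rintro rfl
        exact hp ((dvd_mul_right _ _).mul_right _)
      have hpn : (n : ZMod p) ≠ 0 := by
        intro h0
        rw [ZMod.intCast_zmod_eq_zero_iff_dvd] at h0
        exact hp (((Int.natCast_dvd.1 h0).mul_left _).mul_right _)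
      have hpm := hm' p φ (fun h0 => hp (h0.mul_left _))
      have hF : ringChar (ZMod p) ≠ 2 := by
        rw [ZMod.ringChar_zmod_n]
        exact hp2
      have h2 := card_chi hF (κ := -1) (Or.inr rfl)
      rw [ZMod.card] at h2
      have h3 : (Finset.univ.filter fun x : ZMod p => quadraticChar (ZMod p) x = -1).card ≤
          (Finset.univ.filter fun s : ZMod p =>
            ¬ IsSquare (((C a1 * (C θ1 - C (n : 𝓞 M) * X) : (𝓞 M)[X]).map φ).eval s)).card := by
        apply Finset.card_le_card_of_injOn (fun y => (φ θ1 - y / φ a1) / n)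
        · intro y hy
          rw [Finset.mem_coe, Finset.mem_filter] at hy ⊢
          refine ⟨Finset.mem_univ _, ?_⟩
          have e1 : (((C a1 * (C θ1 - C (n : 𝓞 M) * X) : (𝓞 M)[X]).map φ).eval
              ((φ θ1 - y / φ a1) / n)) = y := by
            simp only [Polynomial.map_mul, Polynomial.map_sub, map_C, map_X, eval_mul, eval_sub,
              eval_C, eval_X, map_intCast, Polynomial.map_intCast, eval_intCast]
            field_simp
            try ring
          rw [e1]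
          exact not_sq hy.2
        · intro y _ y' _ h0
          have h4 : (φ θ1 - y / φ a1) / n = (φ θ1 - y' / φ a1) / n := h0
          rw [div_left_inj' hpn, sub_right_inj, div_left_inj' hpm] at h4
          exact h4
      omega)
  refine h1.mono ?_
  rintro x ⟨w, hw⟩
  refine ⟨n * w, ?_⟩
  have e2 : algebraMap (𝓞 M) M (algebraMap (𝓞 k) (𝓞 M) (el B x)) =
      algebraMap k M (algebraMap (𝓞 k) k (el B x)) := rfl
  rw [eval_mul, eval_sub, eval_C, eval_C, eval_mul, eval_C, eval_X, map_mul, map_sub,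
    map_mul, e2, e, e', map_intCast]
  linear_combination (n : M) ^ 2 * hw

end nf

end Pool.Agent.Helper23K9.Q5
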