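import Pool.Agent.Helper23K9.Q5.Crit
import Pool.Agent.Helper23K9.Q5.Sie

/-!
Almost all linear twists over number fields.
-/

set_option autoImplicit false
set_option linter.all false

open Polynomial IsDedekindDomain WeierstrassCurve WeierstrassCurve.Affine NumberField
open scoped Classical IntermediateField

namespace Pool.Agent.Helper23K9.Q5

open Pool.Agent.TH115.GD (vInf pl Pt act incl rs ak IsCoc LocTriv Sep Comp IsTower Preserves
  LocallyTrivial act_act vInf_poly)
open Pool.Agent.Helper7K9.T3 (TateAt IsTateClass IsTC IsInv tate_of_part)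
open Pool.Agent.Helper23K9.T5

section fld

variable {k k' : Type} [Field k] [Field k'] [Algebra k k']

/-- The roots of a polynomial are permuted. -/
theorem gal_root (Q : k[X]) (σ : k' ≃ₐ[k] k') {θ : k'} (h : θ ∈ Q.rootSet k') :
    σ θ ∈ Q.rootSet k' := by
  rw [mem_rootSet] at h ⊢
  refine ⟨h.1, ?_⟩
  have h1 : aeval (σ θ) Q = σ (aeval θ Q) := (aeval_algHom_apply (σ : k' →ₐ[k] k') θ Q)
  rw [h1, h.2, map_zero]

theorem gal_adj (Q : k[X]) (σ : k' ≃ₐ[k] k') {a b y : k'} (ha : a ∈ Q.rootSet k')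
    (hb : b ∈ Q.rootSet k') (hy : y ∈ IntermediateField.adjoin k {a, b}) :
    y ∈ IntermediateField.adjoin k (Q.rootSet k') ∧
      σ y ∈ IntermediateField.adjoin k (Q.rootSet k') := by
  constructor
  · refine IntermediateField.adjoin.mono k _ _ ?_ hy
    rintro x (rfl | hx)
    · exact ha
    · rw [Set.mem_singleton_iff.1 hx]; exact hb
  · have h1 : σ y ∈ (IntermediateField.adjoin k {a, b}).map (σ : k' →ₐ[k] k') := ⟨y, hy, rfl⟩
    rw [IntermediateField.adjoin_map] at h1
    refine IntermediateField.adjoin.mono k _ _ ?_ h1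
    rintro x ⟨w, (rfl | hw), rfl⟩
    · exact gal_root Q σ ha
    · rw [Set.mem_singleton_iff.1 hw]; exact gal_root Q σ hb

end fld

section dens

variable {k k' K F : Type} [Field k] [NumberField k] [Field k'] [Algebra k k'] [Field K]
    [Algebra k[X] K] [Field F] [Algebra k'[X] F] [IsFractionRing k'[X] F] [Algebra K F]
    {J : Type} [Fintype J] (B : Module.Basis J ℤ (𝓞 k))

/-- The condition for all constants at once. -/
def AllC (k' K F : Type) [Field k'] [Algebra k k'] [Field K] [Algebra k[X] K] [Field F]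
    [Algebra k'[X] F] [IsFractionRing k'[X] F] [Algebra K F] (β γ : k[X]) (z : k') (t0 : k) : Prop :=
  ∀ c : k, c ≠ 0 → (∀ θ : k, θ ≠ t0 → (bad β γ).eval θ = 0 →
    ∀ y ∈ IntermediateField.adjoin k {z}, y ^ 2 ≠ algebraMap k k' (c * (θ - t0))) →
    Tate0 k' K F β γ c t0

/-- **Almost all linear twists, with all constants.** -/
theorem dens_all (hT : IsTower k k' K F) {β γ : k[X]} (hcop : IsCoprime β γ)
    (hnc : β.natDegree ≠ 0 ∨ γ.natDegree ≠ 0) {z : k'} (hz : IsZ z) :
    Zr {x : J → ℤ | ¬ AllC k' K F β γ z (algebraMap (𝓞 k) k (el B x))} := by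
  haveI := hT.sep
  haveI : IsSepClosed k' := IsSepClosure.sep_closed k
  haveI : IsGalois k k' := inferInstance
  have hbad := bad_ne hcop hnc
  obtain ⟨Q, hQ⟩ : ∃ Q : k[X], Q = bad β γ * (X ^ 4 + X ^ 3 + X ^ 2 + X + 1) := ⟨_, rfl⟩
  have hΦ : (X ^ 4 + X ^ 3 + X ^ 2 + X + 1 : k[X]) ≠ 0 := by
    intro h0
    have := congrArg (fun q : k[X] => q.coeff 0) h0
    simp at this
  have hQ0 : Q ≠ 0 := by
    rw [hQ]
    exact mul_ne_zero hbad hΦ
  have hzr : z ∈ Q.rootSet k' := by
    rw [mem_rootSet]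
    refine ⟨hQ0, ?_⟩
    rw [hQ, map_mul]
    simp only [map_add, map_pow, aeval_X, map_one]
    have : z ^ 4 + z ^ 3 + z ^ 2 + z + 1 = 0 := hz
    rw [this, mul_zero]
  have hbr : ∀ θ : k', aeval θ (bad β γ) = 0 → θ ∈ Q.rootSet k' := by
    intro θ h
    rw [mem_rootSet]
    refine ⟨hQ0, ?_⟩
    rw [hQ, map_mul, h, zero_mul]
  haveI : Finite (Q.rootSet k') := (rootSet_finite Q k').to_subtype
  haveI hfd : FiniteDimensional k (IntermediateField.adjoin k (Q.rootSet k')) :=
    IntermediateField.finiteDimensional_adjoin fun x _ => Algebra.IsIntegral.isIntegral x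
  haveI : NumberField (IntermediateField.adjoin k (Q.rootSet k')) :=
    NumberField.of_module_finite k _
  set M := IntermediateField.adjoin k (Q.rootSet k') with hM
  let R : Finset M := (Q.map (algebraMap k M)).roots.toFinset
  have hR : ∀ (θ : k') (h : θ ∈ Q.rootSet k'),
      (⟨θ, IntermediateField.subset_adjoin k _ h⟩ : M) ∈ R := by
    intro θ h
    rw [Multiset.mem_toFinset, mem_roots ((Polynomial.map_ne_zero_iff (algebraMap k M).injective).2
      hQ0), IsRoot.def, eval_map_algebraMap]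
    apply (algebraMap M k').injective
    rw [← aeval_algebraMap_apply, map_zero]
    exact (mem_rootSet.1 h).2
  have h1 : Zr (⋃ q ∈ R.offDiag, {x : J → ℤ |
      IsSquare ((q.1 - algebraMap k M (algebraMap (𝓞 k) k (el B x))) *
      (q.2 - algebraMap k M (algebraMap (𝓞 k) k (el B x))))}) :=
    Zr.biUnion _ _ fun q hq => zr_pair B (Finset.mem_offDiag.1 hq).2.2
  refine h1.mono ?_
  intro x hx
  rw [Set.mem_setOf_eq, AllC] at hx
  push Not at hx
  obtain ⟨c, hc, hc2, hnT⟩ := hx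
  set t0 := algebraMap (𝓞 k) k (el B x) with ht0
  have h2 : ∃ θ : k', θ ≠ algebraMap k k' t0 ∧ aeval θ (bad β γ) = 0 ∧
      ∃ y ∈ IntermediateField.adjoin k {z, θ},
        y ^ 2 = algebraMap k k' c * (θ - algebraMap k k' t0) := by
    by_contra hcon
    push Not at hcon
    exact hnT (crit hT (by norm_num) (by norm_num) hcop hnc
      (fun π hπ _ => hπ.separable) hc hz hcon)
  obtain ⟨θ, hθt, hθ, y, hy, e⟩ := h2
  have hc' : algebraMap k k' c ≠ 0 := (_root_.map_ne_zero _).2 hc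
  by_cases hθk : θ ∈ Set.range (algebraMap k k')
  · exfalso
    obtain ⟨θ0, rfl⟩ := hθk
    have hle : IntermediateField.adjoin k {z, algebraMap k k' θ0} ≤
        IntermediateField.adjoin k {z} := by
      rw [IntermediateField.adjoin_le_iff]
      rintro w (rfl | hw)
      · exact IntermediateField.mem_adjoin_simple_self k _
      · rw [Set.mem_singleton_iff.1 hw]
        exact algebraMap_mem _ _
    refine hc2 θ0 (fun h => hθt (by rw [h])) ?_ y (hle hy) ?_
    · rw [aeval_algebraMap_apply, map_eq_zero_iff _ (algebraMap k k').injective] at hθ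
      exact hθ
    · rw [e, map_mul, map_sub]
  · have hσ : ∃ σ : k' ≃ₐ[k] k', σ θ ≠ θ := by
      by_contra hcon
      push Not at hcon
      exact hθk ((InfiniteGalois.mem_range_algebraMap_iff_fixed θ).2 hcon)
    obtain ⟨σ, hσ⟩ := hσ
    have hθr := hbr θ hθ
    obtain ⟨y1, y2⟩ := gal_adj Q σ hzr hθr hy
    rw [Set.mem_iUnion₂]
    refine ⟨(⟨θ, IntermediateField.subset_adjoin k _ hθr⟩,
      ⟨σ θ, IntermediateField.subset_adjoin k _ (gal_root Q σ hθr)⟩), ?_, ?_⟩
    · rw [Finset.mem_offDiag]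
      refine ⟨hR _ hθr, hR _ (gal_root Q σ hθr), ?_⟩
      intro h
      exact hσ (congrArg (algebraMap M k') h).symm
    · refine ⟨⟨y, y1⟩ * ⟨σ y, y2⟩ / algebraMap k M c, ?_⟩
      apply (algebraMap M k').injective
      have e3 : algebraMap M k' (algebraMap k M c) = algebraMap k k' c := rfl
      have e4 : algebraMap M k' (algebraMap k M t0) = algebraMap k k' t0 := rfl
      have e5 : (σ y) ^ 2 = algebraMap k k' c * (σ θ - algebraMap k k' t0) := by
        rw [← map_pow, e, map_mul, map_sub, σ.commutes, σ.commutes]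
      simp only [map_mul, map_sub, map_div₀, e3, e4]
      show (θ - algebraMap k k' t0) * (σ θ - algebraMap k k' t0) =
        y * σ y / algebraMap k k' c * (y * σ y / algebraMap k k' c)
      field_simp
      have e6 : y ^ 2 * (σ y) ^ 2 = (algebraMap k k' c * (θ - algebraMap k k' t0)) *
          (algebraMap k k' c * (σ θ - algebraMap k k' t0)) := by rw [e, e5]
      linear_combination -e6

/-- **Almost all linear twists, for a fixed constant.** -/
theorem dens_fixed (hT : IsTower k k' K F) {β γ : k[X]} (hcop : IsCoprime β γ)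
    (hnc : β.natDegree ≠ 0 ∨ γ.natDegree ≠ 0) {c : k} (hc : c ≠ 0) :
    Zr {x : J → ℤ | ¬ Tate0 k' K F β γ c (algebraMap (𝓞 k) k (el B x))} := by
  haveI := hT.sep
  haveI : IsSepClosed k' := IsSepClosure.sep_closed k
  haveI : IsGalois k k' := inferInstance
  haveI : CharZero k' := charZero_of_injective_algebraMap (algebraMap k k').injective
  haveI : IsAlgClosed k' := inferInstance
  obtain ⟨z, hz⟩ : ∃ z : k', IsZ z := by
    obtain ⟨z, hz⟩ := IsAlgClosed.exists_root (X ^ 4 + X ^ 3 + X ^ 2 + X + 1 : k'[X]) (by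
      have : (X ^ 4 + X ^ 3 + X ^ 2 + X + 1 : k'[X]).degree = 4 := by compute_degree!
      rw [this]
      norm_num)
    refine ⟨z, ?_⟩
    show z ^ 4 + z ^ 3 + z ^ 2 + z + 1 = 0
    simpa [IsRoot.def] using hz
  haveI hfd : FiniteDimensional k (IntermediateField.adjoin k {z}) :=
    IntermediateField.finiteDimensional_adjoin fun x _ => Algebra.IsIntegral.isIntegral x
  haveI : NumberField (IntermediateField.adjoin k {z}) :=
    NumberField.of_module_finite k _
  have h1 : Zr (⋃ θ ∈ (bad β γ).roots.toFinset, {x : J → ℤ |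
      IsSquare (algebraMap k (IntermediateField.adjoin k {z}) c *
        (algebraMap k (IntermediateField.adjoin k {z}) θ -
          algebraMap k (IntermediateField.adjoin k {z}) (algebraMap (𝓞 k) k (el B x))))}) :=
    Zr.biUnion _ _ fun θ _ => zr_lin B ((_root_.map_ne_zero _).2 hc)
  refine ((dens_all B hT hcop hnc hz).union h1).mono ?_
  intro x hx
  by_contra hcon
  rw [Set.mem_union, not_or] at hcon
  obtain ⟨h2, h3⟩ := hcon
  rw [Set.mem_setOf_eq, not_not] at h2
  apply hx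
  refine h2 c hc fun θ _ hθ y hy e => ?_
  apply h3
  rw [Set.mem_iUnion₂]
  refine ⟨θ, ?_, ⟨y, hy⟩, ?_⟩
  · rw [Multiset.mem_toFinset, mem_roots (bad_ne hcop hnc)]
    exact hθ
  · apply (algebraMap (IntermediateField.adjoin k {z}) k').injective
    rw [← map_sub, ← map_mul, ← IsScalarTower.algebraMap_apply, ← e, pow_two]
    rfl

/-- Density zero in terms of the integers. -/
theorem Zr.ints {S : Set (𝓞 k)} (h : Zr {x : J → ℤ | el B x ∈ S}) {η : ℝ} (hη : 0 < η) :
    ∃ H0 : ℕ, ∀ H : ℕ, H0 ≤ H →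
      (({t : 𝓞 k | (∀ j, |B.repr t j| ≤ (H : ℤ)) ∧ t ∈ S}.ncard : ℕ) : ℝ) ≤
        η * (2 * H + 1) ^ Fintype.card J := by
  obtain ⟨H0, hH⟩ := h η hη
  refine ⟨H0, fun H hHH => le_trans ?_ (hH H hHH)⟩
  let φ : 𝓞 k → J → ℤ := fun t j => B.repr t j
  have hφ : ∀ t, el B (φ t) = t := fun t => B.sum_repr t
  have hinj : Function.Injective φ := fun s t h => by rw [← hφ s, ← hφ t, h]
  rw [← Set.ncard_image_of_injective _ hinj]
  have hsub : φ '' {t : 𝓞 k | (∀ j, |B.repr t j| ≤ (H : ℤ)) ∧ t ∈ S} ⊆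
      {x : J → ℤ | (∀ i, |x i| ≤ (H : ℤ)) ∧ x ∈ {x : J → ℤ | el B x ∈ S}} := by
    rintro _ ⟨t, ht, rfl⟩
    refine ⟨ht.1, ?_⟩
    rw [Set.mem_setOf_eq, hφ]
    exact ht.2
  exact_mod_cast Set.ncard_le_ncard hsub (boxfin _ H)

theorem dens_all' (hT : IsTower k k' K F) {β γ : k[X]} (hcop : IsCoprime β γ)
    (hnc : β.natDegree ≠ 0 ∨ γ.natDegree ≠ 0) {z : k'} (hz : IsZ z) {η : ℝ} (hη : 0 < η) :
    ∃ H0 : ℕ, ∀ H : ℕ, H0 ≤ H →
      (({t : 𝓞 k | (∀ j, |B.repr t j| ≤ (H : ℤ)) ∧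
        ¬ AllC k' K F β γ z (algebraMap (𝓞 k) k t)}.ncard : ℕ) : ℝ) ≤
        η * (2 * H + 1) ^ Fintype.card J :=
  Zr.ints B (S := {t : 𝓞 k | ¬ AllC k' K F β γ z (algebraMap (𝓞 k) k t)})
    (dens_all B hT hcop hnc hz) hη

theorem dens_fixed' (hT : IsTower k k' K F) {β γ : k[X]} (hcop : IsCoprime β γ)
    (hnc : β.natDegree ≠ 0 ∨ γ.natDegree ≠ 0) {c : k} (hc : c ≠ 0) {η : ℝ} (hη : 0 < η) :
    ∃ H0 : ℕ, ∀ H : ℕ, H0 ≤ H →
      (({t : 𝓞 k | (∀ j, |B.repr t j| ≤ (H : ℤ)) ∧
        ¬ Tate0 k' K F β γ c (algebraMap (𝓞 k) k t)}.ncard : ℕ) : ℝ) ≤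
        η * (2 * H + 1) ^ Fintype.card J :=
  Zr.ints B (S := {t : 𝓞 k | ¬ Tate0 k' K F β γ c (algebraMap (𝓞 k) k t)})
    (dens_fixed B hT hcop hnc hc) hη

end dens

end Pool.Agent.Helper23K9.Q5
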