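import Pool.Agent.Helper23K9.Q5.Tra

/-!
The group of the rational points of the twist is divisible by five.
-/

set_option autoImplicit false
set_option linter.all false

open Polynomial IsDedekindDomain WeierstrassCurve WeierstrassCurve.Affine
open scoped Classical

namespace Pool.Agent.Helper23K9.Q5

open Pool.Agent.TH115.GD (vInf wInf wFin AtInf CompInf pl Pt act incl rs ak IsCoc LocTriv Sep Comp
  IsTower Preserves LocallyTrivial lt_subT act_act act_inj cob_isCoc preserves sepKΩ lift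
  exists_conj cont_rs fixed_point)
open Pool.Agent.Helper7K9.T3 (TateAt IsTateClass tate_of_part)
open Pool.Agent.Helper23K9.T5

/-- The zero cocycle is locally trivial. -/
theorem lt_zero {k' K F : Type} [Field k'] [Field K] [Field F] [Algebra K F] [Algebra k'[X] F]
    [IsFractionRing k'[X] F] (W : WeierstrassCurve K) :
    LocallyTrivial k' W (fun _ : Sep F ≃ₐ[F] Sep F => (0 : Pt W (Sep F))) := by
  refine ⟨fun v => ⟨IsSepClosed.lift, 0, fun τ σ _ => ?_⟩, ⟨IsSepClosed.lift, 0, fun τ σ _ => ?_⟩⟩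
  · rw [map_zero, map_zero, sub_zero]
  · rw [map_zero, map_zero, sub_zero]

section main

variable {k k' K F0 : Type} [Field k] [Field k'] [Algebra k k'] [Field K] [Algebra k[X] K]
    [Field F0] [Algebra k'[X] F0] [IsFractionRing k'[X] F0] [Algebra K F0]

/-- The twist has no points of order five over `k'(t)`. -/
theorem key_tor (hT : IsTower k k' K F0) (h2k : (2 : k) ≠ 0) (h5k : (5 : k) ≠ 0) {z0 : k}
    (hz0 : IsZ z0) {β γ : k[X]} (hp : β ≠ 0 ∧ γ ≠ 0 ∧ β - C (ep z0) * γ ≠ 0 ∧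
      β - C (ep' z0) * γ ≠ 0)
    {b d : K} (eb : b = algebraMap k[X] K β / algebraMap k[X] K γ) (hbp : bpol b ≠ 0)
    {c0 t00 : k} (hc0 : c0 ≠ 0) (ed : d = algebraMap k[X] K (C c0 * (X - C t00)))
    {X : Pt (qtw d (crv5 b)) (Sep F0)}
    (hX : ∀ σ : Sep F0 ≃ₐ[F0] Sep F0, act (qtw d (crv5 b)) (rs K σ) X = X) (h0 : 5 • X = 0) :
    X = 0 := by
  haveI := hT.sep
  haveI := hT.fracK
  haveI : IsSepClosed k' := IsSepClosure.sep_closed k
  have hKF := hT.map
  have h2' : (2 : k') ≠ 0 := by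
    rw [← map_ofNat (algebraMap k k') 2]
    exact (_root_.map_ne_zero _).2 h2k
  have h5' : (5 : k') ≠ 0 := by
    rw [← map_ofNat (algebraMap k k') 5]
    exact (_root_.map_ne_zero _).2 h5k
  obtain ⟨F, i1, i2, i3, i4, i5, i6, hQ⟩ := exists_FS (F0 := F0) (t0 := algebraMap k k' t00)
    ((_root_.map_ne_zero (algebraMap k k')).2 hc0) h2'
  letI : Algebra K F := ((algebraMap F0 F).comp (algebraMap K F0)).toAlgebra
  haveI : IsScalarTower K F0 F := IsScalarTower.of_algebraMap_eq fun _ => rfl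
  haveI : IsScalarTower K F (Sep F0) := IsScalarTower.of_algebraMap_eq fun x => by
    rw [IsScalarTower.algebraMap_apply K F0 (Sep F0), IsScalarTower.algebraMap_apply F0 F (Sep F0)]
    rfl
  obtain ⟨z, ez⟩ : ∃ z : K, z = algebraMap k[X] K (C z0) := ⟨_, rfl⟩
  obtain ⟨h5, hb, hd, hz, eA, eB, c1n, c2n, c3n⟩ := fldG h5k hz0 hp eb ez
  haveI : IsSepClosure K (Sep F0) := sepKΩ hKF
  haveI : Algebra.IsSeparable K (Sep F0) := IsSepClosure.separable
  haveI : IsGalois K (Sep F0) := inferInstance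
  haveI : IsGalois F (Sep F0) := IsGalois.tower_top_of_isGalois F0 F (Sep F0)
  have h := isE5 b (Sep F0) h5 hb hd
  have hE : (crv5 b).Δ ≠ 0 := by
    rw [crv5_disc]
    exact mul_ne_zero (pow_ne_zero 5 hb) hd
  have h2Ω : (2 : Sep F0) ≠ 0 := by
    have : (2 : Sep F0) = algebraMap F0 (Sep F0) (algebraMap k'[X] F0 (C 2)) := by
      rw [map_ofNat, map_ofNat, map_ofNat]
    rw [this, Ne, map_eq_zero_iff _ (algebraMap F0 (Sep F0)).injective]
    intro h
    exact C_ne_zero.2 h2' (IsFractionRing.injective k'[X] F0 (h.trans (map_zero _).symm))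
  set ζ : Sep F0 := algebraMap K (Sep F0) z with hζ
  have hzΩ : IsZ ζ := hz.map _
  have h5Ω : (5 : Sep F0) ≠ 0 := h.five
  obtain ⟨m, hm5⟩ : ∃ m : Sep F0, m ^ 5 = AA ζ (algebraMap K (Sep F0) b) /
      ((5 + 3 * eta ζ) * BB ζ (algebraMap K (Sep F0) b)) := by
    haveI : NeZero ((5 : ℕ) : Sep F0) := ⟨by exact_mod_cast h5Ω⟩
    exact IsSepClosed.exists_pow_nat_eq _ 5
  have hB0 := BB_ne h hzΩ
  have c3Ω : 5 + 3 * eta ζ ≠ 0 := by
    intro h0
    have h1 := hzΩ.eta_sq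
    have h2 : (5 + 3 * eta ζ) * (1 - eta ζ) ^ 2 = 1 := by
      linear_combination (3 * eta ζ - 4) * h1
    rw [h0, zero_mul] at h2
    exact zero_ne_one h2
  have hm : AA ζ (algebraMap K (Sep F0) b) = (5 + 3 * eta ζ) * m ^ 5 *
      BB ζ (algebraMap K (Sep F0) b) := by
    rw [hm5]; field_simp
  obtain ⟨T, hTT⟩ := exists_T h hzΩ hm
  have hT5 := hTT.five h hzΩ hm
  have hTn := hTT.nm
  have hbp' : bpol (algebraMap K (Sep F0) b) ≠ 0 := by
    have h2 : bpol (algebraMap K (Sep F0) b) = algebraMap K (Sep F0) (bpol b) := by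
      simp only [bpol, map_add, map_sub, map_mul, map_pow, map_ofNat, map_one, map_neg]
    rw [h2]
    exact (_root_.map_ne_zero _).2 hbp
  have hsurj : ∀ S : Pt (crv5 b) (Sep F0), 5 • S = 0 → ∃ i a, S = cb h T i a :=
    fun S hS => cb_surj h hT5 hTn hbp' hS
  obtain ⟨ξ, hξ⟩ : ∃ ξ : (Sep F0 →ₐ[K] Sep F0) → ZMod 5, ∀ φ,
      act (crv5 b) φ T = cb h T (ξ φ) 1 :=
    ⟨fun φ => (T_gal h5 hb hd hz hTT hm φ).choose, fun φ =>
      (T_gal h5 hb hd hz hTT hm φ).choose_spec.1⟩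
  have hr : (algebraMap F (Sep F0) (sF k' F)) ^ 2 = algebraMap K (Sep F0) d := by
    rw [← map_pow, hQ.sqK hKF rfl rfl, ← IsScalarTower.algebraMap_apply K F (Sep F0), ed]
  have hr0 : algebraMap F (Sep F0) (sF k' F) ≠ 0 := (_root_.map_ne_zero _).2 sF_ne
  exact no_tor h5 hb hd hT5 hTn hsurj hξ hE h2Ω hr hr0 (hQ.exists_neg (Ω := Sep F0)) 1 X hX
    (by rw [pow_one]; exact h0)

end main

section tran

variable {k k1 k' K F : Type} [Field k] [Field k1] [Field k'] [Algebra k k1]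
    [Algebra k1 k'] [Algebra k k'] [IsScalarTower k k1 k'] [Field K] [Algebra k[X] K]
    [Field F] [Algebra k'[X] F] [IsFractionRing k'[X] F] [Algebra K F]

/-- Every rational point of the twist is divisible by five, and there are no rational points of
order five. -/
theorem div_tw (hT : IsTower k k' K F) (h2k : (2 : k) ≠ 0) (h5k : (5 : k) ≠ 0) {z0 : k1}
    (hz0 : IsZ z0) {β γ : k[X]} {β1 γ1 : k1[X]} (hβ1 : β1 = β.map (algebraMap k k1))
    (hγ1 : γ1 = γ.map (algebraMap k k1))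
    (hp : β1 ≠ 0 ∧ γ1 ≠ 0 ∧ β1 - C (ep z0) * γ1 ≠ 0 ∧ β1 - C (ep' z0) * γ1 ≠ 0)
    (hs1 : ∀ π : k1[X], Irreducible π → π ∣ β1 * γ1 → π.Separable)
    (hs2 : ∀ π : k1[X], Irreducible π → π ∣ (β1 - C (ep z0) * γ1) * (β1 - C (ep' z0) * γ1) →
      π.Separable)
    {b d : K} (eb : b = algebraMap k[X] K β / algebraMap k[X] K γ) (hbp : bpol b ≠ 0)
    {c0 t00 : k} (hc0 : c0 ≠ 0) (ed : d = algebraMap k[X] K (C c0 * (X - C t00)))
    (hb1 : ∀ ρ : k', ρ ≠ 0 → ((β1 * γ1).map (algebraMap k1 k')).eval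
      ((algebraMap k k' c0)⁻¹ * ρ ^ 2 + algebraMap k k' t00) = 0 → ∃ s0 : k' ≃ₐ[k1] k', s0 ρ = -ρ)
    (hb2 : ∀ ρ : k', ρ ≠ 0 → (((β1 - C (ep z0) * γ1) * (β1 - C (ep' z0) * γ1)).map
      (algebraMap k1 k')).eval ((algebraMap k k' c0)⁻¹ * ρ ^ 2 + algebraMap k k' t00) = 0 →
      ∃ s0 : k' ≃ₐ[k1] k', s0 ρ = -ρ) (P : Pt (qtw d (crv5 b)) K) :
    ∃! Q : Pt (qtw d (crv5 b)) K, 5 • Q = P := by
  haveI := hT.sep
  haveI : IsFractionRing k[X] K := hT.fracK
  haveI : IsSepClosure K (Sep F) := sepKΩ hT.map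
  haveI : Algebra.IsSeparable K (Sep F) := IsSepClosure.separable
  haveI : IsGalois K (Sep F) := inferInstance
  have hpres : Preserves K F (Sep F) := preserves hT.map
  obtain ⟨K1, iK1, iX1, iKK1, iK1F, tow, hT1, hpol⟩ := exists_mid (k1 := k1) hT
  haveI := hT1.fracK
  haveI := hT1.sep
  have h51 : (5 : k1) ≠ 0 := by
    have h1 : (5 : k1) = algebraMap k k1 5 := (map_ofNat _ _).symm
    rw [h1]
    exact (_root_.map_ne_zero _).2 h5k
  have h21 : (2 : k1) ≠ 0 := by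
    have h1 : (2 : k1) = algebraMap k k1 2 := (map_ofNat _ _).symm
    rw [h1]
    exact (_root_.map_ne_zero _).2 h2k
  have eb1 : algebraMap K K1 b = algebraMap k1[X] K1 β1 / algebraMap k1[X] K1 γ1 := by
    rw [eb, map_div₀, hpol, hpol, hβ1, hγ1]
  have ed1 : algebraMap K K1 d = algebraMap k1[X] K1 (C (algebraMap k k1 c0) *
      (X - C (algebraMap k k1 t00))) := by
    rw [ed, hpol, Polynomial.map_mul, Polynomial.map_sub, map_C, map_C, map_X]
  have hW : qtw (algebraMap K K1 d) (crv5 (algebraMap K K1 b)) =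
      (qtw d (crv5 b)).map (algebraMap K K1) := by
    rw [crv5_map, qtw_map]
  obtain ⟨h5K1, hb1', hd1, hz1, -⟩ := fldG h51 hz0 hp eb1 rfl
  have hbp1 : bpol (algebraMap K K1 b) ≠ 0 := by
    have h2 : bpol (algebraMap K K1 b) = algebraMap K K1 (bpol b) := by
      simp only [bpol, map_add, map_sub, map_mul, map_pow, map_ofNat, map_one, map_neg]
    rw [h2]
    exact (_root_.map_ne_zero _).2 hbp
  have hcc : algebraMap k1 k' (algebraMap k k1 c0) = algebraMap k k' c0 :=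
    (IsScalarTower.algebraMap_apply k k1 k' c0).symm
  have htt : algebraMap k1 k' (algebraMap k k1 t00) = algebraMap k k' t00 :=
    (IsScalarTower.algebraMap_apply k k1 k' t00).symm
  have h := isE5 (algebraMap K K1 b) (Sep F) h5K1 hb1' hd1
  have hd0 : algebraMap K K1 d ≠ 0 := by
    rw [ed1, Ne, map_eq_zero_iff _ (IsFractionRing.injective k1[X] K1)]
    exact mul_ne_zero (C_ne_zero.2 ((_root_.map_ne_zero _).2 hc0)) (X_sub_C_ne_zero _)
  have hE : (crv5 (algebraMap K K1 b)).Δ ≠ 0 := by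
    rw [crv5_disc]
    exact mul_ne_zero (pow_ne_zero 5 hb1') hd1
  have h2Ω : (2 : Sep F) ≠ 0 := by
    have h2K : (2 : K1) ≠ 0 := by
      have : (2 : K1) = algebraMap k1[X] K1 (C 2) := by rw [map_ofNat, map_ofNat]
      rw [this, Ne, map_eq_zero_iff _ (IsFractionRing.injective k1[X] K1)]
      exact C_ne_zero.2 h21
    have : (2 : Sep F) = algebraMap K1 (Sep F) 2 := (map_ofNat _ _).symm
    rw [this]
    exact (_root_.map_ne_zero _).2 h2K
  haveI : NeZero ((2 : ℕ) : Sep F) := ⟨by exact_mod_cast h2Ω⟩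
  obtain ⟨r, hr⟩ := IsSepClosed.exists_pow_nat_eq (algebraMap K1 (Sep F) (algebraMap K K1 d)) 2
  have hr0 : r ≠ 0 := by
    rintro rfl
    rw [zero_pow (by norm_num)] at hr
    exact (_root_.map_ne_zero _).2 hd0 hr.symm
  -- there is no torsion
  have hrs : ∀ (σ : Sep F ≃ₐ[F] Sep F) (Y : Pt (qtw d (crv5 b)) (Sep F)),
      chg hW (Sep F) (act (qtw d (crv5 b)) (rs K σ) Y) =
        act (qtw (algebraMap K K1 d) (crv5 (algebraMap K K1 b))) (rs K1 σ) (chg hW (Sep F) Y) :=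
    fun σ Y => chg_act' hW (rs K1 σ) (rs K σ) (fun _ => rfl) Y
  have htor : ∀ Y : Pt (qtw d (crv5 b)) (Sep F),
      (∀ σ : Sep F ≃ₐ[F] Sep F, act (qtw d (crv5 b)) (rs K σ) Y = Y) → 5 • Y = 0 → Y = 0 := by
    intro Y hY h0
    have h1 := key_tor hT1 h21 h51 hz0 hp eb1 hbp1 ((_root_.map_ne_zero (algebraMap k k1)).2 hc0)
      ed1 (X := chg hW (Sep F) Y) (fun σ => by rw [← hrs, hY]) (by rw [← map_nsmul, h0, map_zero])
    exact (chg hW (Sep F)).injective (h1.trans (map_zero _).symm)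
  -- a fifth part
  obtain ⟨R, hR⟩ : ∃ R : Pt (qtw (algebraMap K K1 d) (crv5 (algebraMap K K1 b))) (Sep F),
      5 • R = chg hW (Sep F) (act (qtw d (crv5 b)) (incl K K (Sep F)) P) := by
    obtain ⟨Y, hY⟩ := five_div h ((tw hE h2Ω hr hr0).symm
      (chg hW (Sep F) (act (qtw d (crv5 b)) (incl K K (Sep F)) P)))
    exact ⟨tw hE h2Ω hr hr0 Y, by rw [← map_nsmul, hY, AddEquiv.apply_symm_apply]⟩
  have hR1 : 5 • R = act (qtw (algebraMap K K1 d) (crv5 (algebraMap K K1 b))) (incl K1 K1 (Sep F))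
      (chg hW K1 (act (qtw d (crv5 b)) (incl K K K1) P)) := by
    have h1 : ((incl K1 K1 (Sep F)).restrictScalars K).comp (incl K K K1) = incl K K (Sep F) :=
      AlgHom.ext fun x => (IsScalarTower.algebraMap_apply K K1 (Sep F) x).symm
    rw [← chg_act, act_act, h1, hR]
  obtain ⟨H, hH, hcH⟩ := key_tw hT1 h21 h51 hz0 hp hs1 hs2 eb1 hbp1
    ((_root_.map_ne_zero (algebraMap k k1)).2 hc0) ed1 (by rw [hcc, htt]; exact hb1)
    (by rw [hcc, htt]; exact hb2) (Slm.ofPt (lt_zero _) (fun _ => rfl) hR1)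
  obtain ⟨Y, hY⟩ : ∃ Y, Y = (chg hW (Sep F)).symm (R - H) := ⟨_, rfl⟩
  have hYc : chg hW (Sep F) Y = R - H := by rw [hY, AddEquiv.apply_symm_apply]
  have hY5 : 5 • Y = act (qtw d (crv5 b)) (incl K K (Sep F)) P := by
    apply (chg hW (Sep F)).injective
    rw [map_nsmul, hYc, smul_sub, hH, sub_zero, hR]
  have hYF : ∀ σ : Sep F ≃ₐ[F] Sep F, act (qtw d (crv5 b)) (rs K σ) Y = Y := by
    intro σ
    apply (chg hW (Sep F)).injective
    rw [hrs, hYc, map_sub]
    have h1 := hcH σ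
    rw [sub_eq_sub_iff_sub_eq_sub] at h1
    exact h1
  have hYK : ∀ τ : Sep F ≃ₐ[K] Sep F, act (qtw d (crv5 b)) (ak τ) Y = Y := by
    intro τ
    rw [← sub_eq_zero]
    apply htor
    · intro σ
      obtain ⟨σ', hσ'⟩ := exists_conj hpres τ σ
      have h1 : (ak τ).comp (rs K σ') = (rs K σ).comp (ak τ) := AlgHom.ext fun x => hσ' x
      rw [map_sub, hYF, act_act, ← h1, ← act_act, hYF]
    · have h1 : (ak τ).comp (incl K K (Sep F)) = incl K K (Sep F) :=
        AlgHom.ext fun x => τ.commutes x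
      rw [smul_sub, ← map_nsmul, hY5, act_act, h1, sub_self]
  obtain ⟨Q, hQ⟩ := fixed_point (K := K) (F := K) (Ω := Sep F) (qtw d (crv5 b)) Y fun τ => hYK τ
  refine ⟨Q, ?_, fun Q' hQ' => ?_⟩
  · apply act_inj (qtw d (crv5 b)) (incl K K (Sep F))
    rw [map_nsmul, hQ, hY5]
  · apply act_inj (qtw d (crv5 b)) (incl K K (Sep F))
    rw [hQ, ← sub_eq_zero]
    apply htor
    · intro σ
      have h1 : (rs K σ).comp (incl K K (Sep F)) = incl K K (Sep F) :=
        AlgHom.ext fun x => (rs K σ).commutes x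
      rw [map_sub, hYF, act_act, h1]
    · have hQ'' : 5 • Q' = P := hQ'
      rw [smul_sub, ← map_nsmul, hQ'', hY5, sub_self]

end tran

end Pool.Agent.Helper23K9.Q5
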