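import Pool.Agent.Helper23K9.Q5.Sqrt

/-!
Embeddings of `k'(s)` in the completions of `k'(t)`.
-/

set_option autoImplicit false
set_option linter.all false

open Polynomial IsDedekindDomain
open scoped Classical

namespace Pool.Agent.Helper23K9.Q5

open Pool.Agent.TH115.GD (pl cm cm_mem cm_val wv wv_coe sqrt_one Comp)

section emb

variable {k' F0 F : Type} [Field k'] [Field F0] [Algebra k'[X] F0] [IsFractionRing k'[X] F0]
  [Field F] [Algebra k'[X] F] [IsFractionRing k'[X] F] [Algebra F0 F] {c t0 : k'}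
  (hQ : IsQ k' F0 F c t0)

include hQ

/-- A square root of `c (t - t0)` in an extension `L` of `F0` gives an embedding of `F`. -/
theorem exists_emb {L : Type} [Field L] [Algebra F0 L] {r : L}
    (hr : r ^ 2 = algebraMap F0 L (algebraMap k'[X] F0 (C c * (X - C t0)))) :
    ∃ j : F →+* L, j (sF k' F) = r ∧ ∀ x : F0, j (algebraMap F0 F x) = algebraMap F0 L x := by
  let i : k' →+* L := ((algebraMap F0 L).comp (algebraMap k'[X] F0)).comp C
  letI : Algebra k' L := i.toAlgebra
  have hi : ∀ a : k', algebraMap k' L a = algebraMap F0 L (algebraMap k'[X] F0 (C a)) := fun a => rfl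
  let a : k'[X] →+* L := (aeval r : k'[X] →ₐ[k'] L).toRingHom
  have haC : ∀ x : k', a (C x) = algebraMap F0 L (algebraMap k'[X] F0 (C x)) := by
    intro x
    show aeval r (C x) = _
    rw [aeval_C]
    rfl
  have haX : a X = r := aeval_X r
  -- on polynomials in `t`
  have key : a.comp (compRingHom (C c⁻¹ * X ^ 2 + C t0)) =
      (algebraMap F0 L).comp (algebraMap k'[X] F0) := by
    apply Polynomial.ringHom_ext
    · intro x
      show a ((C x).comp _) = _
      rw [C_comp, haC]
      rfl
    · show a (X.comp _) = algebraMap F0 L (algebraMap k'[X] F0 X)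
      rw [X_comp, map_add, map_mul, map_pow, haC, haC, haX, hr, ← map_mul, ← map_mul, ← map_add,
        ← map_add, ← mul_assoc, ← C_mul, inv_mul_cancel₀ hQ.c0, C_1, one_mul, sub_add_cancel]
  have key' : ∀ p : k'[X], a (p.comp (C c⁻¹ * X ^ 2 + C t0)) =
      algebraMap F0 L (algebraMap k'[X] F0 p) := fun p => RingHom.congr_fun key p
  have hinj : Function.Injective a := by
    have h1 : ¬ IsAlgebraic k' r := by
      intro h
      have h2 : IsAlgebraic k' (algebraMap F0 L (algebraMap k'[X] F0 X)) := by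
        have e : algebraMap F0 L (algebraMap k'[X] F0 X) = algebraMap k' L c⁻¹ * r ^ 2 +
            algebraMap k' L t0 := by
          rw [hr, hi, hi, ← map_mul, ← map_mul, ← map_add, ← map_add, ← mul_assoc, ← C_mul,
            inv_mul_cancel₀ hQ.c0, C_1, one_mul, sub_add_cancel]
        rw [e]
        exact (((isAlgebraic_algebraMap _).mul (h.pow 2))).add (isAlgebraic_algebraMap _)
      obtain ⟨p, hp, hp0⟩ := h2
      apply hp
      have e2 : aeval (algebraMap F0 L (algebraMap k'[X] F0 X)) p =
          algebraMap F0 L (algebraMap k'[X] F0 p) := by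
        have : (aeval (algebraMap F0 L (algebraMap k'[X] F0 X)) : k'[X] →ₐ[k'] L).toRingHom =
            (algebraMap F0 L).comp (algebraMap k'[X] F0) := by
          apply Polynomial.ringHom_ext
          · intro x
            show aeval _ (C x) = _
            rw [aeval_C]
            rfl
          · exact aeval_X _
        exact RingHom.congr_fun this p
      rw [e2, map_eq_zero_iff _ (algebraMap F0 L).injective] at hp0
      exact IsFractionRing.injective k'[X] F0 (hp0.trans (map_zero _).symm)
    rw [injective_iff_map_eq_zero]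
    intro p hp
    by_contra hp0
    exact h1 ⟨p, hp0, hp⟩
  refine ⟨IsFractionRing.lift hinj, ?_, ?_⟩
  · rw [sF, IsFractionRing.lift_algebraMap, haX]
  · intro x
    have h3 : (IsFractionRing.lift hinj : F →+* L).comp (algebraMap F0 F) = algebraMap F0 L := by
      refine IsLocalization.ringHom_ext (nonZeroDivisors k'[X]) ?_
      refine RingHom.ext fun p => ?_
      show IsFractionRing.lift hinj (algebraMap F0 F (algebraMap k'[X] F0 p)) = _
      rw [hQ.map, IsFractionRing.lift_algebraMap, key']
      rfl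
    exact RingHom.congr_fun h3 x

/-- Two ring homomorphisms of `F` which agree on `F0` and at `s`. -/
theorem hom_ext {L : Type} [Field L] {f g : F →+* L} (h0 : ∀ x : F0, f (algebraMap F0 F x) =
    g (algebraMap F0 F x)) (hs : f (sF k' F) = g (sF k' F)) : f = g := by
  refine IsLocalization.ringHom_ext (nonZeroDivisors k'[X]) ?_
  apply Polynomial.ringHom_ext
  · intro x
    show f (algebraMap k'[X] F (C x)) = g (algebraMap k'[X] F (C x))
    rw [← hQ.cst, h0]
  · exact hs

variable {Ω : Type} [Field Ω] [Algebra F0 Ω] [Algebra F Ω] [IsScalarTower F0 F Ω]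

/-- The embedding in the completion which is compatible with a given embedding `ι` of `Ω`. -/
theorem exists_place [IsSepClosed k'] (h2 : (2 : k') ≠ 0) (v : HeightOneSpectrum k'[X])
    (hv : C c * (X - C t0) ∉ v.asIdeal) {Ω' : Type} [Field Ω'] [Algebra (Comp k'[X] F0 v) Ω']
    [Algebra F0 Ω'] [IsScalarTower F0 (Comp k'[X] F0 v) Ω'] (ι : Ω →ₐ[F0] Ω') :
    ∃ j : F →+* Comp k'[X] F0 v, (∀ x : F0, j (algebraMap F0 F x) = algebraMap F0 _ x) ∧
      ∀ x : F, ι (algebraMap F Ω x) = algebraMap (Comp k'[X] F0 v) Ω' (j x) := by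
  obtain ⟨r, hr⟩ := sq_comp (F0 := F0) h2 v hv
  have h1 : (ι (algebraMap F Ω (sF k' F))) ^ 2 = (algebraMap (Comp k'[X] F0 v) Ω' r) ^ 2 := by
    rw [← map_pow, ← map_pow, ← map_pow, hr, hQ.sq, ← IsScalarTower.algebraMap_apply F0 F Ω,
      ι.commutes, ← IsScalarTower.algebraMap_apply F0 (Comp k'[X] F0 v) Ω']
  obtain ⟨r', hr', e⟩ : ∃ r' : Comp k'[X] F0 v, r' ^ 2 =
      algebraMap F0 (Comp k'[X] F0 v) (algebraMap k'[X] F0 (C c * (X - C t0))) ∧
      ι (algebraMap F Ω (sF k' F)) = algebraMap (Comp k'[X] F0 v) Ω' r' := by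
    rcases sq_eq_sq_iff_eq_or_eq_neg.1 h1 with h | h
    · exact ⟨r, hr, h⟩
    · exact ⟨-r, by rw [neg_sq, hr], by rw [h, map_neg]⟩
  obtain ⟨j, j1, j2⟩ := exists_emb hQ hr'
  refine ⟨j, j2, fun x => ?_⟩
  have h3 : (ι : Ω →+* Ω').comp (algebraMap F Ω) = (algebraMap (Comp k'[X] F0 v) Ω').comp j := by
    refine hom_ext hQ (fun x => ?_) ?_
    · show ι (algebraMap F Ω (algebraMap F0 F x)) = algebraMap _ Ω' (j (algebraMap F0 F x))
      rw [j2, ← IsScalarTower.algebraMap_apply F0 F Ω, ι.commutes,
        ← IsScalarTower.algebraMap_apply F0 (Comp k'[X] F0 v) Ω']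
    · show ι (algebraMap F Ω (sF k' F)) = algebraMap _ Ω' (j (sF k' F))
      rw [j1, e]
  exact RingHom.congr_fun h3 x

end emb

end Pool.Agent.Helper23K9.Q5
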