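import Pool.Agent.TH115.GD.Ext
import Pool.Agent.TH115.GD.Place
import Pool.Agent.TH115.GD.Global
import Pool.Agent.TH115.TC.Quad

/-!
The quadratic extension `F = k'(s)` of `F0 = k'(t)`, `s ^ 2 = c (t - t0)`.
-/

set_option autoImplicit false
set_option linter.all false

open Polynomial IsDedekindDomain
open scoped Classical

namespace Pool.Agent.Helper23K9.Q5

open Pool.Agent.TH115.GD (pl cm cm_mem cm_val Preserves restr lift preserves val_poly mem_pl)

/-- `F = k'(s)` over `F0 = k'(t)`, `t = s ^ 2 / c + t0`. -/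
structure IsQ (k' F0 F : Type) [Field k'] [Field F0] [Algebra k'[X] F0] [Field F] [Algebra k'[X] F]
    [Algebra F0 F] (c t0 : k') : Prop where
  c0 : c ≠ 0
  map : ∀ p : k'[X], algebraMap F0 F (algebraMap k'[X] F0 p) =
    algebraMap k'[X] F (p.comp (C c⁻¹ * X ^ 2 + C t0))

/-- The element `s`. -/
noncomputable def sF (k' F : Type) [Field k'] [Field F] [Algebra k'[X] F] : F := algebraMap k'[X] F X

theorem sF_ne {k' F : Type} [Field k'] [Field F] [Algebra k'[X] F] [IsFractionRing k'[X] F] :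
    sF k' F ≠ 0 := by
  unfold sF
  simp

section fe

variable {k' F0 F : Type} [Field k'] [Field F0] [Algebra k'[X] F0] [IsFractionRing k'[X] F0]
  [Field F] [Algebra k'[X] F] [IsFractionRing k'[X] F] [Algebra F0 F] {c t0 : k'}
  (hQ : IsQ k' F0 F c t0)

include hQ

theorem IsQ.sq : sF k' F ^ 2 = algebraMap F0 F (algebraMap k'[X] F0 (C c * (X - C t0))) := by
  rw [hQ.map, sF, ← map_pow]
  congr 1
  rw [mul_comp, C_comp, sub_comp, X_comp, C_comp, add_sub_cancel_right, ← mul_assoc, ← C_mul,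
    mul_inv_cancel₀ hQ.c0, C_1, one_mul]

theorem IsQ.cst (a : k') : algebraMap F0 F (algebraMap k'[X] F0 (C a)) =
    algebraMap k'[X] F (C a) := by
  rw [hQ.map, C_comp]

/-- `s` is not in `F0`. -/
theorem IsQ.not_mem (x : F0) : algebraMap F0 F x ≠ sF k' F := by
  intro h
  have h1 := hQ.sq
  rw [← h, ← map_pow] at h1
  have h2 := (algebraMap F0 F).injective h1
  have h3 : (C c * (X - C t0) : k'[X]) ≠ 0 := mul_ne_zero (C_ne_zero.2 hQ.c0) (X_sub_C_ne_zero t0)
  have h4 := val_poly (F := F0) t0 h3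
  have h5 : rootMultiplicity t0 (C c * (X - C t0) : k'[X]) = 1 := by
    rw [rootMultiplicity_mul h3, rootMultiplicity_C, zero_add, rootMultiplicity_X_sub_C_self]
  rw [← h2, h5, map_pow] at h4
  have hx : (pl t0).valuation F0 x ≠ 0 := by
    intro h0
    rw [h0, zero_pow (by norm_num)] at h4
    exact WithZero.exp_ne_zero h4.symm
  have h6 := congrArg WithZero.log h4
  rw [WithZero.log_pow, WithZero.log_exp] at h6
  rw [nsmul_eq_mul] at h6
  push_cast at h6
  omega

variable {k K Ω : Type} [Field k] [Algebra k k'] [IsSepClosure k k'] [Field K] [Algebra k[X] K]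
  [IsFractionRing k[X] K] [Algebra K F0] [Algebra K F] [IsScalarTower K F0 F]
  [Field Ω] [Algebra F0 Ω] [Algebra F Ω] [Algebra K Ω] [IsScalarTower F0 F Ω]
  [IsScalarTower K F0 Ω] [IsScalarTower K F Ω] [IsSepClosure F0 Ω]
  (hKF : ∀ p : k[X], algebraMap K F0 (algebraMap k[X] K p) =
    algebraMap k'[X] F0 (p.map (algebraMap k k')))

include hKF in
/-- The square of `s`, as an element of `K`. -/
theorem IsQ.sqK {c0 t00 : k} (hc : c = algebraMap k k' c0) (ht : t0 = algebraMap k k' t00) :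
    sF k' F ^ 2 = algebraMap K F (algebraMap k[X] K (C c0 * (X - C t00))) := by
  rw [hQ.sq, IsScalarTower.algebraMap_apply K F0 F, hKF, Polynomial.map_mul, Polynomial.map_sub,
    map_C, map_C, map_X, hc, ht]

include hKF in
theorem IsQ.pm {c0 t00 : k} (hc : c = algebraMap k k' c0) (ht : t0 = algebraMap k k' t00)
    (τ : Ω →ₐ[K] Ω) : τ (algebraMap F Ω (sF k' F)) = algebraMap F Ω (sF k' F) ∨
      τ (algebraMap F Ω (sF k' F)) = -algebraMap F Ω (sF k' F) := by
  have h1 : (τ (algebraMap F Ω (sF k' F))) ^ 2 = (algebraMap F Ω (sF k' F)) ^ 2 := by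
    rw [← map_pow, ← map_pow, hQ.sqK hKF hc ht, ← IsScalarTower.algebraMap_apply K F Ω, τ.commutes]
  exact sq_eq_sq_iff_eq_or_eq_neg.1 h1

end fe

/-- The automorphism `p ↦ p(-X)`. -/
noncomputable def ng (k' : Type) [Field k'] : k'[X] ≃+* k'[X] := (algEquivAevalNegX : k'[X] ≃ₐ[k'] k'[X]).toRingEquiv

theorem ng_apply {k' : Type} [Field k'] (p : k'[X]) : ng k' p = p.comp (-X) := by
  show algEquivAevalNegX p = _
  rw [algEquivAevalNegX, algEquivOfCompEqX_apply, comp_eq_aeval]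

/-- The automorphisms of `k'[s]` given by an automorphism of `k'` and a sign. -/
noncomputable def eG {k k' : Type} [Field k] [Field k'] [Algebra k k'] (s0 : k' ≃ₐ[k] k')
    (b : Bool) : k'[X] ≃+* k'[X] :=
  (Polynomial.mapEquiv (s0 : k' ≃+* k')).trans (if b then ng k' else RingEquiv.refl _)

theorem eG_false {k k' : Type} [Field k] [Field k'] [Algebra k k'] (s0 : k' ≃ₐ[k] k') (p : k'[X]) :
    eG s0 false p = p.map (s0 : k' →+* k') := rfl

theorem eG_true {k k' : Type} [Field k] [Field k'] [Algebra k k'] (s0 : k' ≃ₐ[k] k') (p : k'[X]) :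
    eG s0 true p = (p.map (s0 : k' →+* k')).comp (-X) := ng_apply _

section gal

variable {k' F0 F : Type} [Field k'] [Field F0] [Algebra k'[X] F0] [IsFractionRing k'[X] F0]
  [Field F] [Algebra k'[X] F] [IsFractionRing k'[X] F] [Algebra F0 F] {c t0 : k'}
  (hQ : IsQ k' F0 F c t0)
  {k K Ω : Type} [Field k] [Algebra k k'] [IsSepClosure k k'] [Field K] [Algebra k[X] K]
  [IsFractionRing k[X] K] [Algebra K F0] [Algebra K F] [IsScalarTower K F0 F]
  [Field Ω] [Algebra F0 Ω] [Algebra F Ω] [Algebra K Ω] [IsScalarTower F0 F Ω]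
  [IsScalarTower K F0 Ω] [IsScalarTower K F Ω] [IsSepClosure F0 Ω]
  (hKF : ∀ p : k[X], algebraMap K F0 (algebraMap k[X] K p) =
    algebraMap k'[X] F0 (p.map (algebraMap k k')))

include hQ in
/-- The action of an automorphism on `k'[s]`. -/
theorem IsQ.act {s0 : k' ≃ₐ[k] k'} {τ : Ω ≃ₐ[K] Ω} (hs : ∀ p : k'[X],
    τ (algebraMap F0 Ω (algebraMap k'[X] F0 p)) =
      algebraMap F0 Ω (algebraMap k'[X] F0 (p.map (s0 : k' →+* k')))) {b : Bool}
    (hb : τ (algebraMap F Ω (sF k' F)) = if b then -algebraMap F Ω (sF k' F) else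
      algebraMap F Ω (sF k' F)) (p : k'[X]) :
    τ (algebraMap F Ω (algebraMap k'[X] F p)) = algebraMap F Ω (algebraMap k'[X] F (eG s0 b p)) := by
  have key : (τ : Ω →+* Ω).comp ((algebraMap F Ω).comp (algebraMap k'[X] F)) =
      ((algebraMap F Ω).comp (algebraMap k'[X] F)).comp (eG s0 b : k'[X] →+* k'[X]) := by
    apply Polynomial.ringHom_ext
    · intro a
      show τ (algebraMap F Ω (algebraMap k'[X] F (C a))) =
        algebraMap F Ω (algebraMap k'[X] F (eG s0 b (C a)))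
      have h1 : eG s0 b (C a) = C (s0 a) := by
        cases b
        · rw [eG_false, map_C]; rfl
        · rw [eG_true, map_C, C_comp]; rfl
      rw [h1, ← hQ.cst, ← hQ.cst, ← IsScalarTower.algebraMap_apply F0 F Ω,
        ← IsScalarTower.algebraMap_apply F0 F Ω, hs, map_C]
      rfl
    · show τ (algebraMap F Ω (algebraMap k'[X] F X)) =
        algebraMap F Ω (algebraMap k'[X] F (eG s0 b X))
      cases b
      · rw [eG_false, map_X]
        exact hb
      · rw [eG_true, map_X, X_comp, map_neg, map_neg]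
        exact hb
  exact RingHom.congr_fun key p

include hQ hKF in
/-- Every automorphism over `K` acts on `k'[s]`. -/
theorem IsQ.restr {c0 t00 : k} (hc : c = algebraMap k k' c0) (ht : t0 = algebraMap k k' t00)
    (τ : Ω ≃ₐ[K] Ω) : ∃ (s0 : k' ≃ₐ[k] k') (b : Bool),
      (τ (algebraMap F Ω (sF k' F)) = if b then -algebraMap F Ω (sF k' F) else
        algebraMap F Ω (sF k' F)) ∧ ∀ p : k'[X],
      τ (algebraMap F Ω (algebraMap k'[X] F p)) = algebraMap F Ω (algebraMap k'[X] F (eG s0 b p)) := by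
  obtain ⟨s0, hs⟩ := Pool.Agent.TH115.GD.restr (F := F0) (Ω := Ω) hKF τ
  rcases hQ.pm (Ω := Ω) hKF hc ht (τ : Ω →ₐ[K] Ω) with h | h
  · exact ⟨s0, false, h, hQ.act hs h⟩
  · exact ⟨s0, true, h, hQ.act hs h⟩

include hQ hKF in
theorem IsQ.pres {c0 t00 : k} (hc : c = algebraMap k k' c0) (ht : t0 = algebraMap k k' t00) :
    Preserves K F Ω := by
  intro τ x
  obtain ⟨s0, b, -, hs⟩ := hQ.restr hKF hc ht τ
  obtain ⟨n, d, hd, rfl⟩ := IsFractionRing.div_surjective (A := k'[X]) x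
  refine ⟨algebraMap k'[X] F (eG s0 b n) / algebraMap k'[X] F (eG s0 b d), ?_⟩
  rw [map_div₀, map_div₀, hs, hs, map_div₀]

include hQ in
/-- There is an automorphism over `F0` with `s ↦ -s`. -/
theorem IsQ.exists_neg [IsGalois F0 Ω] : ∃ τ : Ω ≃ₐ[F0] Ω,
    τ (algebraMap F Ω (sF k' F)) = -algebraMap F Ω (sF k' F) := by
  by_contra hcon
  push Not at hcon
  have h1 : algebraMap F Ω (sF k' F) ∈ Set.range (algebraMap F0 Ω) := by
    rw [InfiniteGalois.mem_range_algebraMap_iff_fixed]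
    intro τ
    have h2 : (τ (algebraMap F Ω (sF k' F))) ^ 2 = (algebraMap F Ω (sF k' F)) ^ 2 := by
      rw [← map_pow, ← map_pow, hQ.sq, ← IsScalarTower.algebraMap_apply F0 F Ω, τ.commutes]
    exact (sq_eq_sq_iff_eq_or_eq_neg.1 h2).resolve_right (hcon τ)
  obtain ⟨x, hx⟩ := h1
  rw [IsScalarTower.algebraMap_apply F0 F Ω] at hx
  exact hQ.not_mem x ((algebraMap F Ω).injective hx)

include hQ hKF in
/-- An automorphism over `K` with given action on the constants and `s ↦ -s`. -/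
theorem IsQ.lift [IsGalois F0 Ω] {c0 t00 : k} (hc : c = algebraMap k k' c0)
    (ht : t0 = algebraMap k k' t00) (s0 : k' ≃ₐ[k] k') : ∃ τ : Ω ≃ₐ[K] Ω,
      τ (algebraMap F Ω (sF k' F)) = -algebraMap F Ω (sF k' F) ∧ ∀ p : k'[X],
      τ (algebraMap F Ω (algebraMap k'[X] F p)) =
        algebraMap F Ω (algebraMap k'[X] F (eG s0 true p)) := by
  obtain ⟨τ0, h0⟩ := Pool.Agent.TH115.GD.lift (F := F0) (Ω := Ω) hKF s0
  rcases hQ.pm (Ω := Ω) hKF hc ht (τ0 : Ω →ₐ[K] Ω) with h | h
  · obtain ⟨τ1, h1⟩ := hQ.exists_neg (Ω := Ω)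
    have h2 : (τ0.trans (τ1.restrictScalars K)) (algebraMap F Ω (sF k' F)) =
        -algebraMap F Ω (sF k' F) := by
      show τ1 (τ0 (algebraMap F Ω (sF k' F))) = _
      have h' : τ0 (algebraMap F Ω (sF k' F)) = algebraMap F Ω (sF k' F) := h
      rw [h', h1]
    refine ⟨τ0.trans (τ1.restrictScalars K), h2, hQ.act (b := true) (fun p => ?_) h2⟩
    show τ1 (τ0 (algebraMap F0 Ω (algebraMap k'[X] F0 p))) = _
    rw [h0, τ1.commutes]
  · exact ⟨τ0, h, hQ.act (b := true) h0 h⟩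

end gal

section cm

variable {k k' : Type} [Field k] [Field k'] [Algebra k k']

/-- The place `ρ` is fixed, if `ρ ↦ -ρ`. -/
theorem cm_pl {s0 : k' ≃ₐ[k] k'} {ρ : k'} (h : s0 ρ = -ρ) : cm (eG s0 true) (pl ρ) = pl ρ := by
  apply HeightOneSpectrum.ext
  ext p
  rw [cm_mem, mem_pl, mem_pl, eG_true, IsRoot.def, IsRoot.def, eval_comp, eval_neg, eval_X, ← h,
    eval_map, show s0 ρ = (s0 : k' →+* k') ρ from rfl, eval₂_at_apply]
  exact (map_eq_zero_iff (s0 : k' →+* k') s0.injective)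

theorem cm_pl0 {s0 : k' ≃ₐ[k] k'} : cm (eG s0 true) (pl (0 : k')) = pl 0 :=
  cm_pl (by rw [map_zero, neg_zero])

end cm

end Pool.Agent.Helper23K9.Q5
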