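import Pool.Agent.Helper23K9.Q5.Ltw
import Pool.Agent.Helper23K9.T5.Slm
import Pool.Agent.Helper23K9.T5.Gp

/-!
The points of order five of the twist, and cocycles.
-/

set_option autoImplicit false
set_option linter.all false

open Polynomial IsDedekindDomain WeierstrassCurve WeierstrassCurve.Affine
open scoped Classical

namespace Pool.Agent.Helper23K9.Q5

open Pool.Agent.TH115.GD (Pt act incl rs ak act_act act_inj IsCoc rs_mul exists_conj Preserves)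
open Pool.Agent.Helper23K9.T5

section cbn

variable {F : Type*} [Field F] {W : Affine F} {b : F} (h : IsE5 W b)

theorem cb_neg {T : W.Point} (hT5 : 5 • T = 0) (i a : ZMod 5) : -cb h T i a = cb h T (-i) (-a) := by
  rw [neg_eq_iff_add_eq_zero, cb_add h hT5, add_neg_cancel, add_neg_cancel, cb_zero]

end cbn

section gp

variable {K F0 Ω : Type} [Field K] [Field F0] [Field Ω] [Algebra K F0] [Algebra F0 Ω] [Algebra K Ω]
  [IsScalarTower K F0 Ω] {b d : K} (h5 : (5 : K) ≠ 0) (hb : b ≠ 0)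
  (hd : b ^ 2 - 11 * b - 1 ≠ 0) {T : Pt (crv5 b) Ω} (hT5 : 5 • T = 0)
  (hTn : T ∉ HP (isE5 b Ω h5 hb hd))
  (hsurj : ∀ S : Pt (crv5 b) Ω, 5 • S = 0 → ∃ i a, S = cb (isE5 b Ω h5 hb hd) T i a)
  {ξ : (Ω →ₐ[K] Ω) → ZMod 5}
  (hξ : ∀ φ, act (crv5 b) φ T = cb (isE5 b Ω h5 hb hd) T (ξ φ) 1)
  (hE : (crv5 b).Δ ≠ 0) (h2 : (2 : Ω) ≠ 0) {r : Ω} (hr : r ^ 2 = algebraMap K Ω d) (hr0 : r ≠ 0)

/-- The sign of the action on the square root `r`. -/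
noncomputable def sg (r : Ω) (φ : Ω →ₐ[K] Ω) : ZMod 5 := if φ r = r then 1 else -1

theorem sg_mul_self (φ : Ω →ₐ[K] Ω) : sg r φ * sg r φ = 1 := by
  unfold sg
  split_ifs <;> ring

include hr in
theorem act_r (φ : Ω →ₐ[K] Ω) : φ r = r ∨ φ r = -r := by
  apply sq_eq_sq_iff_eq_or_eq_neg.1
  rw [← map_pow, hr, φ.commutes]

include h2 hr0 in
theorem r_ne_neg : r ≠ -r := by
  intro h
  have : 2 * r = 0 := by linear_combination h
  rcases mul_eq_zero.1 this with h | h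
  · exact h2 h
  · exact hr0 h

theorem sg_pos {φ : Ω →ₐ[K] Ω} (h : φ r = r) : sg r φ = 1 := if_pos h

include h2 hr0 in
theorem sg_neg {φ : Ω →ₐ[K] Ω} (h : φ r = -r) : sg r φ = -1 :=
  if_neg (fun h' => r_ne_neg h2 hr0 (h'.symm.trans h))

include h2 hr hr0 in
theorem sg_mul (φ ψ : Ω →ₐ[K] Ω) : sg r (φ.comp ψ) = sg r φ * sg r ψ := by
  rcases act_r (K := K) hr φ with h1 | h1 <;> rcases act_r (K := K) hr ψ with h3 | h3
  · rw [sg_pos h1, sg_pos h3, sg_pos (by rw [AlgHom.comp_apply, h3, h1])]; ring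
  · rw [sg_pos h1, sg_neg h2 hr0 h3, sg_neg h2 hr0 (by rw [AlgHom.comp_apply, h3, map_neg, h1])]; ring
  · rw [sg_neg h2 hr0 h1, sg_pos h3, sg_neg h2 hr0 (by rw [AlgHom.comp_apply, h3, h1])]; ring
  · rw [sg_neg h2 hr0 h1, sg_neg h2 hr0 h3, sg_pos (by rw [AlgHom.comp_apply, h3, map_neg, h1, neg_neg])]
    ring

/-- The point of the twist with given coordinates. -/
noncomputable def tc (T : Pt (crv5 b) Ω) (i a : ZMod 5) : Pt (qtw d (crv5 b)) Ω :=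
  tw hE h2 hr hr0 (cb (isE5 b Ω h5 hb hd) T i a)

include hT5 in
theorem tc_add (i a j e : ZMod 5) : tc h5 hb hd hE h2 hr hr0 T i a + tc h5 hb hd hE h2 hr hr0 T j e =
    tc h5 hb hd hE h2 hr hr0 T (i + j) (a + e) := by
  unfold tc
  rw [← map_add, cb_add _ hT5]

include hT5 in
theorem tc_sub (i a j e : ZMod 5) : tc h5 hb hd hE h2 hr hr0 T i a - tc h5 hb hd hE h2 hr hr0 T j e =
    tc h5 hb hd hE h2 hr hr0 T (i - j) (a - e) := by
  unfold tc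
  rw [← map_sub, cb_sub _ hT5]

theorem tc_zero : tc h5 hb hd hE h2 hr hr0 T 0 0 = 0 := by
  unfold tc
  rw [cb_zero, map_zero]

include hT5 in
theorem tc_five (i a : ZMod 5) : 5 • tc h5 hb hd hE h2 hr hr0 T i a = 0 := by
  unfold tc
  rw [← map_nsmul, cb_five _ hT5, map_zero]

include hT5 hTn in
theorem tc_inj {i a j e : ZMod 5} (q : tc h5 hb hd hE h2 hr hr0 T i a =
    tc h5 hb hd hE h2 hr hr0 T j e) : i = j ∧ a = e :=
  cb_inj _ hT5 hTn ((tw hE h2 hr hr0).injective q)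

include hsurj in
theorem tc_surj {X : Pt (qtw d (crv5 b)) Ω} (hX : 5 • X = 0) :
    ∃ i a, X = tc h5 hb hd hE h2 hr hr0 T i a := by
  obtain ⟨i, a, e⟩ := hsurj ((tw hE h2 hr hr0).symm X) (by rw [← map_nsmul, hX, map_zero])
  refine ⟨i, a, ?_⟩
  unfold tc
  rw [← e, AddEquiv.apply_symm_apply]

include hT5 hξ in
/-- The action of the Galois group. -/
theorem tc_act (φ : Ω →ₐ[K] Ω) (i a : ZMod 5) :
    act (qtw d (crv5 b)) φ (tc h5 hb hd hE h2 hr hr0 T i a) =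
      tc h5 hb hd hE h2 hr hr0 T (sg r φ * (i + a * ξ φ)) (sg r φ * a) := by
  unfold tc
  rcases act_r (K := K) hr φ with h1 | h1
  · rw [sg_pos h1, one_mul, one_mul, tw_act hE h2 h2 hr hr0 hr hr0 φ h1,
      act_cb h5 hb hd hT5 (hξ _)]
  · have hr' : (-r) ^ 2 = algebraMap K Ω d := by rw [neg_sq, hr]
    rw [sg_neg h2 hr0 h1, tw_act hE h2 h2 hr hr0 hr' (neg_ne_zero.2 hr0) φ h1,
      act_cb h5 hb hd hT5 (hξ _), tw_neg hE h2 hr hr0 hr' (neg_ne_zero.2 hr0) rfl, ← map_neg,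
      cb_neg _ hT5, neg_one_mul, neg_one_mul]

variable (hneg : ∃ τ : Ω ≃ₐ[F0] Ω, τ r = -r)

include hT5 hTn hsurj hξ hE h2 hr hr0 hneg in
/-- There are no torsion points over `F0`. -/
theorem no_tor (N : ℕ) : ∀ X : Pt (qtw d (crv5 b)) Ω,
    (∀ σ : Ω ≃ₐ[F0] Ω, act (qtw d (crv5 b)) (rs K σ) X = X) → 5 ^ N • X = 0 → X = 0 := by
  have base : ∀ X : Pt (qtw d (crv5 b)) Ω,
    (∀ σ : Ω ≃ₐ[F0] Ω, act (qtw d (crv5 b)) (rs K σ) X = X) → 5 • X = 0 → X = 0 := by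
    intro X hX h0
    obtain ⟨i, a, rfl⟩ := tc_surj h5 hb hd hsurj hE h2 hr hr0 h0
    obtain ⟨τ, hτ⟩ := hneg
    have h1 := hX τ
    rw [tc_act h5 hb hd hT5 hξ, sg_neg (φ := rs K τ) h2 hr0 hτ] at h1
    obtain ⟨e1, e2⟩ := tc_inj h5 hb hd hT5 hTn hE h2 hr hr0 h1
    have ha : a = 0 := two5 a (by rw [← neg_one_mul, e2])
    rw [ha, zero_mul, add_zero] at e1
    have hi : i = 0 := two5 i (by rw [← neg_one_mul, e1])
    rw [hi, ha, tc_zero]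
  induction N with
  | zero =>
    intro X _ h0
    rwa [pow_zero, one_smul] at h0
  | succ N ih =>
    intro X hX h0
    exact base X hX (ih (5 • X) (fun σ => by rw [map_nsmul, hX σ])
      (by rw [smul_smul, ← pow_succ]; exact h0))

variable {f : (Ω ≃ₐ[F0] Ω) → Pt (qtw d (crv5 b)) Ω} {i a : (Ω ≃ₐ[F0] Ω) → ZMod 5}
  (hf : ∀ σ, f σ = tc h5 hb hd hE h2 hr hr0 T (i σ) (a σ))

include hT5 hTn hξ in
theorem coc_coords (hc : IsCoc (qtw d (crv5 b)) f)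
    (hf : ∀ σ, f σ = tc h5 hb hd hE h2 hr hr0 T (i σ) (a σ)) (σ τ : Ω ≃ₐ[F0] Ω) :
    a (σ * τ) = a σ + sg r (rs K σ) * a τ ∧
    i (σ * τ) = i σ + sg r (rs K σ) * (i τ + a τ * ξ (rs K σ)) := by
  have h1 := hc.mul σ τ
  rw [hf, hf, hf, tc_act h5 hb hd hT5 hξ, tc_add h5 hb hd hT5] at h1
  obtain ⟨e1, e2⟩ := tc_inj h5 hb hd hT5 hTn hE h2 hr hr0 h1
  exact ⟨e2, e1⟩

include hT5 hTn hsurj hξ hneg in
/-- The invariance of a class, in coordinates. -/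
theorem inv_coords [IsSepClosed Ω] [IsGalois F0 Ω] (hpres : Preserves K F0 Ω)
    (hf5 : ∀ σ, 5 • f σ = 0)
    (hinv : ∀ τ : Ω ≃ₐ[K] Ω, ∃ Q : Pt (qtw d (crv5 b)) Ω, (∃ N : ℕ, 5 ^ N • Q = 0) ∧
      ∀ σ σ' : Ω ≃ₐ[F0] Ω, (∀ x, τ (σ' x) = σ (τ x)) →
        act (qtw d (crv5 b)) (ak τ) (f σ') - f σ = act (qtw d (crv5 b)) (rs K σ) Q - Q)
    (hf : ∀ σ, f σ = tc h5 hb hd hE h2 hr hr0 T (i σ) (a σ)) (τ : Ω ≃ₐ[K] Ω) :
    ∃ j e : ZMod 5, ∀ σ σ' : Ω ≃ₐ[F0] Ω, (∀ x, τ (σ' x) = σ (τ x)) →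
      sg r (ak τ) * a σ' - a σ = sg r (rs K σ) * e - e ∧
      sg r (ak τ) * (i σ' + a σ' * ξ (ak τ)) - i σ = sg r (rs K σ) * (j + e * ξ (rs K σ)) - j := by
  obtain ⟨Q, ⟨N, hN⟩, hrel⟩ := hinv τ
  have h5Q : 5 • Q = 0 := by
    apply no_tor h5 hb hd hT5 hTn hsurj hξ hE h2 hr hr0 hneg N (5 • Q)
    · intro σ
      obtain ⟨σ', hσ'⟩ := exists_conj hpres τ σ
      have h1 := hrel σ σ' hσ'
      have h3 : 5 • (act (qtw d (crv5 b)) (rs K σ) Q - Q) = 0 := by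
        rw [← h1, smul_sub, ← map_nsmul, hf5, hf5, map_zero, sub_zero]
      rw [smul_sub, sub_eq_zero, ← map_nsmul] at h3
      exact h3
    · rw [smul_comm, hN, smul_zero]
  obtain ⟨j, e, rfl⟩ := tc_surj h5 hb hd hsurj hE h2 hr hr0 h5Q
  refine ⟨j, e, fun σ σ' h => ?_⟩
  have h1 := hrel σ σ' h
  rw [hf, hf, tc_act h5 hb hd hT5 hξ, tc_act h5 hb hd hT5 hξ, tc_sub h5 hb hd hT5,
    tc_sub h5 hb hd hT5] at h1
  obtain ⟨e1, e2⟩ := tc_inj h5 hb hd hT5 hTn hE h2 hr hr0 h1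
  exact ⟨e2, e1⟩

include h2 hr hr0 in
/-- Cochains which vanish on the automorphisms which fix `r`. -/
theorem sign_cob {a : (Ω ≃ₐ[F0] Ω) → ZMod 5}
    (hm : ∀ σ τ, a (σ * τ) = a σ + sg r (rs K σ) * a τ)
    (h0 : ∀ σ : Ω ≃ₐ[F0] Ω, σ r = r → a σ = 0) :
    ∃ e : ZMod 5, ∀ σ, a σ = sg r (rs K σ) * e - e := by
  by_cases hex : ∃ τ : Ω ≃ₐ[F0] Ω, τ r = -r
  · obtain ⟨τ, hτ⟩ := hex
    refine ⟨2 * a τ, fun σ => ?_⟩
    rcases act_r (K := K) hr (rs K σ) with h1 | h1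
    · rw [sg_pos h1, h0 σ h1]; ring
    · rw [sg_neg h2 hr0 h1]
      have h3 : (τ⁻¹ * σ) r = r := by
        have h4 : σ r = τ r := h1.trans hτ.symm
        rw [AlgEquiv.mul_apply, h4, ← AlgEquiv.mul_apply, inv_mul_cancel, AlgEquiv.one_apply]
      have h4 := hm τ (τ⁻¹ * σ)
      rw [mul_inv_cancel_left, h0 _ h3, mul_zero, add_zero] at h4
      rw [h4]
      have : ∀ x : ZMod 5, x = -1 * (2 * x) - 2 * x := by decide
      exact this _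
  · push Not at hex
    refine ⟨0, fun σ => ?_⟩
    rcases act_r (K := K) hr (rs K σ) with h1 | h1
    · rw [h0 σ h1]; ring
    · exact absurd h1 (hex σ)

end gp

end Pool.Agent.Helper23K9.Q5
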