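import Pool.Agent.Helper23K9.Q5.Fe
import Pool.Agent.Helper23K9.T5.Ktr

/-!
The Kummer generator at the places which do not split.
-/

set_option autoImplicit false
set_option linter.all false

open Polynomial IsDedekindDomain
open scoped Classical

namespace Pool.Agent.Helper23K9.Q5

open Pool.Agent.TH115.GD (pl cm cm_mem cm_val Preserves)
open Pool.Agent.Helper23K9.T5

section kill

variable {k' F : Type} [Field k'] [Field F] [Algebra k'[X] F] [IsFractionRing k'[X] F]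

theorem om_aut {e : k'[X] ≃+* k'[X]} {σ : F →+* F}
    (hσ : ∀ p : k'[X], σ (algebraMap k'[X] F p) = algebraMap k'[X] F (e p))
    (w : HeightOneSpectrum k'[X]) (x : F) : om5 (cm e w) x = om5 w (σ x) := by
  unfold om5
  rw [cm_val e hσ]

variable {K Ω : Type} [Field K] [Field Ω] [Algebra K F] [Algebra F Ω] [Algebra K Ω]
  [IsScalarTower K F Ω]

theorem om_gal {e : k'[X] ≃+* k'[X]} {τ : Ω ≃ₐ[K] Ω} (hs : ∀ p : k'[X],
      τ (algebraMap F Ω (algebraMap k'[X] F p)) = algebraMap F Ω (algebraMap k'[X] F (e p)))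
    {x y : F} (hxy : τ (algebraMap F Ω x) = algebraMap F Ω y) (w : HeightOneSpectrum k'[X]) :
    om5 (cm e w) x = om5 w y := by
  let σ : F ≃+* F := IsFractionRing.ringEquivOfRingEquiv (A := k'[X]) (B := k'[X]) e
  have hσ : ∀ p : k'[X], σ (algebraMap k'[X] F p) = algebraMap k'[X] F (e p) := fun p =>
    IsFractionRing.ringEquivOfRingEquiv_algebraMap _ p
  have h1 : ∀ x : F, τ (algebraMap F Ω x) = algebraMap F Ω (σ x) := by
    intro x
    obtain ⟨n, d, hd, rfl⟩ := IsFractionRing.div_surjective (A := k'[X]) x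
    rw [map_div₀, map_div₀, hs, hs, map_div₀, hσ, hσ, map_div₀]
  have h2 : y = σ x := by
    apply (algebraMap F Ω).injective
    rw [← hxy, h1]
  rw [h2]
  exact om_aut (σ := (σ : F →+* F)) hσ w x

theorem neg4 : ∀ a : ZMod 5, ((4 : ℕ) : ZMod 5) * a = -a := by decide

theorem two5 : ∀ a : ZMod 5, a = -a → a = 0 := by decide

/-- If the character is multiplied by `-1` by an automorphism. -/
theorem kill [IsGalois F Ω] (hpres : Preserves K F Ω) {z : Ω} (hz : z ^ 5 = 1)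
    {χ : (Ω ≃ₐ[F] Ω) → ZMod 5} {s : Ω} {f : F} (h : KD z χ s f) {τ : Ω ≃ₐ[K] Ω} (hτ : τ z = z)
    {e : k'[X] ≃+* k'[X]} (hs : ∀ p : k'[X],
      τ (algebraMap F Ω (algebraMap k'[X] F p)) = algebraMap F Ω (algebraMap k'[X] F (e p)))
    (hχ : ∀ σ σ' : Ω ≃ₐ[F] Ω, (∀ x, τ (σ' x) = σ (τ x)) → χ σ' = -χ σ)
    (w : HeightOneSpectrum k'[X]) : om5 (cm e w) f = -om5 w f := by
  obtain ⟨y, hy, hyK⟩ := h.gal hpres hτ (χ' := fun σ => -χ σ) (fun σ σ' e => (hχ σ σ' e).symm)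
  have h4 : KD z (fun σ => -χ σ) (s ^ 4) (f ^ 4) := by
    have := h.pow hz 4
    simp only [neg4] at this
    exact this
  obtain ⟨c, hc, e1⟩ := h4.same hyK
  rw [om_gal hs hy w, e1, om5_fifth w hc (pow_ne_zero 4 h.fne), om5_pow, neg4]

/-- A character whose Kummer generator has orders divisible by five vanishes. -/
theorem char_van [IsGalois F Ω] [IsSepClosed k'] (h5' : (5 : k') ≠ 0) (h5 : (5 : Ω) ≠ 0) {z : Ω}
    (hz : IsZ z) (hzF : ∀ σ : Ω ≃ₐ[F] Ω, σ z = z)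
    {χ : (Ω ≃ₐ[F] Ω) → ZMod 5} {s : Ω} {f : F} (h : KD z χ s f)
    (hf : ∀ w : HeightOneSpectrum k'[X], om5 w f = 0) (σ : Ω ≃ₐ[F] Ω) : χ σ = 0 := by
  obtain ⟨u, t, hu, ht, e⟩ := fifth_F h.fne hf
  haveI : NeZero ((5 : ℕ) : k') := ⟨by exact_mod_cast h5'⟩
  obtain ⟨v, hv⟩ := IsSepClosed.exists_pow_nat_eq u 5
  have k2 : KD z (fun _ : Ω ≃ₐ[F] Ω => (0 : ZMod 5)) (1 : Ω) (1 : F) :=
    ⟨one_ne_zero, by rw [one_pow, map_one], fun σ => by
      rw [ZMod.val_zero, pow_zero, one_mul, map_one]⟩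
  have e2 : f = (algebraMap k'[X] F (C v) * t) ^ 5 * 1 := by
    rw [e, ← hv, C_pow, map_pow]
    ring
  exact (k2.char h5 hz hzF h e2 σ).symm

end kill

end Pool.Agent.Helper23K9.Q5
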