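import Pool.Agent.Helper23K9.Q5.Emb
import Pool.Agent.Helper23K9.Q5.Kill

/-!
The places of `k'(s)` over a place of `k'(t)`.
-/

set_option autoImplicit false
set_option linter.all false

open Polynomial IsDedekindDomain
open scoped Classical

namespace Pool.Agent.Helper23K9.Q5

open Pool.Agent.TH115.GD (pl cm cm_mem cm_val wv wv_coe sqrt_one Comp)
open Pool.Agent.Helper23K9.T5

section even

variable {k' : Type} [Field k']

theorem even_odd (p : k'[X]) : ∃ A B : k'[X], p = A.comp (X ^ 2) + X * B.comp (X ^ 2) := by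
  induction p using Polynomial.recOnHorner with
  | M0 => exact ⟨0, 0, by simp⟩
  | MC p a _ _ ih =>
    obtain ⟨A, B, e⟩ := ih
    refine ⟨A + C a, B, ?_⟩
    rw [e, add_comp, C_comp]
    ring
  | MX p _ ih =>
    obtain ⟨A, B, e⟩ := ih
    refine ⟨X * B, A, ?_⟩
    rw [e, mul_comp, X_comp]
    ring

/-- The norm of a polynomial in `s` is a polynomial in `t`. -/
theorem exists_norm {c t0 : k'} (hc : c ≠ 0) {p : k'[X]} (hp : p ≠ 0) : ∃ q : k'[X], q ≠ 0 ∧
    p * p.comp (-X) = q.comp (C c⁻¹ * X ^ 2 + C t0) := by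
  obtain ⟨A, B, e⟩ := even_odd p
  have h1 : p * p.comp (-X) = (A ^ 2 - X * B ^ 2).comp (X ^ 2) := by
    have e2 : p.comp (-X) = A.comp (X ^ 2) - X * B.comp (X ^ 2) := by
      rw [e, add_comp, mul_comp, X_comp, comp_assoc, comp_assoc]
      simp only [pow_comp, X_comp, neg_sq]
      ring
    rw [e2, e, sub_comp, mul_comp, pow_comp, pow_comp, X_comp]
    ring
  have h2 : ((A ^ 2 - X * B ^ 2).comp (C c * (X - C t0))).comp (C c⁻¹ * X ^ 2 + C t0) =
      (A ^ 2 - X * B ^ 2).comp (X ^ 2) := by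
    rw [comp_assoc]
    congr 1
    rw [mul_comp, C_comp, sub_comp, X_comp, C_comp, add_sub_cancel_right, ← mul_assoc, ← C_mul,
      mul_inv_cancel₀ hc, C_1, one_mul]
  refine ⟨(A ^ 2 - X * B ^ 2).comp (C c * (X - C t0)), ?_, h1.trans h2.symm⟩
  intro h0
  rw [h0, zero_comp] at h2
  rw [← h2] at h1
  rcases mul_eq_zero.1 h1 with h3 | h3
  · exact hp h3
  · apply hp
    have h4 := comp_neg_X_comp_neg_X p
    rw [h3, zero_comp] at h4
    exact h4.symm

end even

section val

variable {k' F : Type} [Field k'] [Field F] [Algebra k'[X] F] [IsFractionRing k'[X] F]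

/-- A valuation of `k'(s)` which is at most one on `k'[s]` and has the value `exp (-1)` is the
valuation of a prime ideal. -/
theorem exists_prime (W : Valuation F (WithZero (Multiplicative ℤ)))
    (h1 : ∀ p : k'[X], W (algebraMap k'[X] F p) ≤ 1) {x0 : k'[X]}
    (hx0 : W (algebraMap k'[X] F x0) = WithZero.exp (-1)) :
    ∃ w : HeightOneSpectrum k'[X], (∀ x : F, w.valuation F x = W x) ∧
      ∀ p : k'[X], p ∈ w.asIdeal ↔ W (algebraMap k'[X] F p) < 1 := by
  let I : Ideal k'[X] :=
    { carrier := {p | W (algebraMap k'[X] F p) < 1}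
      add_mem' := by
        intro a b ha hb
        show W (algebraMap k'[X] F (a + b)) < 1
        rw [map_add]
        exact Valuation.map_add_lt _ ha hb
      zero_mem' := by
        show W (algebraMap k'[X] F 0) < 1
        rw [map_zero, map_zero]
        exact zero_lt_one
      smul_mem' := by
        intro a b hb
        show W (algebraMap k'[X] F (a * b)) < 1
        rw [map_mul, map_mul]
        exact (mul_le_of_le_one_left' (h1 a)).trans_lt hb }
  have hI : ∀ p, p ∈ I ↔ W (algebraMap k'[X] F p) < 1 := fun p => Iff.rfl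
  have hprime : I.IsPrime := by
    refine ⟨?_, ?_⟩
    · rw [Ne, Ideal.eq_top_iff_one, hI, map_one, map_one]
      exact lt_irrefl _
    · intro a b hab
      rw [hI, map_mul, map_mul] at hab
      by_contra hcon
      push Not at hcon
      rw [hI, hI, not_lt, not_lt] at hcon
      have e1 := le_antisymm (h1 a) hcon.1
      have e2 := le_antisymm (h1 b) hcon.2
      rw [e1, e2, one_mul] at hab
      exact lt_irrefl _ hab
  have hx0I : x0 ∈ I := by
    rw [hI, hx0, ← WithZero.exp_zero, WithZero.exp_lt_exp]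
    norm_num
  have hx00 : x0 ≠ 0 := by
    rintro rfl
    rw [map_zero, map_zero] at hx0
    exact WithZero.exp_ne_zero hx0.symm
  have hne : I ≠ ⊥ := by
    intro h
    rw [h, Ideal.mem_bot] at hx0I
    exact hx00 hx0I
  let w : HeightOneSpectrum k'[X] := ⟨I, hprime, hne⟩
  obtain ⟨π, hπ⟩ := (IsPrincipalIdealRing.principal I).principal
  have hπ' : I = Ideal.span {π} := hπ
  have hπ0 : π ≠ 0 := by
    rintro rfl
    apply hne
    rw [hπ', Ideal.span_singleton_eq_bot]
  have hpr : Prime π := (Ideal.span_singleton_prime hπ0).1 (hπ' ▸ hprime)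
  have dec : ∀ p : k'[X], p ≠ 0 → ∃ (n : ℕ) (q : k'[X]), p = π ^ n * q ∧
      W (algebraMap k'[X] F q) = 1 ∧ w.intValuation p = WithZero.exp (-(n : ℤ)) := by
    intro p hp
    obtain ⟨q, hq, e⟩ := (FiniteMultiplicity.of_prime_left hpr hp).exists_eq_pow_mul_and_not_dvd
    obtain ⟨n, hn⟩ : ∃ n, n = multiplicity π p := ⟨_, rfl⟩
    rw [← hn] at hq
    have hqI : q ∉ I := by
      rw [hπ', Ideal.mem_span_singleton]
      exact e
    refine ⟨n, q, hq, le_antisymm (h1 q) (not_lt.1 (fun h => hqI ((hI q).2 h))), ?_⟩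
    have e1 : w.intValuation q = 1 := (HeightOneSpectrum.intValuation_eq_one_iff).2 hqI
    have e2 : w.intValuation π = WithZero.exp (-1 : ℤ) := w.intValuation_singleton hπ0 hπ'
    rw [hq, map_mul, map_pow, e1, e2, mul_one, ← WithZero.exp_nsmul, nsmul_eq_mul]
    congr 1
    ring
  have hWπ : W (algebraMap k'[X] F π) = WithZero.exp (-1) := by
    obtain ⟨n, q, e, e1, -⟩ := dec x0 hx00
    have h3 : W (algebraMap k'[X] F π) ≠ 0 := by
      rw [Valuation.ne_zero_iff]
      simpa using hπ0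
    have h4 : W (algebraMap k'[X] F π) < 1 := by
      rw [← hI, hπ']
      exact Ideal.mem_span_singleton_self π
    rw [e, map_mul, map_mul, map_pow, map_pow, e1, mul_one] at hx0
    have h5 := congrArg WithZero.log hx0
    rw [WithZero.log_pow, WithZero.log_exp, nsmul_eq_mul] at h5
    have h6 : WithZero.log (W (algebraMap k'[X] F π)) < 0 := by
      have := (WithZero.log_lt_log h3 one_ne_zero).2 h4
      rwa [WithZero.log_one] at this
    have h7 : WithZero.log (W (algebraMap k'[X] F π)) = -1 := by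
      have hn : (n : ℤ) ∣ 1 := by
        rw [← dvd_neg]
        exact ⟨_, h5.symm⟩
      have hn1 : (n : ℤ) = 1 := Int.eq_one_of_dvd_one (by positivity) hn
      rw [hn1, one_mul] at h5
      exact h5
    rw [← WithZero.exp_log h3, h7]
  have hpoly : ∀ p : k'[X], w.intValuation p = W (algebraMap k'[X] F p) := by
    intro p
    by_cases hp : p = 0
    · rw [hp, map_zero, map_zero, map_zero]
    · obtain ⟨n, q, e, e1, e2⟩ := dec p hp
      rw [e2]
      conv_rhs => rw [e, map_mul, map_mul, map_pow, map_pow, e1, mul_one, hWπ, ← WithZero.exp_nsmul,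
        nsmul_eq_mul]
      congr 1
      ring
  refine ⟨w, fun x => ?_, hI⟩
  obtain ⟨n, d, hd, rfl⟩ := IsFractionRing.div_surjective (A := k'[X]) x
  rw [map_div₀, map_div₀, w.valuation_of_algebraMap, w.valuation_of_algebraMap, hpoly, hpoly]

end val

section place

variable {k' F0 F : Type} [Field k'] [Field F0] [Algebra k'[X] F0] [IsFractionRing k'[X] F0]
  [Field F] [Algebra k'[X] F] [IsFractionRing k'[X] F] [Algebra F0 F] {c t0 : k'}
  (hQ : IsQ k' F0 F c t0)

/-- The place of `F0` under a place of `F`. -/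
theorem exists_under (hc : c ≠ 0) (w : HeightOneSpectrum k'[X]) : ∃ v : HeightOneSpectrum k'[X],
    ∀ p : k'[X], p ∈ v.asIdeal ↔ p.comp (C c⁻¹ * X ^ 2 + C t0) ∈ w.asIdeal := by
  let I : Ideal k'[X] := w.asIdeal.comap (compRingHom (C c⁻¹ * X ^ 2 + C t0))
  have hI : ∀ p, p ∈ I ↔ p.comp (C c⁻¹ * X ^ 2 + C t0) ∈ w.asIdeal := fun p => Iff.rfl
  haveI := w.isPrime
  refine ⟨⟨I, Ideal.comap_isPrime _ _, ?_⟩, hI⟩
  intro h
  obtain ⟨x, hx, hx0⟩ := Submodule.exists_mem_ne_zero_of_ne_bot w.ne_bot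
  obtain ⟨q, hq, e⟩ := exists_norm (t0 := t0) hc hx0
  have h1 : q ∈ I := by
    rw [hI, ← e]
    exact w.asIdeal.mul_mem_right _ hx
  rw [h, Ideal.mem_bot] at h1
  exact hq h1

include hQ in
/-- The valuation of a place over `v` is given by an embedding of `F` in the completion at `v`. -/
theorem place_val (w v : HeightOneSpectrum k'[X])
    (hv : ∀ p : k'[X], p ∈ v.asIdeal ↔ p.comp (C c⁻¹ * X ^ 2 + C t0) ∈ w.asIdeal)
    (hu : C c * (X - C t0) ∉ v.asIdeal) {j : F →+* Comp k'[X] F0 v}
    (hj : ∀ x : F0, j (algebraMap F0 F x) = algebraMap F0 _ x) :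
    ∃ w' : HeightOneSpectrum k'[X], (w' = w ∨ w' = cm (ng k') w) ∧
      ∀ x : F, w'.valuation F x = wv v (j x) := by
  have hW0 : ∀ p : k'[X], wv v (j (algebraMap k'[X] F (p.comp (C c⁻¹ * X ^ 2 + C t0)))) =
      v.intValuation p := by
    intro p
    rw [← hQ.map, hj, wv_coe, v.valuation_of_algebraMap]
  have hs : wv v (j (sF k' F)) = 1 := by
    have h1 : (wv v (j (sF k' F))) ^ 2 = 1 := by
      rw [← map_pow, ← map_pow, hQ.sq, hj, wv_coe, v.valuation_of_algebraMap,
        HeightOneSpectrum.intValuation_eq_one_iff]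
      exact hu
    exact (pow_eq_one_iff.1 h1).resolve_right (by norm_num)
  have hle : ∀ p : k'[X], wv v (j (algebraMap k'[X] F p)) ≤ 1 := by
    intro p
    induction p using Polynomial.recOnHorner with
    | M0 => rw [map_zero, map_zero, map_zero]; exact zero_le_one
    | MC p a _ _ ih =>
      rw [map_add, map_add]
      refine (Valuation.map_add _ _ _).trans (max_le ih ?_)
      have h1 := hW0 (C a)
      rw [C_comp] at h1
      rw [h1]
      exact v.intValuation_le_one _
    | MX p _ ih =>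
      have h1 : wv v (j (algebraMap k'[X] F X)) = 1 := hs
      rw [map_mul, map_mul, map_mul, h1, mul_one]
      exact ih
  obtain ⟨π, hπ⟩ := (IsPrincipalIdealRing.principal v.asIdeal).principal
  have hπ' : v.asIdeal = Ideal.span {π} := hπ
  have hπ0 : π ≠ 0 := by
    rintro rfl
    apply v.ne_bot
    rw [hπ', Ideal.span_singleton_eq_bot]
  have hx0 : ((wv v).comap j) (algebraMap k'[X] F (π.comp (C c⁻¹ * X ^ 2 + C t0))) =
      WithZero.exp (-1) := by
    show wv v (j _) = _
    rw [hW0]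
    exact v.intValuation_singleton hπ0 hπ'
  obtain ⟨w', h1, h2⟩ := exists_prime ((wv v).comap j) hle hx0
  refine ⟨w', ?_, h1⟩
  -- the generator of `w`
  obtain ⟨ϖ, hϖ⟩ := (IsPrincipalIdealRing.principal w.asIdeal).principal
  have hϖ' : w.asIdeal = Ideal.span {ϖ} := hϖ
  have hϖ0 : ϖ ≠ 0 := by
    rintro rfl
    apply w.ne_bot
    rw [hϖ', Ideal.span_singleton_eq_bot]
  have hϖw : ϖ ∈ w.asIdeal := by
    rw [hϖ']; exact Ideal.mem_span_singleton_self ϖ
  obtain ⟨q, hq, e⟩ := exists_norm (t0 := t0) hQ.c0 hϖ0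
  have hqv : q ∈ v.asIdeal := by
    rw [hv, ← e]
    exact w.asIdeal.mul_mem_right _ hϖw
  have h3 : ϖ * ϖ.comp (-X) ∈ w'.asIdeal := by
    rw [h2, e]
    show wv v (j _) < 1
    rw [hW0, HeightOneSpectrum.intValuation_lt_one_iff_mem]
    exact hqv
  have hmax : ∀ a b : HeightOneSpectrum k'[X], a.asIdeal ≤ b.asIdeal → b = a := by
    intro a b hab
    have := a.isMaximal.eq_of_le b.isPrime.ne_top hab
    exact HeightOneSpectrum.ext this.symm
  rcases w'.isPrime.mem_or_mem h3 with h4 | h4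
  · left
    apply hmax
    rw [hϖ', Ideal.span_singleton_le_iff_mem]
    exact h4
  · right
    apply hmax
    intro x hx
    rw [cm_mem, ng_apply, hϖ', Ideal.mem_span_singleton] at hx
    obtain ⟨y, hy⟩ := hx
    have h5 : x = ϖ.comp (-X) * y.comp (-X) := by
      rw [← mul_comp, ← hy, comp_neg_X_comp_neg_X]
    rw [h5]
    exact w'.asIdeal.mul_mem_right _ h4

end place

end Pool.Agent.Helper23K9.Q5
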