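import Pool.Agent.Helper23K9.Q5.Tw
import Pool.Agent.Helper23K9.Q5.Pla
import Pool.Agent.Helper23K9.T5.Pg

/-!
Local triviality over `k'(s)`.
-/

set_option autoImplicit false
set_option linter.all false

open Polynomial IsDedekindDomain WeierstrassCurve WeierstrassCurve.Affine
open scoped Classical

namespace Pool.Agent.Helper23K9.Q5

open Pool.Agent.TH115.GD (pl cm cm_mem cm_val wv wv_coe sqrt_one Comp Pt act rs ak LocTriv Sep wFin)
open Pool.Agent.Helper23K9.T5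

section loc

variable {K F0 F Ω L Ω' : Type} [Field K] [Field F0] [Field F] [Field Ω] [Field L] [Field Ω']
  [Algebra K F0] [Algebra F0 F] [Algebra K F] [Algebra F0 Ω] [Algebra F Ω]
  [Algebra K Ω] [IsScalarTower K F0 Ω] [IsScalarTower K F Ω] [IsScalarTower F0 F Ω]
  [Algebra K L] [Algebra L Ω'] [Algebra K Ω'] [Algebra F0 Ω'] [Algebra F Ω']
  [IsScalarTower K L Ω'] [IsScalarTower K F0 Ω'] [IsScalarTower K F Ω']
  {E : WeierstrassCurve K} {d : K} (hE : E.Δ ≠ 0)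

/-- Local triviality of the twist over the completion of `F0` gives local triviality over the
quadratic extension `F`, for an embedding of `F` in the completion. -/
theorem loc_tw (h2 : (2 : Ω) ≠ 0) {r : Ω} (hr : r ^ 2 = algebraMap K Ω d) (hr0 : r ≠ 0)
    {f : (Ω ≃ₐ[F0] Ω) → Pt (qtw d E) Ω} {ι : Ω →ₐ[F0] Ω'} {P : Pt (qtw d E) Ω'}
    (h : ∀ (τ : Ω' ≃ₐ[L] Ω') (σ : Ω ≃ₐ[F0] Ω), (∀ x, τ (ι x) = ι (σ x)) →
      act (qtw d E) (ι.restrictScalars K) (f σ) = act (qtw d E) (rs K τ) P - P)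
    (ι' : Ω →ₐ[F] Ω') (hι : ∀ x, ι' x = ι x) {y : L} (hy : ι r = algebraMap L Ω' y)
    {g : (Ω ≃ₐ[F] Ω) → Pt E Ω} (hg : ∀ σ, tw hE h2 hr hr0 (g σ) = f (σ.restrictScalars F0)) :
    LocTriv E L Ω' g := by
  have h2' : (2 : Ω') ≠ 0 := by
    rw [← map_ofNat ι 2]
    exact (_root_.map_ne_zero _).2 h2
  have hr' : (ι r) ^ 2 = algebraMap K Ω' d := by
    rw [← map_pow, hr]
    exact (ι.restrictScalars K).commutes d
  have hr0' : ι r ≠ 0 := (_root_.map_ne_zero _).2 hr0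
  refine ⟨ι', (tw hE h2' hr' hr0').symm P, fun τ σ hτ => ?_⟩
  apply (tw hE h2' hr' hr0').injective
  have e1 : ι'.restrictScalars K = ι.restrictScalars K := AlgHom.ext fun x => hι x
  have h1 := h τ (σ.restrictScalars F0) (fun x => by
    have := hτ x
    rw [hι, hι] at this
    exact this)
  rw [e1, ← tw_act hE h2 h2' hr hr0 hr' hr0' (ι.restrictScalars K) rfl, hg, h1, map_sub,
    ← tw_act hE h2' h2' hr' hr0' hr' hr0' (rs K τ) ?_, AddEquiv.apply_symm_apply]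
  show τ (ι r) = ι r
  rw [hy, τ.commutes]

end loc

section good

variable {k k' K F0 F : Type} [Field k] [Field k'] [Algebra k k'] [IsSepClosed k'] [Field K]
  [Algebra k[X] K] [IsFractionRing k[X] K] [Field F0] [Algebra k'[X] F0] [IsFractionRing k'[X] F0]
  [Algebra K F0]
  (hKF : ∀ p : k[X], algebraMap K F0 (algebraMap k[X] K p) =
      algebraMap k'[X] F0 (p.map (algebraMap k k')))
  [Field F] [Algebra k'[X] F] [IsFractionRing k'[X] F] [Algebra F0 F] [Algebra K F]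
  [IsScalarTower K F0 F] [Algebra F (Sep F0)] [IsScalarTower F0 F (Sep F0)]
  [IsScalarTower K F (Sep F0)] {c t0 : k'} (hQ : IsQ k' F0 F c t0)
  (h2 : (2 : k') ≠ 0) (h2Ω : (2 : Sep F0) ≠ 0)
  {z0 : k} {β γ : k[X]} (h5k : (5 : k) ≠ 0) (hz0 : IsZ z0) (hp : β ≠ 0 ∧ γ ≠ 0 ∧ β - C (ep z0) * γ ≠ 0 ∧
      β - C (ep' z0) * γ ≠ 0) {b z d : K}
  (eb : b = algebraMap k[X] K β / algebraMap k[X] K γ) (ez : z = algebraMap k[X] K (C z0))
  (h5 : (5 : K) ≠ 0) (hb : b ≠ 0) (hd : b ^ 2 - 11 * b - 1 ≠ 0) (hz : IsZ z)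
  (hE : (crv5 b).Δ ≠ 0) (hr : (algebraMap F (Sep F0) (sF k' F)) ^ 2 = algebraMap K (Sep F0) d)
  (hr0 : algebraMap F (Sep F0) (sF k' F) ≠ 0)
  {f : (Sep F0 ≃ₐ[F0] Sep F0) → Pt (qtw d (crv5 b)) (Sep F0)}
  {g : (Sep F0 ≃ₐ[F] Sep F0) → Pt (crv5 b) (Sep F0)}
  (hg : ∀ σ, tw hE h2Ω hr hr0 (g σ) = f (σ.restrictScalars F0))
  {w v : HeightOneSpectrum k'[X]}
  (hv : ∀ p : k'[X], p ∈ v.asIdeal ↔ p.comp (C c⁻¹ * X ^ 2 + C t0) ∈ w.asIdeal)
  (hu : C c * (X - C t0) ∉ v.asIdeal)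
  (hloc : LocTriv (qtw d (crv5 b)) (Comp k'[X] F0 v) (Sep (Comp k'[X] F0 v)) f)

include hKF h2 h5k hz0 hp eb ez hz hQ hg hv hu hloc in
theorem first_good {T : Pt (crv5 b) (Sep F0)} {m : Sep F0}
    (hT : IsT (isE5 b (Sep F0) h5 hb hd) (algebraMap K (Sep F0) z) m T)
    (hm : AA (algebraMap K (Sep F0) z) (algebraMap K (Sep F0) b) =
      (5 + 3 * eta (algebraMap K (Sep F0) z)) * m ^ 5 *
        BB (algebraMap K (Sep F0) z) (algebraMap K (Sep F0) b))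
    (hTG : ∀ σ : Sep F0 ≃ₐ[F] Sep F0, act (crv5 b) (rs K σ) T - T ∈ HP (isE5 b (Sep F0) h5 hb hd))
    {i χ : (Sep F0 ≃ₐ[F] Sep F0) → ZMod 5}
    (hf : ∀ σ, g σ = cb (isE5 b (Sep F0) h5 hb hd) T (i σ) (χ σ))
    {s : Sep F0} {f0 : F} (hk : KD (algebraMap K (Sep F0) z) χ s f0)
    (hv1 : β.map (algebraMap k k') ∉ v.asIdeal) (hv2 : γ.map (algebraMap k k') ∉ v.asIdeal) :
    ∃ w' : HeightOneSpectrum k'[X], (w' = w ∨ w' = cm (ng k') w) ∧ om5 w' f0 = 0 := by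
  obtain ⟨ι, P, h⟩ := hloc
  obtain ⟨j, j1, j2⟩ := exists_place (F := F) hQ h2 v hu ι
  obtain ⟨w', hw', hw⟩ := place_val hQ w v hv hu j1
  refine ⟨w', hw', ?_⟩
  letI : Algebra F (Comp k'[X] F0 v) := j.toAlgebra
  haveI : IsScalarTower K F (Comp k'[X] F0 v) := by
    refine IsScalarTower.of_algebraMap_eq fun x => ?_
    show algebraMap K (Comp k'[X] F0 v) x = j (algebraMap K F x)
    rw [IsScalarTower.algebraMap_apply K F0 F, j1, ← IsScalarTower.algebraMap_apply K F0]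
  haveI : IsGalois F (Sep F0) := IsGalois.tower_top_of_isGalois F0 F (Sep F0)
  obtain ⟨A0, AB⟩ := val1G (L := Comp k'[X] F0 v) h5k hz0 hp eb ez (wv (F := F0) v)
    (fun c hc => by
      have h1 := wFin v (algebraMap K F0 (algebraMap k[X] K (C c)))
      rw [fin_const hKF v hc] at h1
      exact h1)
    (by
      have h1 := wFin v (algebraMap K F0 (algebraMap k[X] K β))
      have h2 := wFin v (algebraMap K F0 (algebraMap k[X] K γ))
      rw [fin_one hKF v hv1] at h1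
      rw [fin_one hKF v hv2] at h2
      exact h1.trans h2.symm)
  let ι' : Sep F0 →ₐ[F] Sep (Comp k'[X] F0 v) :=
    { (ι : Sep F0 →+* Sep (Comp k'[X] F0 v)) with commutes' := fun x => j2 x }
  have hloc' : LocTriv (crv5 b) (Comp k'[X] F0 v) (Sep (Comp k'[X] F0 v)) g :=
    loc_tw hE h2Ω hr hr0 h ι' (fun x => rfl) (y := j (sF k' F)) (j2 _) hg
  have h3 := loc_first (F := F) (L := Comp k'[X] F0 v) (Ω' := Sep (Comp k'[X] F0 v)) h5 hb hd hz
    (wv (F := F0) v) hT hm hTG hf hloc' hk.ne hk.five hk.act A0 AB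
  apply om5_of_Fi
  rw [hw]
  exact h3

include hKF h2 h5k hz0 hp eb ez hz hQ hg hv hu hloc in
theorem second_good {χ : (Sep F0 ≃ₐ[F] Sep F0) → ZMod 5}
    (hf : ∀ σ, g σ = (χ σ).val • pP (isE5 b (Sep F0) h5 hb hd))
    {s : Sep F0} {f0 : F} (hk : KD (algebraMap K (Sep F0) z) χ s f0)
    (hv1 : (β - C (ep z0) * γ).map (algebraMap k k') ∉ v.asIdeal)
    (hv2 : (β - C (ep' z0) * γ).map (algebraMap k k') ∉ v.asIdeal) :
    ∃ w' : HeightOneSpectrum k'[X], (w' = w ∨ w' = cm (ng k') w) ∧ om5 w' f0 = 0 := by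
  obtain ⟨ι, P, h⟩ := hloc
  obtain ⟨j, j1, j2⟩ := exists_place (F := F) hQ h2 v hu ι
  obtain ⟨w', hw', hw⟩ := place_val hQ w v hv hu j1
  refine ⟨w', hw', ?_⟩
  letI : Algebra F (Comp k'[X] F0 v) := j.toAlgebra
  haveI : IsScalarTower K F (Comp k'[X] F0 v) := by
    refine IsScalarTower.of_algebraMap_eq fun x => ?_
    show algebraMap K (Comp k'[X] F0 v) x = j (algebraMap K F x)
    rw [IsScalarTower.algebraMap_apply K F0 F, j1, ← IsScalarTower.algebraMap_apply K F0]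
  haveI : IsGalois F (Sep F0) := IsGalois.tower_top_of_isGalois F0 F (Sep F0)
  have AB := val2G (L := Comp k'[X] F0 v) h5k hz0 hp eb ez (wv (F := F0) v)
    (fun c hc => by
      have h1 := wFin v (algebraMap K F0 (algebraMap k[X] K (C c)))
      rw [fin_const hKF v hc] at h1
      exact h1)
    (by
      have h1 := wFin v (algebraMap K F0 (algebraMap k[X] K (β - C (ep z0) * γ)))
      have h2 := wFin v (algebraMap K F0 (algebraMap k[X] K (β - C (ep' z0) * γ)))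
      rw [fin_one hKF v hv1] at h1
      rw [fin_one hKF v hv2] at h2
      exact h1.trans h2.symm)
  let ι' : Sep F0 →ₐ[F] Sep (Comp k'[X] F0 v) :=
    { (ι : Sep F0 →+* Sep (Comp k'[X] F0 v)) with commutes' := fun x => j2 x }
  have hloc' : LocTriv (crv5 b) (Comp k'[X] F0 v) (Sep (Comp k'[X] F0 v)) g :=
    loc_tw hE h2Ω hr hr0 h ι' (fun x => rfl) (y := j (sF k' F)) (j2 _) hg
  have h3 := loc_second (F := F) (L := Comp k'[X] F0 v) (Ω' := Sep (Comp k'[X] F0 v)) h5 hb hd hz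
    (wv (F := F0) v) hf hloc' hk.ne hk.five hk.act AB
  apply om5_of_Fi
  rw [hw]
  exact h3

end good

end Pool.Agent.Helper23K9.Q5
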