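import Pool.Agent.Helper23K9.Q5.Emb
import Pool.Agent.Helper23K9.T5.Slm

/-!
The field `k'(s)`; the discriminant.
-/

set_option autoImplicit false
set_option linter.all false

open Polynomial IsDedekindDomain WeierstrassCurve
open scoped Classical

namespace Pool.Agent.Helper23K9.Q5

open Pool.Agent.TH115.GD (Sep)
open Pool.Agent.Helper23K9.T5

theorem exists_F {k' F0 : Type} [Field k'] [Field F0] [Algebra k'[X] F0] [IsFractionRing k'[X] F0]
    {c t0 : k'} (hc : c ≠ 0) : ∃ (F : Type) (_ : Field F) (_ : Algebra k'[X] F)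
      (_ : IsFractionRing k'[X] F) (_ : Algebra F0 F), IsQ k' F0 F c t0 := by
  let a : k'[X] →+* FractionRing k'[X] :=
    (algebraMap k'[X] (FractionRing k'[X])).comp (compRingHom (C c⁻¹ * X ^ 2 + C t0))
  have ha : Function.Injective a := by
    rw [injective_iff_map_eq_zero]
    intro p hp
    have h1 : p.comp (C c⁻¹ * X ^ 2 + C t0) = 0 :=
      IsFractionRing.injective k'[X] (FractionRing k'[X]) (hp.trans (map_zero _).symm)
    rw [comp_eq_zero_iff] at h1
    rcases h1 with h1 | ⟨-, h1⟩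
    · exact h1
    · exfalso
      have h2 := congrArg (fun q : k'[X] => q.coeff 2) h1
      simp only [coeff_add, coeff_C_mul, coeff_X_pow, coeff_C] at h2
      norm_num at h2
      exact hc h2
  let A : F0 →+* FractionRing k'[X] := IsFractionRing.lift ha
  letI : Algebra F0 (FractionRing k'[X]) := A.toAlgebra
  exact ⟨FractionRing k'[X], inferInstance, inferInstance, inferInstance, A.toAlgebra,
    ⟨hc, fun p => IsFractionRing.lift_algebraMap ha p⟩⟩

/-- The field `k'(s)` between `F0` and its separable closure. -/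
theorem exists_FS {k' F0 : Type} [Field k'] [Field F0] [Algebra k'[X] F0] [IsFractionRing k'[X] F0]
    {c t0 : k'} (hc : c ≠ 0) (h2 : (2 : k') ≠ 0) : ∃ (F : Type) (_ : Field F) (_ : Algebra k'[X] F)
      (_ : IsFractionRing k'[X] F) (_ : Algebra F0 F) (_ : Algebra F (Sep F0)),
      IsScalarTower F0 F (Sep F0) ∧ IsQ k' F0 F c t0 := by
  obtain ⟨F, i1, i2, i3, i4, hQ⟩ := exists_F (F0 := F0) (t0 := t0) hc
  have h2Ω : (2 : Sep F0) ≠ 0 := by
    have : (2 : Sep F0) = algebraMap F0 (Sep F0) (algebraMap k'[X] F0 (C 2)) := by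
      rw [map_ofNat, map_ofNat, map_ofNat]
    rw [this, Ne, map_eq_zero_iff _ (algebraMap F0 (Sep F0)).injective]
    intro h
    exact C_ne_zero.2 h2 (IsFractionRing.injective k'[X] F0 (h.trans (map_zero _).symm))
  haveI : NeZero ((2 : ℕ) : Sep F0) := ⟨by exact_mod_cast h2Ω⟩
  obtain ⟨r, hr⟩ := IsSepClosed.exists_pow_nat_eq
    (algebraMap F0 (Sep F0) (algebraMap k'[X] F0 (C c * (X - C t0)))) 2
  obtain ⟨j, j1, j2⟩ := exists_emb hQ hr
  refine ⟨F, i1, i2, i3, i4, j.toAlgebra, ?_, hQ⟩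
  letI := j.toAlgebra
  exact IsScalarTower.of_algebraMap_eq fun x => (j2 x).symm

theorem crv5_disc {K : Type*} [Field K] (b : K) : (crv5 b).Δ = b ^ 5 * (b ^ 2 - 11 * b - 1) := by
  simp only [crv5, WeierstrassCurve.Δ, WeierstrassCurve.b₂, WeierstrassCurve.b₄,
    WeierstrassCurve.b₆, WeierstrassCurve.b₈]
  ring

end Pool.Agent.Helper23K9.Q5
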