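import Pool.Agent.Helper23K9.Q5.Van
import Pool.Agent.Helper23K9.Q5.Qex
import Pool.Agent.Helper23K9.T5.Main
import Pool.Agent.TH115.TC.Cob

/-!
The Tate conjecture at 5 for quadratic twists of elliptic surfaces with a section of order five.
-/

set_option autoImplicit false
set_option linter.all false

open Polynomial IsDedekindDomain WeierstrassCurve WeierstrassCurve.Affine
open scoped Classical

namespace Pool.Agent.Helper23K9.Q5

open Pool.Agent.TH115.GD (vInf wInf wFin AtInf CompInf pl Pt act incl rs ak IsCoc LocTriv Sep Comp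
  IsTower Preserves LocallyTrivial lt_subT act_act act_inj cob_isCoc preserves sepKΩ lift
  exists_conj cont_rs)
open Pool.Agent.Helper7K9.T3 (TateAt IsTateClass tate_of_part)
open Pool.Agent.Helper23K9.T5

section main

variable {k k' K F0 : Type} [Field k] [Field k'] [Algebra k k'] [Field K] [Algebra k[X] K]
    [Field F0] [Algebra k'[X] F0] [IsFractionRing k'[X] F0] [Algebra K F0]

/-- The main step: classes of order five in the Selmer group of the twist which are fixed by the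
Galois group come from points of order five. -/
theorem key_tw (hT : IsTower k k' K F0) (h2k : (2 : k) ≠ 0) (h5k : (5 : k) ≠ 0) {z0 : k}
    (hz0 : IsZ z0) {β γ : k[X]} (hp : β ≠ 0 ∧ γ ≠ 0 ∧ β - C (ep z0) * γ ≠ 0 ∧
      β - C (ep' z0) * γ ≠ 0)
    (hs1 : ∀ π : k[X], Irreducible π → π ∣ β * γ → π.Separable)
    (hs2 : ∀ π : k[X], Irreducible π → π ∣ (β - C (ep z0) * γ) * (β - C (ep' z0) * γ) →
      π.Separable)
    {b d : K} (eb : b = algebraMap k[X] K β / algebraMap k[X] K γ) (hbp : bpol b ≠ 0)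
    {c0 t00 : k} (hc0 : c0 ≠ 0) (ed : d = algebraMap k[X] K (C c0 * (X - C t00)))
    (hb1 : ∀ ρ : k', ρ ≠ 0 → ((β * γ).map (algebraMap k k')).eval
      ((algebraMap k k' c0)⁻¹ * ρ ^ 2 + algebraMap k k' t00) = 0 → ∃ s0 : k' ≃ₐ[k] k', s0 ρ = -ρ)
    (hb2 : ∀ ρ : k', ρ ≠ 0 → (((β - C (ep z0) * γ) * (β - C (ep' z0) * γ)).map
      (algebraMap k k')).eval ((algebraMap k k' c0)⁻¹ * ρ ^ 2 + algebraMap k k' t00) = 0 →
      ∃ s0 : k' ≃ₐ[k] k', s0 ρ = -ρ)
    {f : (Sep F0 ≃ₐ[F0] Sep F0) → Pt (qtw d (crv5 b)) (Sep F0)}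
    (hf : Slm k' (qtw d (crv5 b)) f) :
    ∃ H : Pt (qtw d (crv5 b)) (Sep F0), 5 • H = 0 ∧
      ∀ σ, f σ = act (qtw d (crv5 b)) (rs K σ) H - H := by
  haveI := hT.sep
  haveI := hT.fracK
  haveI : IsSepClosed k' := IsSepClosure.sep_closed k
  have hKF := hT.map
  have h2' : (2 : k') ≠ 0 := by
    rw [← map_ofNat (algebraMap k k') 2]
    exact (_root_.map_ne_zero _).2 h2k
  have h5' : (5 : k') ≠ 0 := by
    rw [← map_ofNat (algebraMap k k') 5]
    exact (_root_.map_ne_zero _).2 h5k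
  obtain ⟨F, i1, i2, i3, i4, i5, i6, hQ⟩ := exists_FS (F0 := F0) (t0 := algebraMap k k' t00)
    ((_root_.map_ne_zero (algebraMap k k')).2 hc0) h2'
  letI : Algebra K F := ((algebraMap F0 F).comp (algebraMap K F0)).toAlgebra
  haveI : IsScalarTower K F0 F := IsScalarTower.of_algebraMap_eq fun _ => rfl
  haveI : IsScalarTower K F (Sep F0) := IsScalarTower.of_algebraMap_eq fun x => by
    rw [IsScalarTower.algebraMap_apply K F0 (Sep F0), IsScalarTower.algebraMap_apply F0 F (Sep F0)]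
    rfl
  obtain ⟨z, ez⟩ : ∃ z : K, z = algebraMap k[X] K (C z0) := ⟨_, rfl⟩
  obtain ⟨h5, hb, hd, hz, eA, eB, c1n, c2n, c3n⟩ := fldG h5k hz0 hp eb ez
  haveI : IsSepClosure K (Sep F0) := sepKΩ hKF
  haveI : Algebra.IsSeparable K (Sep F0) := IsSepClosure.separable
  haveI : IsGalois K (Sep F0) := inferInstance
  haveI : IsGalois F (Sep F0) := IsGalois.tower_top_of_isGalois F0 F (Sep F0)
  have h := isE5 b (Sep F0) h5 hb hd
  have hpres : Preserves K F0 (Sep F0) := preserves hKF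
  have hE : (crv5 b).Δ ≠ 0 := by
    rw [crv5_disc]
    exact mul_ne_zero (pow_ne_zero 5 hb) hd
  have h2Ω : (2 : Sep F0) ≠ 0 := by
    have : (2 : Sep F0) = algebraMap F0 (Sep F0) (algebraMap k'[X] F0 (C 2)) := by
      rw [map_ofNat, map_ofNat, map_ofNat]
    rw [this, Ne, map_eq_zero_iff _ (algebraMap F0 (Sep F0)).injective]
    intro h
    exact C_ne_zero.2 h2' (IsFractionRing.injective k'[X] F0 (h.trans (map_zero _).symm))
  -- the root of unity
  set ζ : Sep F0 := algebraMap K (Sep F0) z with hζ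
  have hzΩ : IsZ ζ := hz.map _
  have hzF : ∀ σ : Sep F0 ≃ₐ[F] Sep F0, σ ζ = ζ := fun σ => by
    rw [hζ, IsScalarTower.algebraMap_apply K F (Sep F0)]
    exact σ.commutes _
  have hzK : ∀ τ : Sep F0 ≃ₐ[K] Sep F0, τ ζ = ζ := fun τ => τ.commutes _
  have h5Ω : (5 : Sep F0) ≠ 0 := h.five
  -- the point T
  obtain ⟨m, hm5⟩ : ∃ m : Sep F0, m ^ 5 = AA ζ (algebraMap K (Sep F0) b) /
      ((5 + 3 * eta ζ) * BB ζ (algebraMap K (Sep F0) b)) := by
    haveI : NeZero ((5 : ℕ) : Sep F0) := ⟨by exact_mod_cast h5Ω⟩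
    exact IsSepClosed.exists_pow_nat_eq _ 5
  have hB0 := BB_ne h hzΩ
  have c3Ω : 5 + 3 * eta ζ ≠ 0 := by
    intro h0
    have h1 := hzΩ.eta_sq
    have h2 : (5 + 3 * eta ζ) * (1 - eta ζ) ^ 2 = 1 := by
      linear_combination (3 * eta ζ - 4) * h1
    rw [h0, zero_mul] at h2
    exact zero_ne_one h2
  have hm : AA ζ (algebraMap K (Sep F0) b) = (5 + 3 * eta ζ) * m ^ 5 *
      BB ζ (algebraMap K (Sep F0) b) := by
    rw [hm5]; field_simp
  obtain ⟨T, hTT⟩ := exists_T h hzΩ hm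
  have hT5 := hTT.five h hzΩ hm
  have hTn := hTT.nm
  have hbp' : bpol (algebraMap K (Sep F0) b) ≠ 0 := by
    have h2 : bpol (algebraMap K (Sep F0) b) = algebraMap K (Sep F0) (bpol b) := by
      simp only [bpol, map_add, map_sub, map_mul, map_pow, map_ofNat, map_one, map_neg]
    rw [h2]
    exact (_root_.map_ne_zero _).2 hbp
  have hsurj : ∀ S : Pt (crv5 b) (Sep F0), 5 • S = 0 → ∃ i a, S = cb h T i a :=
    fun S hS => cb_surj h hT5 hTn hbp' hS
  obtain ⟨ξ, hξ⟩ : ∃ ξ : (Sep F0 →ₐ[K] Sep F0) → ZMod 5, ∀ φ,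
      act (crv5 b) φ T = cb h T (ξ φ) 1 :=
    ⟨fun φ => (T_gal h5 hb hd hz hTT hm φ).choose, fun φ =>
      (T_gal h5 hb hd hz hTT hm φ).choose_spec.1⟩
  -- the square root
  obtain ⟨S, hS⟩ : ∃ S : Sep F0, S = algebraMap F (Sep F0) (sF k' F) := ⟨_, rfl⟩
  have hr : (algebraMap F (Sep F0) (sF k' F)) ^ 2 = algebraMap K (Sep F0) d := by
    rw [← map_pow, hQ.sqK hKF rfl rfl, ← IsScalarTower.algebraMap_apply K F (Sep F0), ed]
  have hr0 : algebraMap F (Sep F0) (sF k' F) ≠ 0 := (_root_.map_ne_zero _).2 sF_ne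
  have hneg := hQ.exists_neg (Ω := Sep F0)
  -- from `F0` to `F`
  have hsgF : ∀ σ : Sep F0 ≃ₐ[F] Sep F0,
      sg (algebraMap F (Sep F0) (sF k' F)) (rs K (σ.restrictScalars F0)) = 1 := fun σ =>
    sg_pos (φ := rs K (σ.restrictScalars F0)) (σ.commutes _)
  have hext : ∀ σ : Sep F0 ≃ₐ[F0] Sep F0,
      σ (algebraMap F (Sep F0) (sF k' F)) = algebraMap F (Sep F0) (sF k' F) →
      ∃ σ' : Sep F0 ≃ₐ[F] Sep F0, σ'.restrictScalars F0 = σ := by
    intro σ hσ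
    have h1 : (σ : Sep F0 →+* Sep F0).comp (algebraMap F (Sep F0)) = algebraMap F (Sep F0) := by
      refine hom_ext hQ (fun x => ?_) hσ
      show σ (algebraMap F (Sep F0) (algebraMap F0 F x)) = _
      rw [← IsScalarTower.algebraMap_apply F0 F (Sep F0), σ.commutes]
    exact ⟨AlgEquiv.ofRingEquiv (f := σ.toRingEquiv) (fun x => RingHom.congr_fun h1 x),
      AlgEquiv.ext fun x => rfl⟩
  have hlcF : ∀ a : (Sep F0 ≃ₐ[F0] Sep F0) → ZMod 5, IsLocallyConstant a →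
      IsLocallyConstant (fun σ : Sep F0 ≃ₐ[F] Sep F0 => a (σ.restrictScalars F0)) := by
    intro a ha
    exact ha.comp_continuous (cont_rs (F := F0) (M := F) (Ω := Sep F0))
  -- the coordinates
  have hlc : ∀ {f : (Sep F0 ≃ₐ[F0] Sep F0) → Pt (qtw d (crv5 b)) (Sep F0)}
      {i a : (Sep F0 ≃ₐ[F0] Sep F0) → ZMod 5}, IsLocallyConstant f →
      (∀ σ, f σ = tc h5 hb hd hE h2Ω hr hr0 T (i σ) (a σ)) →
      IsLocallyConstant i ∧ IsLocallyConstant a := by
    intro f i a hfl hfc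
    refine coords_lc h5 hb hd hT5 hTn (f := fun σ => (tw hE h2Ω hr hr0).symm (f σ))
      (hfl.comp (tw hE h2Ω hr hr0).symm) fun σ => ?_
    show (tw hE h2Ω hr hr0).symm (f σ) = _
    rw [hfc]
    exact (tw hE h2Ω hr hr0).symm_apply_apply _
  choose i a hfc using fun σ => tc_surj h5 hb hd hsurj hE h2Ω hr hr0 (hf.five σ)
  obtain ⟨ilc, alc⟩ := hlc hf.coc.lc hfc
  have hcc := coc_coords h5 hb hd hT5 hTn hξ hE h2Ω hr hr0 hf.coc hfc
  have hinv := inv_coords h5 hb hd hT5 hTn hsurj hξ hE h2Ω hr hr0 hneg hpres hf.five hf.inv hfc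
  have hTG : ∀ σ : Sep F0 ≃ₐ[F] Sep F0, act (crv5 b) (rs K σ) T - T ∈ HP h := by
    intro σ
    have h1 := cb_cob h5 hb hd hT5 hξ σ 0 1
    rw [cb_T] at h1
    rw [h1, cb_i]
    exact (HP h).nsmul_mem (pP_mem h) _
  -- the first step
  obtain ⟨s1, f1, s10, s15, s1k⟩ := exists_root5 h5Ω hzΩ hzF
    (fun σ : Sep F0 ≃ₐ[F] Sep F0 => a (σ.restrictScalars F0)) (fun σ τ => by
      have := (hcc (σ.restrictScalars F0) (τ.restrictScalars F0)).1
      rw [hsgF, one_mul] at this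
      exact this) (hlcF a alc)
  have k1 : KD ζ (fun σ : Sep F0 ≃ₐ[F] Sep F0 => a (σ.restrictScalars F0)) s1 f1 := ⟨s10, s15, s1k⟩
  have hβγ : β * γ ≠ 0 := mul_ne_zero hp.1 hp.2.1
  have hδδ : (β - C (ep z0) * γ) * (β - C (ep' z0) * γ) ≠ 0 := mul_ne_zero hp.2.2.1 hp.2.2.2
  have va := van hKF hQ rfl rfl h2' h5' hzΩ hzK hzF k1 (fun τ σ σ' hr' => by
      obtain ⟨j, e, hje⟩ := hinv τ
      have h1 := (hje (σ.restrictScalars F0) (σ'.restrictScalars F0) hr').1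
      rw [hsgF, one_mul, sub_self, sub_eq_zero] at h1
      rw [← h1, ← mul_assoc, sg_mul_self, one_mul]) hβγ hs1 hb1 (fun w v hv hu hPv => by
      obtain ⟨v1, v2⟩ := not_mem_mul hPv
      exact first_good hKF hQ h2' h2Ω h5k hz0 hp eb ez h5 hb hd hz hE hr hr0
        (g := fun σ => cb h T (i (σ.restrictScalars F0)) (a (σ.restrictScalars F0)))
        (fun σ => (hfc _).symm) hv hu (hf.loc.1 v) hTT hm hTG (fun σ => rfl) k1 v1 v2)
  obtain ⟨e, he⟩ := sign_cob (K := K) h2Ω hr hr0 (fun σ τ => (hcc σ τ).1) (fun σ hσ => by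
    obtain ⟨σ', rfl⟩ := hext σ hσ
    exact va σ')
  -- the second step
  obtain ⟨H1, hH1⟩ : ∃ H1, H1 = tc h5 hb hd hE h2Ω hr hr0 T 0 e := ⟨_, rfl⟩
  have hH15 : 5 • H1 = 0 := by rw [hH1]; exact tc_five h5 hb hd hT5 hE h2Ω hr hr0 _ _
  have hf' : Slm k' (qtw d (crv5 b))
      (fun σ => f σ - (act (qtw d (crv5 b)) (rs K σ) H1 - H1)) :=
    hf.sub (Q := 0) (by rw [hH15, map_zero])
  obtain ⟨i', hi'⟩ : ∃ i' : (Sep F0 ≃ₐ[F0] Sep F0) → ZMod 5, ∀ σ,
      i' σ = i σ - sg (algebraMap F (Sep F0) (sF k' F)) (rs K σ) * (e * ξ (rs K σ)) :=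
    ⟨_, fun _ => rfl⟩
  have hfc' : ∀ σ, f σ - (act (qtw d (crv5 b)) (rs K σ) H1 - H1) =
      tc h5 hb hd hE h2Ω hr hr0 T (i' σ) ((fun _ => (0 : ZMod 5)) σ) := by
    intro σ
    rw [hfc, hH1, tc_act h5 hb hd hT5 hξ, tc_sub h5 hb hd hT5, tc_sub h5 hb hd hT5]
    congr 1
    · rw [hi']; ring
    · rw [he]; ring
  obtain ⟨i'lc, -⟩ := hlc hf'.coc.lc hfc'
  have hcc' := coc_coords h5 hb hd hT5 hTn hξ hE h2Ω hr hr0 hf'.coc hfc'
  have hinv' := inv_coords h5 hb hd hT5 hTn hsurj hξ hE h2Ω hr hr0 hneg hpres hf'.five hf'.inv hfc'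
  obtain ⟨s2, f2, s20, s25, s2k⟩ := exists_root5 h5Ω hzΩ hzF
    (fun σ : Sep F0 ≃ₐ[F] Sep F0 => i' (σ.restrictScalars F0)) (fun σ τ => by
      have := (hcc' (σ.restrictScalars F0) (τ.restrictScalars F0)).2
      rw [hsgF, one_mul, zero_mul, add_zero] at this
      exact this) (hlcF i' i'lc)
  have k2 : KD ζ (fun σ : Sep F0 ≃ₐ[F] Sep F0 => i' (σ.restrictScalars F0)) s2 f2 :=
    ⟨s20, s25, s2k⟩
  have vi := van hKF hQ rfl rfl h2' h5' hzΩ hzK hzF k2 (fun τ σ σ' hr' => by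
      obtain ⟨j, e, hje⟩ := hinv' τ
      have he0 : e = 0 := by
        obtain ⟨τ1, hτ1⟩ := hneg
        obtain ⟨τ1', hτ1'⟩ := exists_conj hpres τ τ1
        have h1 := (hje τ1 τ1' hτ1').1
        rw [sg_neg (φ := rs K τ1) h2Ω hr0 hτ1, mul_zero, sub_zero] at h1
        have : ∀ x : ZMod 5, 0 = -1 * x - x → x = 0 := by decide
        exact this e h1
      have h1 := (hje (σ.restrictScalars F0) (σ'.restrictScalars F0) hr').2
      rw [hsgF, he0, zero_mul, zero_mul, add_zero, add_zero, one_mul, sub_self, sub_eq_zero] at h1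
      rw [← h1, ← mul_assoc, sg_mul_self, one_mul]) hδδ hs2 hb2 (fun w v hv hu hPv => by
      obtain ⟨v1, v2⟩ := not_mem_mul hPv
      exact second_good hKF hQ h2' h2Ω h5k hz0 hp eb ez h5 hb hd hz hE hr hr0
        (f := fun σ => f σ - (act (qtw d (crv5 b)) (rs K σ) H1 - H1))
        (g := fun σ => cb h T (i' (σ.restrictScalars F0)) 0)
        (fun σ => (hfc' _).symm) hv hu (hf'.loc.1 v) (fun σ => cb_i h _) k2 v1 v2)
  obtain ⟨e', he'⟩ := sign_cob (K := K) h2Ω hr hr0 (fun σ τ => by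
      have := (hcc' σ τ).2
      rw [zero_mul, add_zero] at this
      exact this) (fun σ hσ => by
    obtain ⟨σ', rfl⟩ := hext σ hσ
    exact vi σ')
  refine ⟨tc h5 hb hd hE h2Ω hr hr0 T e' 0 + H1, ?_, fun σ => ?_⟩
  · rw [smul_add, hH15, add_zero, tc_five h5 hb hd hT5 hE h2Ω hr hr0]
  · have h1 := hfc' σ
    rw [he', sub_eq_iff_eq_add] at h1
    have h3 := tc_act (T := T) h5 hb hd hT5 hξ hE h2Ω hr hr0 (rs K σ) e' 0
    have h4 : act (qtw d (crv5 b)) (rs K σ) (tc h5 hb hd hE h2Ω hr hr0 T e' 0) -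
        tc h5 hb hd hE h2Ω hr hr0 T e' 0 = tc h5 hb hd hE h2Ω hr hr0 T
          (sg (algebraMap F (Sep F0) (sF k' F)) (rs K σ) * e' - e') 0 := by
      rw [h3, tc_sub h5 hb hd hT5]
      congr 1 <;> ring
    rw [h1, map_add, ← h4]
    abel

end main

end Pool.Agent.Helper23K9.Q5
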