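import Pool.Agent.Helper23K9.Q5.Fe
import Pool.Agent.TH115.SD.Cpl

/-!
Square roots in the completions of `k'(t)`.
-/

set_option autoImplicit false
set_option linter.all false

open Polynomial IsDedekindDomain
open scoped Classical

namespace Pool.Agent.Helper23K9.Q5

open Pool.Agent.TH115.GD (pl cm cm_mem cm_val wv wv_coe sqrt_one Comp)

section sq

variable {k' : Type} [Field k'] [IsSepClosed k']

/-- Elements which are not in a prime ideal are squares modulo the ideal. -/
theorem sq_mod (h2 : (2 : k') ≠ 0) (v : HeightOneSpectrum k'[X]) {u : k'[X]} (hu : u ∉ v.asIdeal) :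
    ∃ g : k'[X], g ^ 2 - u ∈ v.asIdeal := by
  obtain ⟨π, hπ⟩ := (IsPrincipalIdealRing.principal v.asIdeal).principal
  have hπ' : v.asIdeal = Ideal.span {π} := hπ
  have hπ0 : π ≠ 0 := by
    rintro rfl
    apply v.ne_bot
    rw [hπ', Ideal.span_singleton_eq_bot]
  have hprime : Prime π := (Ideal.span_singleton_prime hπ0).1 (hπ' ▸ v.isPrime)
  haveI : Fact (Irreducible π) := ⟨hprime.irreducible⟩
  haveI : Module.Finite k' (AdjoinRoot π) := (AdjoinRoot.powerBasis hπ0).finite
  haveI : Algebra.IsAlgebraic k' (AdjoinRoot π) := Algebra.IsAlgebraic.of_finite _ _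
  haveI : IsPurelyInseparable k' (AdjoinRoot π) := inferInstance
  have hu' : AdjoinRoot.mk π u ≠ 0 := by
    rw [Ne, AdjoinRoot.mk_eq_zero, ← Ideal.mem_span_singleton, ← hπ']
    exact hu
  obtain ⟨n, a, ha⟩ := IsPurelyInseparable.pow_mem k' (ringExpChar k') (AdjoinRoot.mk π u)
  have hodd : Odd (ringExpChar k' ^ n) := by
    apply Odd.pow
    obtain ⟨q, hq⟩ : ∃ q, q = ringExpChar k' := ⟨_, rfl⟩
    haveI hE : ExpChar k' q := hq ▸ inferInstance
    rw [← hq]
    cases hE with
    | zero => exact odd_one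
    | prime hp =>
      refine hp.odd_of_ne_two ?_
      rintro rfl
      exact h2 (by exact_mod_cast CharP.cast_eq_zero k' 2)
  obtain ⟨m, hm⟩ := hodd
  haveI : NeZero ((2 : ℕ) : k') := ⟨by exact_mod_cast h2⟩
  obtain ⟨b, hb⟩ := IsSepClosed.exists_pow_nat_eq a 2
  obtain ⟨x, hx⟩ := AdjoinRoot.mk_surjective ((algebraMap k' (AdjoinRoot π) b) / (AdjoinRoot.mk π u) ^ m)
  refine ⟨x, ?_⟩
  rw [hπ', Ideal.mem_span_singleton, ← AdjoinRoot.mk_eq_zero, map_sub, map_pow, hx, div_pow,
    ← map_pow, hb, ha, hm, sub_eq_zero, div_eq_iff (pow_ne_zero _ (pow_ne_zero _ hu'))]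
  ring

variable {F0 : Type} [Field F0] [Algebra k'[X] F0] [IsFractionRing k'[X] F0]

/-- Units have square roots in the completions. -/
theorem sq_comp (h2 : (2 : k') ≠ 0) (v : HeightOneSpectrum k'[X]) {u : k'[X]} (hu : u ∉ v.asIdeal) :
    ∃ r : Comp k'[X] F0 v, r ^ 2 = algebraMap F0 (Comp k'[X] F0 v) (algebraMap k'[X] F0 u) := by
  obtain ⟨g, hg⟩ := sq_mod h2 v hu
  have one : ∀ {p : k'[X]}, p ∉ v.asIdeal → v.valuation F0 (algebraMap k'[X] F0 p) = 1 := by
    intro p hp
    rw [v.valuation_of_algebraMap, HeightOneSpectrum.intValuation_eq_one_iff]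
    exact hp
  have hgn : g ∉ v.asIdeal := by
    intro h
    apply hu
    have h1 : u = g * g - (g ^ 2 - u) := by ring
    rw [h1]
    exact v.asIdeal.sub_mem (v.asIdeal.mul_mem_left _ h) hg
  have hg0 : algebraMap k'[X] F0 g ≠ 0 := by
    intro h
    have := one hgn
    rw [h, map_zero] at this
    exact zero_ne_one this
  have hval2 : v.valuation F0 2 = 1 := by
    have h1 : (2 : F0) = algebraMap k'[X] F0 (C 2) := by
      rw [map_ofNat, map_ofNat]
    rw [h1]
    apply one
    intro h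
    apply v.isPrime.ne_top
    rw [Ideal.eq_top_iff_one]
    have : (1 : k'[X]) = C (2 : k')⁻¹ * C 2 := by
      rw [← C_mul, inv_mul_cancel₀ h2, C_1]
    rw [this]
    exact v.asIdeal.mul_mem_left _ h
  obtain ⟨y, hy⟩ : ∃ y : F0, y = algebraMap k'[X] F0 u / algebraMap k'[X] F0 g ^ 2 := ⟨_, rfl⟩
  have hy1 : v.valuation F0 (y - 1) < 1 := by
    have e : y - 1 = -(algebraMap k'[X] F0 (g ^ 2 - u) / algebraMap k'[X] F0 g ^ 2) := by
      rw [hy, map_sub, map_pow]
      field_simp
      ring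
    rw [e, Valuation.map_neg, map_div₀, map_pow, one hgn, one_pow, div_one,
      v.valuation_of_algebraMap, HeightOneSpectrum.intValuation_lt_one_iff_mem]
    exact hg
  obtain ⟨z, hz, -⟩ := sqrt_one (F := F0) v hval2 (algebraMap F0 (Comp k'[X] F0 v) y) (by
    rw [← map_one (algebraMap F0 (Comp k'[X] F0 v)), ← map_sub, wv_coe]
    exact hy1)
  refine ⟨z * algebraMap F0 _ (algebraMap k'[X] F0 g), ?_⟩
  rw [mul_pow, hz, ← map_pow, ← map_mul, hy, div_mul_cancel₀ _ (pow_ne_zero 2 hg0)]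

end sq

end Pool.Agent.Helper23K9.Q5
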