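import Pool.Agent.Helper23K9.Q5.Main
import Pool.Agent.Helper23K9.T5.Tran

/-!
The criterion over a field which need not contain the fifth roots of unity.
-/

set_option autoImplicit false
set_option linter.all false

open Polynomial IsDedekindDomain WeierstrassCurve WeierstrassCurve.Affine
open scoped Classical

namespace Pool.Agent.Helper23K9.Q5

open Pool.Agent.TH115.GD (vInf pl Pt act incl rs ak IsCoc LocTriv Sep Comp IsTower Preserves
  LocallyTrivial act_act)
open Pool.Agent.Helper7K9.T3 (TateAt IsTateClass IsTC IsInv tate_of_part)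
open Pool.Agent.Helper23K9.T5

section tran

variable {k k1 k' K F : Type} [Field k] [Field k1] [Field k'] [Algebra k k1]
    [Algebra k1 k'] [Algebra k k'] [IsScalarTower k k1 k'] [Field K] [Algebra k[X] K]
    [Field F] [Algebra k'[X] F] [IsFractionRing k'[X] F] [Algebra K F]

/-- **The criterion for quadratic twists**, with conditions over `k1`. -/
theorem tate_tw (hT : IsTower k k' K F) (h2k : (2 : k) ≠ 0) (h5k : (5 : k) ≠ 0) {z0 : k1}
    (hz0 : IsZ z0) {β γ : k[X]} {β1 γ1 : k1[X]} (hβ1 : β1 = β.map (algebraMap k k1))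
    (hγ1 : γ1 = γ.map (algebraMap k k1))
    (hp : β1 ≠ 0 ∧ γ1 ≠ 0 ∧ β1 - C (ep z0) * γ1 ≠ 0 ∧ β1 - C (ep' z0) * γ1 ≠ 0)
    (hs1 : ∀ π : k1[X], Irreducible π → π ∣ β1 * γ1 → π.Separable)
    (hs2 : ∀ π : k1[X], Irreducible π → π ∣ (β1 - C (ep z0) * γ1) * (β1 - C (ep' z0) * γ1) →
      π.Separable)
    {b d : K} (eb : b = algebraMap k[X] K β / algebraMap k[X] K γ) (hbp : bpol b ≠ 0)
    {c0 t00 : k} (hc0 : c0 ≠ 0) (ed : d = algebraMap k[X] K (C c0 * (X - C t00)))
    (hb1 : ∀ ρ : k', ρ ≠ 0 → ((β1 * γ1).map (algebraMap k1 k')).eval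
      ((algebraMap k k' c0)⁻¹ * ρ ^ 2 + algebraMap k k' t00) = 0 → ∃ s0 : k' ≃ₐ[k1] k', s0 ρ = -ρ)
    (hb2 : ∀ ρ : k', ρ ≠ 0 → (((β1 - C (ep z0) * γ1) * (β1 - C (ep' z0) * γ1)).map
      (algebraMap k1 k')).eval ((algebraMap k k' c0)⁻¹ * ρ ^ 2 + algebraMap k k' t00) = 0 →
      ∃ s0 : k' ≃ₐ[k1] k', s0 ρ = -ρ) :
    TateAt (F := F) 5 k' (qtw d (crv5 b)) := by
  obtain ⟨K1, iK1, iX1, iKK1, iK1F, tow, hT1, hpol⟩ := exists_mid (k1 := k1) hT
  haveI := hT1.fracK
  haveI := hT1.sep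
  haveI : IsFractionRing k[X] K := hT.fracK
  have h51 : (5 : k1) ≠ 0 := by
    have h1 : (5 : k1) = algebraMap k k1 5 := (map_ofNat _ _).symm
    rw [h1]
    exact (_root_.map_ne_zero _).2 h5k
  have h21 : (2 : k1) ≠ 0 := by
    have h1 : (2 : k1) = algebraMap k k1 2 := (map_ofNat _ _).symm
    rw [h1]
    exact (_root_.map_ne_zero _).2 h2k
  have eb1 : algebraMap K K1 b = algebraMap k1[X] K1 β1 / algebraMap k1[X] K1 γ1 := by
    rw [eb, map_div₀, hpol, hpol, hβ1, hγ1]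
  have ed1 : algebraMap K K1 d = algebraMap k1[X] K1 (C (algebraMap k k1 c0) *
      (X - C (algebraMap k k1 t00))) := by
    rw [ed, hpol, Polynomial.map_mul, Polynomial.map_sub, map_C, map_C, map_X]
  have hW : qtw (algebraMap K K1 d) (crv5 (algebraMap K K1 b)) =
      (qtw d (crv5 b)).map (algebraMap K K1) := by
    rw [crv5_map, qtw_map]
  obtain ⟨h5K1, hb1', hd1, hz1, -⟩ := fldG h51 hz0 hp eb1 rfl
  have hbp1 : bpol (algebraMap K K1 b) ≠ 0 := by
    have h2 : bpol (algebraMap K K1 b) = algebraMap K K1 (bpol b) := by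
      simp only [bpol, map_add, map_sub, map_mul, map_pow, map_ofNat, map_one, map_neg]
    rw [h2]
    exact (_root_.map_ne_zero _).2 hbp
  have hcc : algebraMap k1 k' (algebraMap k k1 c0) = algebraMap k k' c0 :=
    (IsScalarTower.algebraMap_apply k k1 k' c0).symm
  have htt : algebraMap k1 k' (algebraMap k k1 t00) = algebraMap k k' t00 :=
    (IsScalarTower.algebraMap_apply k k1 k' t00).symm
  have h := isE5 (algebraMap K K1 b) (Sep F) h5K1 hb1' hd1
  -- the twist and the curve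
  have hd0 : algebraMap K K1 d ≠ 0 := by
    rw [ed1, Ne, map_eq_zero_iff _ (IsFractionRing.injective k1[X] K1)]
    exact mul_ne_zero (C_ne_zero.2 ((_root_.map_ne_zero _).2 hc0)) (X_sub_C_ne_zero _)
  have hE : (crv5 (algebraMap K K1 b)).Δ ≠ 0 := by
    rw [crv5_disc]
    exact mul_ne_zero (pow_ne_zero 5 hb1') hd1
  have h2Ω : (2 : Sep F) ≠ 0 := by
    have h2K : (2 : K1) ≠ 0 := by
      have : (2 : K1) = algebraMap k1[X] K1 (C 2) := by rw [map_ofNat, map_ofNat]
      rw [this, Ne, map_eq_zero_iff _ (IsFractionRing.injective k1[X] K1)]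
      exact C_ne_zero.2 h21
    have : (2 : Sep F) = algebraMap K1 (Sep F) 2 := (map_ofNat _ _).symm
    rw [this]
    exact (_root_.map_ne_zero _).2 h2K
  haveI : NeZero ((2 : ℕ) : Sep F) := ⟨by exact_mod_cast h2Ω⟩
  obtain ⟨r, hr⟩ := IsSepClosed.exists_pow_nat_eq (algebraMap K1 (Sep F) (algebraMap K K1 d)) 2
  have hr0 : r ≠ 0 := by
    rintro rfl
    rw [zero_pow (by norm_num)] at hr
    exact (_root_.map_ne_zero _).2 hd0 hr.symm
  -- division by five
  have hdiv : ∀ X : Pt (qtw d (crv5 b)) (Sep F), ∃ Y : Pt (qtw d (crv5 b)) (Sep F), 5 • Y = X := by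
    intro X
    obtain ⟨Y, hY⟩ := five_div h ((tw hE h2Ω hr hr0).symm (chg hW (Sep F) X))
    refine ⟨(chg hW (Sep F)).symm (tw hE h2Ω hr hr0 Y), ?_⟩
    apply (chg hW (Sep F)).injective
    rw [map_nsmul, AddEquiv.apply_symm_apply, ← map_nsmul, hY, AddEquiv.apply_symm_apply]
  refine tate_of_part hdiv fun c hc => ?_
  obtain ⟨H, hH, hcH⟩ := key_tw hT1 h21 h51 hz0 hp hs1 hs2 eb1 hbp1
    ((_root_.map_ne_zero (algebraMap k k1)).2 hc0) ed1 (by rw [hcc, htt]; exact hb1)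
    (by rw [hcc, htt]; exact hb2) (Slm.ofTate (chg_class hW hc))
  refine ⟨0, (chg hW (Sep F)).symm H, ?_, fun σ => ?_⟩
  · apply (chg hW (Sep F)).injective
    rw [map_nsmul, AddEquiv.apply_symm_apply, hH, map_zero, map_zero]
  · apply (chg hW (Sep F)).injective
    have h1 := hcH σ
    have h2 := chg_act hW (L := Sep F) (L' := Sep F) (rs K1 σ) ((chg hW (Sep F)).symm H)
    rw [rs_restrict, AddEquiv.apply_symm_apply] at h2
    rw [h1, map_sub, AddEquiv.apply_symm_apply, h2]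

end tran

end Pool.Agent.Helper23K9.Q5
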