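import Pool.Agent.Y700.VC
import Pool.Agent.TH115.GD.Defs
import Pool.Agent.TH115.GD.Des

/-!
The points of the quadratic twist.
-/

set_option autoImplicit false
set_option linter.all false

open WeierstrassCurve WeierstrassCurve.Affine
open scoped Classical

namespace Pool.Agent.Helper23K9.Q5

open Pool.Agent.TH115.GD (Pt act rs act_some)
open Pool.Agent.Y700 (VR)

universe u

/-- The quadratic twist by `d`: the curve `d y ^ 2 = x ^ 3 + (b₂ / 4) x ^ 2 + (b₄ / 2) x + b₆ / 4`, in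
the coordinates `X = 4 d x`, `Y = 8 d ^ 2 y`. -/
def qtw {K : Type*} [Field K] (d : K) (E : WeierstrassCurve K) : WeierstrassCurve K :=
  ⟨0, d * E.b₂, 0, 8 * d ^ 2 * E.b₄, 16 * d ^ 3 * E.b₆⟩

theorem qtw_map {K K1 : Type*} [Field K] [Field K1] (f : K →+* K1) (d : K) (E : WeierstrassCurve K) :
    qtw (f d) (E.map f) = (qtw d E).map f := by
  have e2 : f (d * E.b₂) = f d * (E.map f).b₂ := by rw [map_mul, WeierstrassCurve.map_b₂]
  have e4 : f (8 * d ^ 2 * E.b₄) = 8 * f d ^ 2 * (E.map f).b₄ := by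
    rw [map_mul, map_mul, map_pow, map_ofNat, WeierstrassCurve.map_b₄]
  have e6 : f (16 * d ^ 3 * E.b₆) = 16 * f d ^ 3 * (E.map f).b₆ := by
    rw [map_mul, map_mul, map_pow, map_ofNat, WeierstrassCurve.map_b₆]
  apply WeierstrassCurve.ext
  · exact (map_zero f).symm
  · exact e2.symm
  · exact (map_zero f).symm
  · exact e4.symm
  · exact e6.symm

section pts

variable {K Ω : Type u} [Field K] [Field Ω] [Algebra K Ω] {E : WeierstrassCurve K} {d : K}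

theorem vr_qtw (h2 : (2 : Ω) ≠ 0) {r : Ω} (hr : r ^ 2 = algebraMap K Ω d) (hr0 : r ≠ 0) :
    VR ((qtw d E).baseChange Ω) (E.baseChange Ω) (2 * r) 0 (r * (E.baseChange Ω).a₁)
      (4 * r ^ 3 * (E.baseChange Ω).a₃) := by
  have a1 : ((qtw d E).baseChange Ω).a₁ = 0 := map_zero _
  have a3 : ((qtw d E).baseChange Ω).a₃ = 0 := map_zero _
  have a2 : ((qtw d E).baseChange Ω).a₂ = r ^ 2 * ((E.baseChange Ω).a₁ ^ 2 + 4 * (E.baseChange Ω).a₂) := by
    show algebraMap K Ω (d * E.b₂) = _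
    rw [map_mul, ← hr]
    show _ * algebraMap K Ω (E.a₁ ^ 2 + 4 * E.a₂) = _ * ((algebraMap K Ω E.a₁) ^ 2 + 4 * algebraMap K Ω E.a₂)
    simp only [map_add, map_mul, map_pow, map_ofNat]
  have a4 : ((qtw d E).baseChange Ω).a₄ = 8 * r ^ 4 * (2 * (E.baseChange Ω).a₄ +
      (E.baseChange Ω).a₁ * (E.baseChange Ω).a₃) := by
    show algebraMap K Ω (8 * d ^ 2 * E.b₄) = _
    rw [map_mul, map_mul, map_pow, ← hr, map_ofNat]
    show _ * algebraMap K Ω (2 * E.a₄ + E.a₁ * E.a₃) = _ * (2 * algebraMap K Ω E.a₄ +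
      algebraMap K Ω E.a₁ * algebraMap K Ω E.a₃)
    simp only [map_add, map_mul, map_pow, map_ofNat]
    ring
  have a6 : ((qtw d E).baseChange Ω).a₆ = 16 * r ^ 6 * ((E.baseChange Ω).a₃ ^ 2 +
      4 * (E.baseChange Ω).a₆) := by
    show algebraMap K Ω (16 * d ^ 3 * E.b₆) = _
    rw [map_mul, map_mul, map_pow, ← hr, map_ofNat]
    show _ * algebraMap K Ω (E.a₃ ^ 2 + 4 * E.a₆) = _ * ((algebraMap K Ω E.a₃) ^ 2 +
      4 * algebraMap K Ω E.a₆)
    simp only [map_add, map_mul, map_pow, map_ofNat]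
    ring
  refine ⟨mul_ne_zero h2 hr0, ?_, ?_, ?_, ?_, ?_⟩
  · rw [a1]; ring
  · rw [a1, a2]; ring
  · rw [a1, a3]; ring
  · rw [a1, a2, a3, a4]; ring
  · rw [a1, a2, a3, a4, a6]; ring

theorem disc_bc (hE : E.Δ ≠ 0) : (E.baseChange Ω).Δ ≠ 0 := by
  show (E.map (algebraMap K Ω)).Δ ≠ 0
  rw [WeierstrassCurve.map_Δ]
  exact (_root_.map_ne_zero _).2 hE

/-- The isomorphism of `E` with its twist over a field which contains a square root `r` of `d`. -/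
noncomputable def tw (hE : E.Δ ≠ 0) (h2 : (2 : Ω) ≠ 0) {r : Ω} (hr : r ^ 2 = algebraMap K Ω d)
    (hr0 : r ≠ 0) : Pt E Ω ≃+ Pt (qtw d E) Ω :=
  (vr_qtw (E := E) h2 hr hr0).equiv (disc_bc hE)

theorem tw_some (hE : E.Δ ≠ 0) (h2 : (2 : Ω) ≠ 0) {r : Ω} (hr : r ^ 2 = algebraMap K Ω d)
    (hr0 : r ≠ 0) {x y : Ω} (h : (E.baseChange Ω).toAffine.Nonsingular x y) : ∃ h',
      tw hE h2 hr hr0 (Point.some x y h) = Point.some ((2 * r) ^ 2 * x + 0)
        ((2 * r) ^ 3 * y + (2 * r) ^ 2 * (r * (E.baseChange Ω).a₁) * x +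
          4 * r ^ 3 * (E.baseChange Ω).a₃) h' := ⟨_, rfl⟩

theorem pt_ext {F : Type*} [Field F] {V : Affine F} {x y x' y' : F} {h : V.Nonsingular x y}
    {h' : V.Nonsingular x' y'} (hx : x = x') (hy : y = y') :
    Point.some x y h = Point.some x' y' h' := by
  subst hx hy
  rfl

variable {Ω' : Type u} [Field Ω'] [Algebra K Ω']

theorem tw_act (hE : E.Δ ≠ 0) (h2 : (2 : Ω) ≠ 0) (h2' : (2 : Ω') ≠ 0) {r : Ω}
    (hr : r ^ 2 = algebraMap K Ω d) (hr0 : r ≠ 0) {r' : Ω'} (hr' : r' ^ 2 = algebraMap K Ω' d)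
    (hr0' : r' ≠ 0) (φ : Ω →ₐ[K] Ω') (e : φ r = r') (P : Pt E Ω) :
    act (qtw d E) φ (tw hE h2 hr hr0 P) = tw hE h2' hr' hr0' (act E φ P) := by
  rcases P with _ | ⟨x, y, h⟩
  · have h1 : (Point.zero : Pt E Ω) = 0 := rfl
    rw [h1, map_zero, map_zero, map_zero, map_zero]
  · obtain ⟨h1, e1⟩ := act_some E φ h
    obtain ⟨h3, e3⟩ := tw_some hE h2 hr hr0 h
    obtain ⟨h4, e4⟩ := act_some (qtw d E) φ h3
    obtain ⟨h5, e5⟩ := tw_some hE h2' hr' hr0' h1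
    rw [e1, e3, e4, e5]
    have q1 : φ (E.baseChange Ω).a₁ = (E.baseChange Ω').a₁ := φ.commutes _
    have q3 : φ (E.baseChange Ω).a₃ = (E.baseChange Ω').a₃ := φ.commutes _
    refine pt_ext ?_ ?_
    · rw [map_add, map_mul, map_pow, map_mul, map_ofNat, map_zero, e]
    · simp only [map_add, map_mul, map_pow, map_ofNat, e, q1, q3]

theorem tw_neg (hE : E.Δ ≠ 0) (h2 : (2 : Ω) ≠ 0) {r : Ω}
    (hr : r ^ 2 = algebraMap K Ω d) (hr0 : r ≠ 0) {r' : Ω} (hr' : r' ^ 2 = algebraMap K Ω d)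
    (hr0' : r' ≠ 0) (e : r' = -r) (P : Pt E Ω) :
    tw hE h2 hr' hr0' P = -tw hE h2 hr hr0 P := by
  subst e
  rcases P with _ | ⟨x, y, h⟩
  · have h1 : (Point.zero : Pt E Ω) = 0 := rfl
    rw [h1, map_zero, map_zero, neg_zero]
  · obtain ⟨h3, e3⟩ := tw_some hE h2 hr hr0 h
    obtain ⟨h5, e5⟩ := tw_some hE h2 hr' hr0' h
    rw [e3, e5, Point.neg_some]
    have a1 : ((qtw d E).baseChange Ω).a₁ = 0 := map_zero _
    have a3 : ((qtw d E).baseChange Ω).a₃ = 0 := map_zero _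
    refine pt_ext ?_ ?_
    · ring
    · show _ = -_ - ((qtw d E).baseChange Ω).a₁ * _ - ((qtw d E).baseChange Ω).a₃
      rw [a1, a3]
      ring

end pts

end Pool.Agent.Helper23K9.Q5
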