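import Pool.Agent.Helper23K9.Q5.Grp

/-!
Characters of `Gal(Ω / F)` which are multiplied by the sign by the automorphisms over `K`.
-/

set_option autoImplicit false
set_option linter.all false

open Polynomial IsDedekindDomain WeierstrassCurve WeierstrassCurve.Affine
open scoped Classical

namespace Pool.Agent.Helper23K9.Q5

open Pool.Agent.TH115.GD (Pt act incl rs ak act_act act_inj IsCoc rs_mul exists_conj Preserves pl cm
  cm_mem cm_val exists_root_of_mem splits_of_sep mem_pl)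
open Pool.Agent.Helper23K9.T5

section van

variable {k k' K F0 F Ω : Type} [Field k] [Field k'] [Algebra k k'] [IsSepClosure k k'] [Field K]
  [Algebra k[X] K] [IsFractionRing k[X] K] [Field F0] [Algebra k'[X] F0] [IsFractionRing k'[X] F0]
  [Algebra K F0] [Field F] [Algebra k'[X] F] [IsFractionRing k'[X] F] [Algebra F0 F] [Algebra K F]
  [IsScalarTower K F0 F] [Field Ω] [Algebra F0 Ω] [Algebra F Ω] [Algebra K Ω]
  [IsScalarTower F0 F Ω] [IsScalarTower K F0 Ω] [IsScalarTower K F Ω] [IsSepClosure F0 Ω]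
  (hKF : ∀ p : k[X], algebraMap K F0 (algebraMap k[X] K p) =
      algebraMap k'[X] F0 (p.map (algebraMap k k')))
  {c t0 : k'} (hQ : IsQ k' F0 F c t0) {c0 t00 : k} (hc : c = algebraMap k k' c0)
  (ht : t0 = algebraMap k k' t00)

theorem cm_ng (w : HeightOneSpectrum k'[X]) :
    cm (eG (AlgEquiv.refl : k' ≃ₐ[k] k') true) w = cm (ng k') w := by
  apply HeightOneSpectrum.ext
  ext p
  rw [cm_mem, cm_mem, eG_true, ng_apply]
  have : p.map ((AlgEquiv.refl : k' ≃ₐ[k] k') : k' →+* k') = p := Polynomial.map_id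
  rw [this]

theorem eq_pl_of {w : HeightOneSpectrum k'[X]} {ρ : k'} (h : X - C ρ ∈ w.asIdeal) : w = pl ρ := by
  have h0 : (X - C ρ : k'[X]) ≠ 0 := X_sub_C_ne_zero ρ
  obtain ⟨θ, hθ, e⟩ := exists_root_of_mem h0 (Splits.X_sub_C ρ) h
  rw [roots_X_sub_C, Multiset.mem_singleton] at hθ
  rw [e, hθ]

include hKF hQ hc ht in
theorem van [IsGalois F0 Ω] (h2 : (2 : k') ≠ 0) (h5' : (5 : k') ≠ 0) {z : Ω} (hz : IsZ z)
    (hzK : ∀ τ : Ω ≃ₐ[K] Ω, τ z = z) (hzF : ∀ σ : Ω ≃ₐ[F] Ω, σ z = z)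
    {χ : (Ω ≃ₐ[F] Ω) → ZMod 5} {s : Ω} {f0 : F} (hk : KD z χ s f0)
    (hχ : ∀ (τ : Ω ≃ₐ[K] Ω) (σ σ' : Ω ≃ₐ[F] Ω), (∀ x, τ (σ' x) = σ (τ x)) →
      χ σ' = sg (algebraMap F Ω (sF k' F)) (ak τ) * χ σ)
    {P : k[X]} (hP : P ≠ 0) (hsep : ∀ π : k[X], Irreducible π → π ∣ P → π.Separable)
    (hbad : ∀ ρ : k', ρ ≠ 0 → (P.map (algebraMap k k')).eval (c⁻¹ * ρ ^ 2 + t0) = 0 →
      ∃ s0 : k' ≃ₐ[k] k', s0 ρ = -ρ)
    (hgood : ∀ w v : HeightOneSpectrum k'[X],
      (∀ p : k'[X], p ∈ v.asIdeal ↔ p.comp (C c⁻¹ * X ^ 2 + C t0) ∈ w.asIdeal) →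
      C c * (X - C t0) ∉ v.asIdeal → P.map (algebraMap k k') ∉ v.asIdeal →
      ∃ w' : HeightOneSpectrum k'[X], (w' = w ∨ w' = cm (ng k') w) ∧ om5 w' f0 = 0)
    (σ : Ω ≃ₐ[F] Ω) : χ σ = 0 := by
  haveI : IsSepClosed k' := IsSepClosure.sep_closed k
  haveI : IsGalois F Ω := IsGalois.tower_top_of_isGalois F0 F Ω
  have hpres : Preserves K F Ω := hQ.pres hKF hc ht
  have hS0 : algebraMap F Ω (sF k' F) ≠ 0 := (_root_.map_ne_zero _).2 sF_ne
  have h2Ω : (2 : Ω) ≠ 0 := by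
    have : (2 : Ω) = algebraMap F Ω (algebraMap k'[X] F (C 2)) := by
      rw [map_ofNat, map_ofNat, map_ofNat]
    rw [this, Ne, map_eq_zero_iff _ (algebraMap F Ω).injective]
    intro h
    exact C_ne_zero.2 h2 (IsFractionRing.injective k'[X] F (h.trans (map_zero _).symm))
  have h5Ω : (5 : Ω) ≠ 0 := by
    have : (5 : Ω) = algebraMap F Ω (algebraMap k'[X] F (C 5)) := by
      rw [map_ofNat, map_ofNat, map_ofNat]
    rw [this, Ne, map_eq_zero_iff _ (algebraMap F Ω).injective]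
    intro h
    exact C_ne_zero.2 h5' (IsFractionRing.injective k'[X] F (h.trans (map_zero _).symm))
  have hkill : ∀ (s0 : k' ≃ₐ[k] k') (w : HeightOneSpectrum k'[X]),
      om5 (cm (eG s0 true) w) f0 = -om5 w f0 := by
    intro s0 w
    obtain ⟨τ, hτ, hs⟩ := hQ.lift (Ω := Ω) hKF hc ht s0
    refine kill hpres hz.five hk (hzK τ) hs (fun σ σ' h => ?_) w
    rw [hχ τ σ σ' h, sg_neg (φ := ak τ) h2Ω hS0 hτ, neg_one_mul]
  have hng : ∀ w : HeightOneSpectrum k'[X], om5 (cm (ng k') w) f0 = -om5 w f0 := by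
    intro w
    rw [← cm_ng (k := k)]
    exact hkill _ w
  refine char_van h5' h5Ω hz hzF hk (fun w => ?_) σ
  obtain ⟨v, hv⟩ := exists_under (t0 := t0) hQ.c0 w
  by_cases hu : C c * (X - C t0) ∈ v.asIdeal
  · -- the ramified place
    rw [hv] at hu
    have e1 : (C c * (X - C t0) : k'[X]).comp (C c⁻¹ * X ^ 2 + C t0) = X ^ 2 := by
      rw [mul_comp, C_comp, sub_comp, X_comp, C_comp, add_sub_cancel_right, ← mul_assoc, ← C_mul,
        mul_inv_cancel₀ hQ.c0, C_1, one_mul]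
    rw [e1] at hu
    have hX : X - C (0 : k') ∈ w.asIdeal := by
      rw [C_0, sub_zero]
      exact w.isPrime.mem_of_pow_mem _ hu
    have hw := eq_pl_of hX
    have h3 := hkill (AlgEquiv.refl : k' ≃ₐ[k] k') w
    rw [hw, cm_pl0] at h3
    rw [hw]
    exact two5 _ h3
  · by_cases hPv : P.map (algebraMap k k') ∈ v.asIdeal
    · -- a place which does not split
      have hP' : P.map (algebraMap k k') ≠ 0 :=
        (Polynomial.map_ne_zero_iff (algebraMap k k').injective).2 hP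
      obtain ⟨θ, hθ, e⟩ := exists_root_of_mem hP' (splits_of_sep hP hsep) hPv
      have hθv : X - C θ ∈ v.asIdeal := by
        rw [e, mem_pl, IsRoot.def, eval_sub, eval_X, eval_C, sub_self]
      rw [hv, sub_comp, X_comp, C_comp] at hθv
      haveI : NeZero ((2 : ℕ) : k') := ⟨by exact_mod_cast h2⟩
      obtain ⟨ρ, hρ⟩ := IsSepClosed.exists_pow_nat_eq (c * (θ - t0)) 2
      have hcc : c⁻¹ * ρ ^ 2 + t0 = θ := by
        rw [hρ, ← mul_assoc, inv_mul_cancel₀ hQ.c0, one_mul, sub_add_cancel]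
      have e2 : (C c⁻¹ * X ^ 2 + C t0 - C θ : k'[X]) = C c⁻¹ * ((X - C ρ) * (X - C (-ρ))) := by
        rw [← hcc, C_add, C_mul, C_pow, C_neg]
        ring
      rw [e2] at hθv
      have hCc : C c⁻¹ ∉ w.asIdeal := by
        intro h
        apply w.isPrime.ne_top
        apply Ideal.eq_top_of_isUnit_mem _ h
        exact isUnit_C.2 (isUnit_iff_ne_zero.2 (inv_ne_zero hQ.c0))
      have hmem := (w.isPrime.mem_or_mem hθv).resolve_left hCc
      obtain ⟨ρ', hρ', hw⟩ : ∃ ρ' : k', c⁻¹ * ρ' ^ 2 + t0 = θ ∧ w = pl ρ' := by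
        rcases w.isPrime.mem_or_mem hmem with h | h
        · exact ⟨ρ, hcc, eq_pl_of h⟩
        · exact ⟨-ρ, by rw [neg_sq, hcc], eq_pl_of h⟩
      have hρ0 : ρ' ≠ 0 := by
        rintro rfl
        apply hu
        rw [zero_pow (by norm_num), mul_zero, zero_add] at hρ'
        rw [e, mem_pl, IsRoot.def, eval_mul, eval_sub, eval_X, eval_C, eval_C, hρ', sub_self,
          mul_zero]
      obtain ⟨s0, hs0⟩ := hbad ρ' hρ0 (by
        rw [hρ']
        exact (mem_roots hP').1 hθ)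
      have h3 := hkill s0 w
      rw [hw, cm_pl hs0] at h3
      rw [hw]
      exact two5 _ h3
    · -- a good place
      obtain ⟨w', hw', h0⟩ := hgood w v hv hu hPv
      rcases hw' with rfl | rfl
      · exact h0
      · rw [hng] at h0
        exact neg_eq_zero.1 h0

end van

end Pool.Agent.Helper23K9.Q5
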